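import Pool.Agent.H92.Hartogs.L2

set_option autoImplicit false
set_option linter.unusedSectionVars false

open MeasureTheory Set Filter Topology
open scoped ContDiff ENNReal Convolution

namespace Pool.Agent.H92

variable {N q : ℕ} {G : Type*} [NormedAddCommGroup G] [NormedSpace ℝ G] [CompleteSpace G]

/-- a standard sequence of bump functions -/
noncomputable def bmp (N : ℕ) (n : ℕ) : ContDiffBump (0 : EE N) where
  rIn := 1 / (2 * ((n : ℝ) + 1))
  rOut := 1 / ((n : ℝ) + 1)
  rIn_pos := by positivity
  rIn_lt_rOut := by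
    have : (0 : ℝ) < (n : ℝ) + 1 := by positivity
    rw [div_lt_div_iff₀ (by positivity) this]
    linarith

/-- the mollifiers -/
noncomputable def rh (N : ℕ) (n : ℕ) : EE N → ℝ := (bmp N n).normed volume

theorem rh_smooth (n : ℕ) : ContDiff ℝ ∞ (rh N n) := (bmp N n).contDiff_normed

theorem rh_cpt (n : ℕ) : HasCompactSupport (rh N n) := (bmp N n).hasCompactSupport_normed

theorem rh_tsupport (n : ℕ) : tsupport (rh N n) = Metric.closedBall 0 (1 / ((n : ℝ) + 1)) :=
  (bmp N n).tsupport_normed_eq

theorem aesm_mol {u : EE N → G} (hu : LocallyIntegrable u volume) (n : ℕ) :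
    AEStronglyMeasurable (mol (rh N n) u) volume :=
  (contDiff_mol (rh_smooth n) (rh_cpt n) hu).continuous.aestronglyMeasurable

theorem mol_sub {u v : EE N → G} (hu : LocallyIntegrable u volume)
    (hv : LocallyIntegrable v volume) (n : ℕ) (x : EE N) :
    mol (rh N n) u x - mol (rh N n) v x = mol (rh N n) (fun x => u x - v x) x := by
  have h : ∀ {w : EE N → G}, LocallyIntegrable w volume →
      Integrable (fun t => rh N n (x - t) • w t) := by
    intro w hw
    refine hw.integrable_smul_left_of_hasCompactSupport ?_ ?_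
    · exact (rh_smooth n).continuous.comp (continuous_const.sub continuous_id)
    · exact (rh_cpt n).comp_homeomorph (Homeomorph.subLeft x)
  rw [mol_eq, mol_eq, mol_eq, ← integral_sub (h hu) (h hv)]
  simp only [smul_sub]

theorem mol_tendsto {u : EE N → G} (hu : MemLp u 2 volume) :
    Tendsto (fun n => eLpNorm (fun x => mol (rh N n) u x - u x) 2 volume) atTop (𝓝 0) := by
  refine approx_principle (fun n u => mol (rh N n) u) 1 (by simp) ?_ ?_ ?_ hu
  · intro n u hu
    exact aesm_mol (hu.locallyIntegrable (by norm_num)) n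
  · refine Eventually.of_forall fun n u v hu hv => ?_
    have hu' := hu.locallyIntegrable (by norm_num)
    have hv' := hv.locallyIntegrable (by norm_num)
    simp only [mol_sub hu' hv' n, one_mul]
    exact eL2_mol_le (rh_smooth n).continuous ((bmp N n).integrable_normed)
      (bmp N n).nonneg_normed (bmp N n).integral_normed (hu.1.sub hv.1)
  · intro φ hφ hφc
    obtain ⟨R, hR⟩ := (hφc.isCompact.isBounded).subset_closedBall (0 : EE N)
    set B : Set (EE N) := Metric.closedBall 0 (R + 1) with hB
    rw [ENNReal.tendsto_nhds_zero]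
    intro ε hε
    have hBfin : volume B ≠ ⊤ := (isCompact_closedBall _ _).measure_ne_top
    -- choose ε'
    obtain ⟨ε', hε'0, hε'⟩ : ∃ ε' : ℝ, 0 < ε' ∧
        ENNReal.ofReal ε' * volume B ^ (1 / (2 : ℝ≥0∞).toReal) ≤ ε := by
      have h1 : Tendsto (fun t : ℝ => ENNReal.ofReal t * volume B ^ (1 / (2 : ℝ≥0∞).toReal))
          (𝓝 0) (𝓝 (ENNReal.ofReal 0 * volume B ^ (1 / (2 : ℝ≥0∞).toReal))) := by
        refine ENNReal.Tendsto.mul_const (ENNReal.tendsto_ofReal tendsto_id) (Or.inr ?_)
        exact (ENNReal.rpow_lt_top_of_nonneg (by positivity) hBfin).ne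
      rw [ENNReal.ofReal_zero, zero_mul] at h1
      have h2 := (ENNReal.tendsto_nhds_zero.1 h1) ε hε
      have h3 : ∀ᶠ t in 𝓝[>] (0 : ℝ),
          ENNReal.ofReal t * volume B ^ (1 / (2 : ℝ≥0∞).toReal) ≤ ε :=
        h2.filter_mono nhdsWithin_le_nhds
      obtain ⟨t, ht1, ht2⟩ := (h3.and self_mem_nhdsWithin).exists
      exact ⟨t, ht2, ht1⟩
    have huc : UniformContinuous φ := hφc.uniformContinuous_of_continuous hφ
    obtain ⟨δ, hδ0, hδ⟩ := Metric.uniformContinuous_iff.1 huc ε' hε'0
    have hlim : Tendsto (fun n : ℕ => 1 / ((n : ℝ) + 1)) atTop (𝓝 0) :=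
      tendsto_one_div_add_atTop_nhds_zero_nat
    filter_upwards [hlim.eventually (gt_mem_nhds hδ0)] with n hn
    have hd : ∀ x, dist (mol (rh N n) φ x) (φ x) ≤ ε' := by
      intro x
      refine ContDiffBump.dist_normed_convolution_le hφ.aestronglyMeasurable ?_
      intro y hy
      exact (hδ (lt_trans hy hn)).le
    have hs1 : Function.support φ ⊆ B := by
      refine (subset_tsupport φ).trans (hR.trans ?_)
      exact Metric.closedBall_subset_closedBall (by linarith)
    have hs2 : Function.support (mol (rh N n) φ) ⊆ B := by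
      intro x hx
      by_contra hxB
      apply hx
      rw [mol_eq]
      refine integral_eq_zero_of_ae (Eventually.of_forall fun t => ?_)
      by_cases h1 : rh N n (x - t) = 0
      · simp [h1]
      · have h2 : x - t ∈ tsupport (rh N n) := subset_tsupport _ h1
        rw [rh_tsupport, mem_closedBall_zero_iff] at h2
        have h3 : φ t = 0 := by
          by_contra h4
          have h5 : t ∈ Metric.closedBall (0 : EE N) R := hR (subset_tsupport _ h4)
          rw [mem_closedBall_zero_iff] at h5
          apply hxB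
          rw [hB, mem_closedBall_zero_iff]
          have h6 : ‖x‖ ≤ ‖x - t‖ + ‖t‖ := by simpa using norm_add_le (x - t) t
          have h7 : 1 / ((n : ℝ) + 1) ≤ 1 := by
            rw [div_le_one (by positivity)]
            linarith [Nat.cast_nonneg (α := ℝ) n]
          linarith
        simp [h3]
    have := eLpNorm_sub_le_of_dist_bdd (volume : Measure (EE N)) (p := 2) (by norm_num)
      (Metric.isClosed_closedBall.measurableSet) hε'0.le hd hs2 hs1
    exact this.trans hε'

end Pool.Agent.H92
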