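import Pool.Agent.H92.Hartogs.Moll

set_option autoImplicit false
set_option linter.unusedSectionVars false

open MeasureTheory Set Filter Topology
open scoped ContDiff ENNReal

namespace Pool.Agent.H92

/-- Cauchy-Schwarz for weighted lower integrals -/
theorem cs_lintegral {α : Type*} [MeasurableSpace α] {μ : Measure α} {w u : α → ℝ≥0∞}
    (hw : AEMeasurable w μ) (hu : AEMeasurable u μ) :
    (∫⁻ x, w x * u x ∂μ) ^ 2 ≤ (∫⁻ x, w x ∂μ) * ∫⁻ x, w x * u x ^ 2 ∂μ := by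
  have hc : Real.HolderConjugate 2 2 := Real.HolderConjugate.two_two
  have h := ENNReal.lintegral_mul_le_Lp_mul_Lq μ hc
    (f := fun x => w x ^ (1 / 2 : ℝ)) (g := fun x => w x ^ (1 / 2 : ℝ) * u x)
    (hw.pow_const _) ((hw.pow_const _).mul hu)
  have e1 : ∀ x, (w x ^ (1 / 2 : ℝ)) * (w x ^ (1 / 2 : ℝ) * u x) = w x * u x := by
    intro x
    rw [← mul_assoc, ← ENNReal.rpow_add_of_nonneg _ _ (by norm_num) (by norm_num)]
    norm_num
  have e2 : ∀ x, (w x ^ (1 / 2 : ℝ)) ^ (2 : ℝ) = w x := by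
    intro x
    rw [← ENNReal.rpow_mul]
    norm_num
  have e3 : ∀ x, (w x ^ (1 / 2 : ℝ) * u x) ^ (2 : ℝ) = w x * u x ^ 2 := by
    intro x
    rw [ENNReal.mul_rpow_of_nonneg _ _ (by norm_num), e2]
    norm_cast
  simp only [Pi.mul_apply, e1, e2, e3] at h
  calc (∫⁻ x, w x * u x ∂μ) ^ 2
      ≤ ((∫⁻ x, w x ∂μ) ^ (1 / 2 : ℝ) * (∫⁻ x, w x * u x ^ 2 ∂μ) ^ (1 / 2 : ℝ)) ^ 2 := by
        gcongr
    _ = (∫⁻ x, w x ∂μ) * ∫⁻ x, w x * u x ^ 2 ∂μ := by
        rw [mul_pow, ← ENNReal.rpow_natCast, ← ENNReal.rpow_natCast, ← ENNReal.rpow_mul,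
          ← ENNReal.rpow_mul]
        norm_num

theorem eL2 {α : Type*} [MeasurableSpace α] {μ : Measure α} {G : Type*} [NormedAddCommGroup G]
    (f : α → G) : eLpNorm f 2 μ ^ 2 = ∫⁻ x, ‖f x‖ₑ ^ 2 ∂μ := by
  have := eLpNorm_nnreal_pow_eq_lintegral (μ := μ) (f := f) (p := 2) (by norm_num)
  simpa using this

section approx

variable {N : ℕ} {G : Type*} [NormedAddCommGroup G] [NormedSpace ℝ G] [CompleteSpace G]

theorem approx_principle {ι : Type*} {l : Filter ι} (T : ι → (EE N → G) → EE N → G) (C : ℝ≥0∞)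
    (hC : C ≠ ⊤)
    (hmeas : ∀ i u, MemLp u 2 (volume : Measure (EE N)) → AEStronglyMeasurable (T i u) volume)
    (hlin : ∀ᶠ i in l, ∀ u v, MemLp u 2 (volume : Measure (EE N)) →
      MemLp v 2 (volume : Measure (EE N)) →
      eLpNorm (fun x => T i u x - T i v x) 2 volume ≤ C * eLpNorm (fun x => u x - v x) 2 volume)
    (hdense : ∀ φ : EE N → G, Continuous φ → HasCompactSupport φ →
      Tendsto (fun i => eLpNorm (fun x => T i φ x - φ x) 2 volume) l (𝓝 0))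
    {u : EE N → G} (hu : MemLp u 2 volume) :
    Tendsto (fun i => eLpNorm (fun x => T i u x - u x) 2 volume) l (𝓝 0) := by
  rw [ENNReal.tendsto_nhds_zero]
  intro ε hε
  have hε2 : 0 < ε / 2 := ENNReal.half_pos hε.ne'
  obtain ⟨δ, hδ0, hδ⟩ : ∃ δ : ℝ≥0∞, δ ≠ 0 ∧ (C + 1) * δ ≤ ε / 2 := by
    refine ⟨ε / 2 / (C + 1), ?_, ?_⟩
    · exact (ENNReal.div_pos hε2.ne' (by simp [hC])).ne'
    · rw [ENNReal.mul_div_cancel (by simp) (by simp [hC])]
  obtain ⟨v, hvc, hv1, hv2, hv3⟩ := hu.exists_hasCompactSupport_eLpNorm_sub_le (by norm_num) hδ0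
  have hd := (ENNReal.tendsto_nhds_zero.1 (hdense v hv2 hvc)) (ε / 2) hε2
  filter_upwards [hlin, hd] with i h1 h2
  have m1 : AEStronglyMeasurable (fun x => T i u x - T i v x) volume :=
    (hmeas i u hu).sub (hmeas i v hv3)
  have m2 : AEStronglyMeasurable (fun x => T i v x - v x) volume :=
    (hmeas i v hv3).sub hv3.1
  have m3 : AEStronglyMeasurable (fun x => v x - u x) volume := hv3.1.sub hu.1
  have e : (fun x => T i u x - u x) =
      (fun x => T i u x - T i v x) + ((fun x => T i v x - v x) + (fun x => v x - u x)) := by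
    ext x
    simp
  have h3 : eLpNorm (fun x => u x - v x) 2 volume ≤ δ := hv1
  have h4 : eLpNorm (fun x => v x - u x) 2 volume ≤ δ := by
    have := eLpNorm_sub_comm u v 2 (volume : Measure (EE N))
    exact this ▸ hv1
  calc eLpNorm (fun x => T i u x - u x) 2 volume
      ≤ eLpNorm (fun x => T i u x - T i v x) 2 volume +
        (eLpNorm (fun x => T i v x - v x) 2 volume + eLpNorm (fun x => v x - u x) 2 volume) := by
        rw [e]
        refine (eLpNorm_add_le m1 (m2.add m3) (by norm_num)).trans ?_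
        gcongr
        exact eLpNorm_add_le m2 m3 (by norm_num)
    _ ≤ C * δ + (ε / 2 + δ) := by
        gcongr
        exact (h1 u v hu hv3).trans (by gcongr)
    _ = (C + 1) * δ + ε / 2 := by ring
    _ ≤ ε / 2 + ε / 2 := by gcongr
    _ = ε := ENNReal.add_halves ε

theorem eL2_mol_le {ρ : EE N → ℝ} (hρ : Continuous ρ) (hi : Integrable ρ) (h0 : ∀ x, 0 ≤ ρ x)
    (h1 : ∫ x, ρ x = 1) {u : EE N → G} (hu : AEStronglyMeasurable u volume) :
    eLpNorm (mol ρ u) 2 volume ≤ eLpNorm u 2 volume := by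
  have hρ1 : ∫⁻ x, ‖ρ x‖ₑ = 1 := by
    rw [← ofReal_integral_norm_eq_lintegral_enorm hi]
    have : ∀ x, ‖ρ x‖ = ρ x := fun x => Real.norm_of_nonneg (h0 x)
    simp only [this, h1, ENNReal.ofReal_one]
  have hmeasρ : ∀ x : EE N, Measurable (fun t => ‖ρ (x - t)‖ₑ) := by
    intro x
    exact (hρ.comp (continuous_const.sub continuous_id)).measurable.enorm
  have key : ∀ x, ‖mol ρ u x‖ₑ ^ 2 ≤ ∫⁻ t, ‖ρ (x - t)‖ₑ * ‖u t‖ₑ ^ 2 := by
    intro x
    have a1 : ‖mol ρ u x‖ₑ ≤ ∫⁻ t, ‖ρ (x - t)‖ₑ * ‖u t‖ₑ := by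
      rw [mol_eq]
      refine (enorm_integral_le_lintegral_enorm _).trans (lintegral_mono fun t => ?_)
      rw [enorm_smul]
    have a2 : ∫⁻ t, ‖ρ (x - t)‖ₑ = 1 := by
      rw [← hρ1]
      exact lintegral_sub_left_eq_self (fun t => ‖ρ t‖ₑ) x
    calc ‖mol ρ u x‖ₑ ^ 2 ≤ (∫⁻ t, ‖ρ (x - t)‖ₑ * ‖u t‖ₑ) ^ 2 := by gcongr
      _ ≤ (∫⁻ t, ‖ρ (x - t)‖ₑ) * ∫⁻ t, ‖ρ (x - t)‖ₑ * ‖u t‖ₑ ^ 2 :=
          cs_lintegral (hmeasρ x).aemeasurable hu.enorm
      _ = ∫⁻ t, ‖ρ (x - t)‖ₑ * ‖u t‖ₑ ^ 2 := by rw [a2, one_mul]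
  have fin : eLpNorm (mol ρ u) 2 volume ^ 2 ≤ eLpNorm u 2 volume ^ 2 := by
    rw [eL2, eL2]
    calc ∫⁻ x, ‖mol ρ u x‖ₑ ^ 2 ≤ ∫⁻ x, ∫⁻ t, ‖ρ (x - t)‖ₑ * ‖u t‖ₑ ^ 2 := lintegral_mono key
      _ = ∫⁻ t, ∫⁻ x, ‖ρ (x - t)‖ₑ * ‖u t‖ₑ ^ 2 := by
          have m1 : AEMeasurable (fun p : EE N × EE N => ‖ρ (p.1 - p.2)‖ₑ)
              ((volume : Measure (EE N)).prod (volume : Measure (EE N))) :=
            ((hρ.comp (continuous_fst.sub continuous_snd)).measurable.enorm).aemeasurable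
          have m2 : AEMeasurable (fun p : EE N × EE N => ‖u p.2‖ₑ ^ 2)
              ((volume : Measure (EE N)).prod (volume : Measure (EE N))) :=
            (hu.comp_snd.enorm).pow_const _
          exact lintegral_lintegral_swap (m1.mul m2)
      _ = ∫⁻ t, ‖u t‖ₑ ^ 2 := by
          refine lintegral_congr fun t => ?_
          rw [lintegral_mul_const]
          · have : ∫⁻ x, ‖ρ (x - t)‖ₑ = 1 := by
              rw [← hρ1]
              exact lintegral_sub_right_eq_self (fun x => ‖ρ x‖ₑ) t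
            rw [this, one_mul]
          · exact (hρ.comp (continuous_id.sub continuous_const)).measurable.enorm
  exact (ENNReal.pow_le_pow_left_iff two_ne_zero).1 fin

end approx

end Pool.Agent.H92
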