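import Mathlib

set_option autoImplicit false

open MeasureTheory ContinuousAlternatingMap Set Filter Topology
open scoped ContDiff ENNReal

namespace Pool.Agent.H92

abbrev EE (N : ℕ) := EuclideanSpace ℝ (Fin N)

abbrev VV (N q : ℕ) (F : Type*) [NormedAddCommGroup F] [NormedSpace ℝ F] :=
  EE N [⋀^Fin q]→L[ℝ] F

variable {N q : ℕ} {F : Type*} [NormedAddCommGroup F] [NormedSpace ℝ F]

/-- exterior product of a covector and a form, as a continuous bilinear map -/
noncomputable def wdgL (N q : ℕ) (F : Type*) [NormedAddCommGroup F] [NormedSpace ℝ F] : (EE N →L[ℝ] ℝ) →L[ℝ] VV N q F →L[ℝ] VV N (q + 1) F :=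
  (ContinuousLinearMap.compL ℝ (VV N q F) (EE N →L[ℝ] VV N q F) (VV N (q + 1) F)
    (alternatizeUncurryFinCLM ℝ (EE N) F)) ∘L (ContinuousLinearMap.smulRightL ℝ (EE N) (VV N q F))

theorem wdgL_eq (ℓ : EE N →L[ℝ] ℝ) (f : VV N q F) :
    wdgL N q F ℓ f = alternatizeUncurryFin (ℓ.smulRight f) := by
  simp [wdgL]

theorem wdgL_apply (ℓ : EE N →L[ℝ] ℝ) (f : VV N q F) (v : Fin (q + 1) → EE N) :
    wdgL N q F ℓ f v = ∑ i : Fin (q + 1), (-1 : ℤ) ^ (i : ℕ) • (ℓ (v i) • f (i.removeNth v)) := by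
  simp [wdgL_eq, alternatizeUncurryFin_apply]

/-- coordinate covector -/
noncomputable def ec (l : Fin N) : EE N →L[ℝ] ℝ := EuclideanSpace.proj l

/-- coordinate vector -/
noncomputable def ev (l : Fin N) : EE N := EuclideanSpace.single l (1 : ℝ)

@[simp] theorem ec_apply (l : Fin N) (x : EE N) : ec l x = x l := rfl

theorem ec_ev (k l : Fin N) : ec k (ev l) = if k = l then (1 : ℝ) else 0 := by
  simp [ev]

theorem sum_ev (x : EE N) : ∑ l, x l • ev l = x := by
  ext i
  simp [ev, Pi.single_apply]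

theorem sum_ec (ℓ : EE N →L[ℝ] ℝ) : ∑ l, ℓ (ev l) • ec l = ℓ := by
  ext x
  conv_rhs => rw [← sum_ev x]
  simp [mul_comm]

/-- contraction with a vector -/
noncomputable def ctr (N q : ℕ) (F : Type*) [NormedAddCommGroup F] [NormedSpace ℝ F] (x : EE N) : VV N (q + 1) F →L[ℝ] VV N q F :=
  ContinuousLinearMap.flip
    (curryLeftLI (𝕜 := ℝ) (E := EE N) (F := F) (n := q)).toContinuousLinearMap x

theorem ctr_apply (x : EE N) (f : VV N (q + 1) F) : ctr N q F x f = f.curryLeft x := rfl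

theorem ctr_apply_apply (x : EE N) (f : VV N (q + 1) F) (v : Fin q → EE N) :
    ctr N q F x f v = f (Matrix.vecCons x v) := rfl

theorem ctr_sum (x : EE N) (f : VV N (q + 1) F) : ctr N q F x f = ∑ l, x l • ctr N q F (ev l) f := by
  conv_lhs => rw [← sum_ev x]
  simp [ctr_apply]

theorem wdgL_sum (ℓ : EE N →L[ℝ] ℝ) (f : VV N q F) :
    wdgL N q F ℓ f = ∑ l, ℓ (ev l) • wdgL N q F (ec l) f := by
  conv_lhs => rw [← sum_ec ℓ]
  simp

/-- Leibniz rule for contraction -/
theorem ctr_wdgL (x : EE N) (ℓ : EE N →L[ℝ] ℝ) (f : VV N (q + 1) F) :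
    ctr N (q + 1) F x (wdgL N (q + 1) F ℓ f) = ℓ x • f - wdgL N q F ℓ (ctr N q F x f) := by
  ext v
  rw [ctr_apply_apply, wdgL_apply, Fin.sum_univ_succ]
  simp only [ContinuousAlternatingMap.sub_apply, ContinuousAlternatingMap.smul_apply]
  rw [wdgL_apply]
  simp only [Fin.val_zero, pow_zero, one_smul, Matrix.cons_val_zero, Fin.val_succ,
    Matrix.cons_val_succ]
  have h0 : (0 : Fin (q + 2)).removeNth (Matrix.vecCons x v) = v := by
    ext i
    simp [Fin.removeNth]
  rw [h0, sub_eq_add_neg, ← Finset.sum_neg_distrib]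
  congr 1
  refine Finset.sum_congr rfl fun i _ => ?_
  have h1 : (i.succ).removeNth (Matrix.vecCons x v) = Matrix.vecCons x (i.removeNth v) := by
    ext j
    refine Fin.cases ?_ (fun j => ?_) j
    · simp [Fin.removeNth]
    · simp [Fin.removeNth]
  rw [h1, ctr_apply_apply, pow_succ]
  simp

theorem ctr_wdgL_zero (x : EE N) (ℓ : EE N →L[ℝ] ℝ) (f : VV N 0 F) :
    ctr N 0 F x (wdgL N 0 F ℓ f) = ℓ x • f := by
  ext v
  rw [ctr_apply_apply, wdgL_apply, Fin.sum_univ_succ]
  simp only [Fin.val_zero, pow_zero, one_smul, Matrix.cons_val_zero,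
    Finset.univ_eq_empty, Finset.sum_empty, add_zero, ContinuousAlternatingMap.smul_apply]
  rfl

theorem wdgL_anticomm (k l : EE N →L[ℝ] ℝ) (f : VV N q F) :
    wdgL N (q + 1) F k (wdgL N q F l f) = - wdgL N (q + 1) F l (wdgL N q F k f) := by
  have key : ∀ m : EE N →L[ℝ] ℝ, wdgL N (q + 1) F m (wdgL N q F m f) = 0 := by
    intro m
    have := alternatizeUncurryFin_alternatizeUncurryFinCLM_comp_of_symmetric (𝕜 := ℝ) (E := EE N)
      (F := F) (n := q) (f := m.smulRight (m.smulRight f)) (by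
        intro x y
        simp [smul_smul, mul_comm])
    rw [wdgL_eq, ← this]
    congr 1
    ext x v
    simp [wdgL_eq, alternatizeUncurryFin_apply, Finset.smul_sum]
  have h := key (k + l)
  simp only [map_add, _root_.add_apply, key, zero_add, add_zero] at h
  exact eq_neg_of_add_eq_zero_left (by simpa [add_comm] using h)

theorem sum_wdgL_ctr (f : VV N (q + 1) F) :
    ∑ l, wdgL N q F (ec l) (ctr N q F (ev l) f) = ((q : ℝ) + 1) • f := by
  have h := alternatizeUncurryFin_curryLeft (𝕜 := ℝ) (E := EE N) (F := F) (n := q) f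
  have h2 : f.curryLeft = ∑ l, (ec l).smulRight (ctr N q F (ev l) f) := by
    ext x v
    simp only [_root_.sum_apply, ContinuousLinearMap.smulRight_apply, ec_apply]
    rw [← ctr_sum, ctr_apply]
  rw [h2] at h
  have h3 : alternatizeUncurryFin (∑ l, (ec l).smulRight (ctr N q F (ev l) f)) =
      ∑ l, wdgL N q F (ec l) (ctr N q F (ev l) f) := by
    rw [← alternatizeUncurryFinCLM_apply, _root_.map_sum]
    simp [wdgL_eq]
  rw [← h3, h]
  have : ((q : ℝ) + 1) = ((q + 1 : ℕ) : ℝ) := by push_cast; rfl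
  rw [this, Nat.cast_smul_eq_nsmul]

theorem sum_ctr_wdgL (f : VV N (q + 1) F) :
    ∑ l, ctr N (q + 1) F (ev l) (wdgL N (q + 1) F (ec l) f) = ((N : ℝ) - ((q : ℝ) + 1)) • f := by
  simp only [ctr_wdgL, Finset.sum_sub_distrib, sum_wdgL_ctr, ec_ev, if_true, one_smul,
    Finset.sum_const, Finset.card_univ, Fintype.card_fin]
  rw [sub_smul (N : ℝ) ((q : ℝ) + 1) f, Nat.cast_smul_eq_nsmul]

end Pool.Agent.H92
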