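import Pool.Agent.H92.Hartogs.StepB4

set_option autoImplicit false
set_option linter.unusedSectionVars false

open MeasureTheory Set Filter Topology
open scoped ContDiff ENNReal

namespace Pool.Agent.H92

variable {N q : ℕ} {F : Type*} [NormedAddCommGroup F] [NormedSpace ℝ F] [CompleteSpace F]

/-- weak exterior derivative, evaluated on vectors -/
def WE (U : Set (EE N)) (f : EE N → VV N q F) (g : EE N → VV N (q + 1) F) : Prop :=
  ∀ η : EE N → ℝ, Tst U η → ∀ v : Fin (q + 1) → EE N,
    ∫ x, η x • g x v = - ∑ i : Fin (q + 1), (-1 : ℤ) ^ (i : ℕ) •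
      ∫ x, fderiv ℝ η x (v i) • f x (i.removeNth v)

theorem II_eval {c : EE N → ℝ} {f : EE N → VV N q F} (h : Integrable (fun x => c x • f x))
    (v : Fin q → EE N) : II c f v = ∫ x, c x • f x v := by
  have := (ContinuousAlternatingMap.apply ℝ (EE N) F v).integral_comp_comm h
  exact this.symm

theorem int_eval {f : EE N → VV N q F} {c : EE N → ℝ} (h : Integrable (fun x => c x • f x))
    (v : Fin q → EE N) : Integrable (fun x => c x • f x v) := by
  have := (ContinuousAlternatingMap.apply ℝ (EE N) F v).integrable_comp h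
  exact this

theorem eval_form {U : Set (EE N)} {f : EE N → VV N q F} (hf : LocallyIntegrable f)
    {η : EE N → ℝ} (hη : Tst U η) (v : Fin (q + 1) → EE N) :
    (- ∑ l, wdgL N q F (ec l) (II (pd l η) f)) v =
      - ∑ i : Fin (q + 1), (-1 : ℤ) ^ (i : ℕ) •
      ∫ x, fderiv ℝ η x (v i) • f x (i.removeNth v) := by
  have e1 : (∑ l, wdgL N q F (ec l) (II (pd l η) f)) v =
      ∑ l, wdgL N q F (ec l) (II (pd l η) f) v := by
    have := map_sum (ContinuousAlternatingMap.apply ℝ (EE N) F v)
      (fun l => wdgL N q F (ec l) (II (pd l η) f)) Finset.univ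
    exact this
  rw [ContinuousAlternatingMap.neg_apply, e1]
  congr 1
  simp only [wdgL_apply]
  rw [Finset.sum_comm]
  refine Finset.sum_congr rfl fun i _ => ?_
  rw [← Finset.smul_sum]
  congr 1
  have hi : ∀ l, Integrable (fun x => pd l η x • f x) := fun l => (hη.pd l).integrable hf
  have e2 : ∀ x, fderiv ℝ η x (v i) • f x (i.removeNth v) =
      ∑ l, (v i) l • (pd l η x • f x (i.removeNth v)) := by
    intro x
    have e3 : fderiv ℝ η x (v i) = ∑ l, (v i) l • pd l η x := by
      conv_lhs => rw [← sum_ev (v i)]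
      rw [map_sum]
      refine Finset.sum_congr rfl fun l _ => ?_
      rw [map_smul]
      rfl
    rw [e3, Finset.sum_smul]
    refine Finset.sum_congr rfl fun l _ => ?_
    rw [smul_assoc]
  simp only [e2]
  rw [integral_sum' (fun l => int_smul _ (int_eval (hi l) _))]
  refine Finset.sum_congr rfl fun l _ => ?_
  rw [integral_smul, II_eval (hi l)]
  rfl

theorem WD_iff {U : Set (EE N)} {f : EE N → VV N q F} {g : EE N → VV N (q + 1) F}
    (hf : LocallyIntegrable f) (hg : LocallyIntegrable g) : WD U f g ↔ WE U f g := by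
  constructor
  · intro h η hη v
    rw [← eval_form hf hη, ← h η hη, II_eval (hη.integrable hg)]
  · intro h η hη
    ext v
    rw [eval_form hf hη, ← h η hη, II_eval (hη.integrable hg)]

/-- the exterior derivative of a smooth form is its weak exterior derivative -/
theorem WD_smooth {φ : EE N → VV N q F} (hφ : ContDiff ℝ ∞ φ) (U : Set (EE N)) :
    WD U φ (extDeriv φ) := by
  intro η hη
  have hc : ∀ v, Continuous (fun x => fderiv ℝ φ x v) := fun v =>
    (hφ.continuous_fderiv (by simp)).clm_apply continuous_const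
  have i1 : ∀ l : Fin N, Integrable (fun x => η x • fderiv ℝ φ x (ev l)) := fun l =>
    hη.integrable ((hc _).locallyIntegrable)
  have e0 : ∀ x, η x • extDeriv φ x = ∑ l, wdgL N q F (ec l) (η x • fderiv ℝ φ x (ev l)) := by
    intro x
    unfold extDeriv
    rw [alt_eq_sum, Finset.smul_sum]
    refine Finset.sum_congr rfl fun l _ => ?_
    rw [map_smul]
  have e1 : II η (extDeriv φ) =
      ∑ l, wdgL N q F (ec l) (∫ x, η x • fderiv ℝ φ x (ev l)) := by
    unfold II
    simp only [e0]
    rw [integral_sum' (fun l => int_clm _ (i1 l))]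
    refine Finset.sum_congr rfl fun l _ => ?_
    rw [ContinuousLinearMap.integral_comp_comm _ (i1 l)]
  rw [e1, ← Finset.sum_neg_distrib]
  refine Finset.sum_congr rfl fun l _ => ?_
  rw [← map_neg]
  congr 1
  refine integral_smul_fderiv_eq_neg_fderiv_smul_of_integrable ?_ (i1 l) ?_ ?_ ?_
  · exact (hη.pd l).integrable hφ.continuous.locallyIntegrable
  · exact hη.integrable hφ.continuous.locallyIntegrable
  · intro x _
    exact hη.smooth.differentiable (by simp) x
  · intro x _
    exact hφ.differentiable (by simp) x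

theorem lim_pair {G H : Type*} [NormedAddCommGroup G] [NormedSpace ℝ G]
    [NormedAddCommGroup H] [NormedSpace ℝ H] {μ : Measure (EE N)} [IsFiniteMeasure μ]
    {c : EE N → ℝ} (hc : Continuous c) {B : ℝ} (hB : ∀ x, ‖c x‖ ≤ B) (L : G →L[ℝ] H)
    {u : ℕ → EE N → G} {w : EE N → G} (hu : ∀ n, AEStronglyMeasurable (u n) μ)
    (hw : MemLp w 2 μ)
    (hlim : Tendsto (fun n => eLpNorm (fun x => u n x - w x) 2 μ) atTop (𝓝 0)) :
    Tendsto (fun n => ∫ x, c x • L (u n x) ∂μ) atTop (𝓝 (∫ x, c x • L (w x) ∂μ)) := by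
  have hint : ∀ {z : EE N → G}, MemLp z 2 μ → Integrable (fun x => c x • L (z x)) μ := by
    intro z hz
    have h1 : Integrable z μ := hz.integrable (by norm_num)
    have h2 : Integrable (fun x => L (z x)) μ := L.integrable_comp h1
    exact h2.bdd_smul B hc.aestronglyMeasurable (Eventually.of_forall hB)
  refine tendsto_integral_of_L1 _ (hint hw).1 ?_ ?_
  · have h1 := (ENNReal.tendsto_nhds_zero.1 hlim) 1 one_pos
    filter_upwards [h1] with n hn
    exact hint (memLp_of_sub hw (hu n) ENNReal.one_ne_top hn)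
  · have h2 : Tendsto (fun n => ENNReal.ofReal (B * ‖L‖) *
        (eLpNorm (fun x => u n x - w x) 2 μ * μ univ ^ (1 / (1 : ℝ≥0∞).toReal -
          1 / (2 : ℝ≥0∞).toReal))) atTop (𝓝 0) := by
      have h3 : μ univ ^ (1 / (1 : ℝ≥0∞).toReal - 1 / (2 : ℝ≥0∞).toReal) ≠ ⊤ := by
        refine ENNReal.rpow_ne_top_of_nonneg ?_ (measure_ne_top μ _)
        norm_num
      have h4 := ENNReal.Tendsto.mul_const hlim (Or.inr h3)
      rw [zero_mul] at h4
      have h5 := ENNReal.Tendsto.const_mul (a := ENNReal.ofReal (B * ‖L‖)) h4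
        (Or.inr ENNReal.ofReal_ne_top)
      rwa [mul_zero] at h5
    refine tendsto_of_tendsto_of_tendsto_of_le_of_le tendsto_const_nhds h2
      (fun _ => zero_le) (fun n => ?_)
    have hm : AEStronglyMeasurable (fun x => u n x - w x) μ := (hu n).sub hw.1
    refine le_trans ?_ (mul_le_mul' le_rfl
      (eLpNorm_le_eLpNorm_mul_rpow_measure_univ (p := 1) (q := 2) (by norm_num) hm))
    rw [eLpNorm_one_eq_lintegral_enorm, ← lintegral_const_mul' _ _ ENNReal.ofReal_ne_top]
    refine lintegral_mono fun x => ?_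
    have e1 : c x • L (u n x) - c x • L (w x) = c x • L (u n x - w x) := by
      rw [map_sub, smul_sub]
    rw [e1, ← ofReal_norm, ← ofReal_norm, ← ENNReal.ofReal_mul' (norm_nonneg _)]
    refine ENNReal.ofReal_le_ofReal ?_
    rw [norm_smul, mul_assoc]
    exact mul_le_mul (hB x) (L.le_opNorm _) (norm_nonneg _) ((norm_nonneg _).trans (hB x))

end Pool.Agent.H92
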