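import Pool.Agent.H92.Hartogs.StepA

set_option autoImplicit false
set_option linter.unusedSectionVars false

open MeasureTheory Set Filter Topology
open scoped ContDiff ENNReal

namespace Pool.Agent.H92

variable {q : ℕ} {F : Type*} [NormedAddCommGroup F] [NormedSpace ℝ F] [CompleteSpace F]

theorem sq_add_le' (a b : ℝ≥0∞) : (a + b) ^ 2 ≤ 4 * a ^ 2 + 4 * b ^ 2 := by
  rcases le_total a b with h | h
  · calc (a + b) ^ 2 ≤ (b + b) ^ 2 := pow_le_pow_left' (add_le_add h le_rfl) 2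
      _ = 4 * b ^ 2 := by ring
      _ ≤ 4 * a ^ 2 + 4 * b ^ 2 := le_add_self
  · calc (a + b) ^ 2 ≤ (a + a) ^ 2 := pow_le_pow_left' (add_le_add le_rfl h) 2
      _ = 4 * a ^ 2 := by ring
      _ ≤ 4 * a ^ 2 + 4 * b ^ 2 := le_self_add

theorem err_le {G : Type*} [NormedAddCommGroup G] [NormedSpace ℝ G] {u E : EE 4 → G} (n : ℕ)
    {η : ℝ≥0∞} (hu : StronglyMeasurable u) (hE : ∫⁻ x in TT, ‖E x‖ₑ ^ 2 ≤ η) :
    eLpNorm (fun x => (chi ((n : ℝ) + 1) x • u x + E x) - u x) 2 (volume.restrict TT) ^ 2 ≤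
      4 * tail u n + 4 * η := by
  rw [eL2]
  set B := Metric.closedBall (0 : EE 4) (Real.exp (-((n : ℝ) + 1))) with hB
  have hBm : MeasurableSet B := measurableSet_closedBall
  have h1 : ∀ x, ‖(chi ((n : ℝ) + 1) x • u x + E x) - u x‖ₑ ^ 2 ≤
      4 * B.indicator (fun x => ‖u x‖ₑ ^ 2) x + 4 * ‖E x‖ₑ ^ 2 := by
    intro x
    have h2 : (chi ((n : ℝ) + 1) x • u x + E x) - u x =
        (chi ((n : ℝ) + 1) x - 1) • u x + E x := by
      rw [sub_smul, one_smul]
      abel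
    rw [h2]
    refine (pow_le_pow_left' (enorm_add_le _ _) 2).trans ((sq_add_le' _ _).trans ?_)
    refine add_le_add (mul_le_mul' le_rfl ?_) le_rfl
    by_cases hx : x ∈ B
    · rw [indicator_of_mem hx]
      refine pow_le_pow_left' ?_ 2
      rw [← ofReal_norm, ← ofReal_norm]
      refine ENNReal.ofReal_le_ofReal ?_
      rw [norm_smul]
      refine mul_le_of_le_one_left (norm_nonneg _) ?_
      rw [Real.norm_eq_abs, abs_le]
      constructor <;> linarith [chi_nonneg ((n : ℝ) + 1) x, chi_le_one ((n : ℝ) + 1) x]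
    · rw [indicator_of_notMem hx]
      have h3 : chi ((n : ℝ) + 1) x = 1 := by
        refine chi_one (by linarith [Nat.cast_nonneg (α := ℝ) n]) ?_
        rw [hB, mem_closedBall_zero_iff, not_le] at hx
        exact hx.le
      rw [h3, sub_self, zero_smul, enorm0]
      simp
  calc ∫⁻ x in TT, ‖(chi ((n : ℝ) + 1) x • u x + E x) - u x‖ₑ ^ 2
      ≤ ∫⁻ x in TT, (4 * B.indicator (fun x => ‖u x‖ₑ ^ 2) x + 4 * ‖E x‖ₑ ^ 2) :=
        lintegral_mono h1
    _ = 4 * (∫⁻ x in TT, B.indicator (fun x => ‖u x‖ₑ ^ 2) x) +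
          4 * ∫⁻ x in TT, ‖E x‖ₑ ^ 2 := by
        have hm : Measurable (B.indicator (fun x => ‖u x‖ₑ ^ 2)) :=
          (hu.enorm.pow_const 2).indicator hBm
        rw [lintegral_add_left (hm.const_mul 4), lintegral_const_mul _ hm,
          lintegral_const_mul' _ _ (by simp)]
    _ ≤ 4 * tail u n + 4 * η := by
        refine add_le_add (mul_le_mul' le_rfl ?_) (mul_le_mul' le_rfl hE)
        refine (setLIntegral_le_lintegral _ _).trans ?_
        rw [lintegral_indicator hBm]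
        rfl

theorem memLp_chi {G : Type*} [NormedAddCommGroup G] [NormedSpace ℝ G] {u : EE 4 → G} (L : ℝ)
    {μ : Measure (EE 4)} (hu : MemLp u 2 μ) : MemLp (fun x => chi L x • u x) 2 μ := by
  refine hu.mono ((chi_smooth L).continuous.aestronglyMeasurable.smul hu.1) ?_
  refine Eventually.of_forall fun x => ?_
  rw [norm_smul]
  refine mul_le_of_le_one_left (norm_nonneg _) ?_
  rw [Real.norm_eq_abs, abs_of_nonneg (chi_nonneg L x)]
  exact chi_le_one L x

theorem memLp_ind {G : Type*} [NormedAddCommGroup G] {E : EE 4 → G}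
    (hm : StronglyMeasurable E) {η : ℝ≥0∞} (hη : η ≠ ⊤) (hE : ∫⁻ x in TT, ‖E x‖ₑ ^ 2 ≤ η) :
    MemLp (TT.indicator E) 2 volume := by
  rw [memLp_indicator_iff_restrict measurableSet_TT]
  refine ⟨hm.aestronglyMeasurable, ?_⟩
  rw [← eL2] at hE
  by_contra h
  rw [not_lt, top_le_iff] at h
  rw [h] at hE
  simp at hE
  exact hη hE

theorem Apx.of_corr {g : EE 4 → VV 4 q F} {h : EE 4 → VV 4 (q + 1) F}
    (hgm : StronglyMeasurable g) (hhm : StronglyMeasurable h)
    (hg : MemLp g 2 volume) (hh : MemLp h 2 volume)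
    (H : ∀ ε : ℝ, 0 < ε → ∀ᶠ n : ℕ in atTop, ∃ (E : EE 4 → VV 4 q F)
      (E' : EE 4 → VV 4 (q + 1) F), StronglyMeasurable E ∧ StronglyMeasurable E' ∧
      WD TT (fun x => chi ((n : ℝ) + 1) x • g x + E x)
        (fun x => chi ((n : ℝ) + 1) x • h x + E' x) ∧
      (∀ x ∈ TT, ‖x‖ < Real.exp (-(2 * ((n : ℝ) + 1) + 1)) → E x = 0) ∧
      (∀ x ∈ TT, ‖x‖ < Real.exp (-(2 * ((n : ℝ) + 1) + 1)) → E' x = 0) ∧
      ∫⁻ x in TT, ‖E x‖ₑ ^ 2 ≤ ENNReal.ofReal ε ∧ ∫⁻ x in TT, ‖E' x‖ₑ ^ 2 ≤ ENNReal.ofReal ε) :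
    Apx g h := by
  refine Apx.limit hg.1.restrict hh.1.restrict fun ε hε => ?_
  obtain ⟨e, he0, heε⟩ := ENNReal.lt_iff_exists_nnreal_btwn.1 hε
  have he : 0 < (e : ℝ) := by exact_mod_cast he0
  have hδ : 0 < ENNReal.ofReal ((e : ℝ) ^ 2 / 8) := ENNReal.ofReal_pos.2 (by positivity)
  have t1 := (ENNReal.tendsto_nhds_zero.1 (tail_tendsto hg)) _ hδ
  have t2 := (ENNReal.tendsto_nhds_zero.1 (tail_tendsto hh)) _ hδ
  obtain ⟨n, ⟨E, E', hEm, hEm', hW, hv, hv', hE, hE'⟩, hn1, hn2⟩ :=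
    ((H ((e : ℝ) ^ 2 / 8) (by positivity)).and (t1.and t2)).exists
  have hn0 : (1 : ℝ) ≤ (n : ℝ) + 1 := by linarith [Nat.cast_nonneg (α := ℝ) n]
  have hfin : ∀ {G : Type _} [NormedAddCommGroup G] [NormedSpace ℝ G] {u D : EE 4 → G},
      StronglyMeasurable u → tail u n ≤ ENNReal.ofReal ((e : ℝ) ^ 2 / 8) →
      ∫⁻ x in TT, ‖D x‖ₑ ^ 2 ≤ ENNReal.ofReal ((e : ℝ) ^ 2 / 8) →
      eLpNorm (fun x => TT.indicator (fun x => chi ((n : ℝ) + 1) x • u x + D x) x - u x) 2
        (volume.restrict TT) ≤ ε := by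
    intro G _ _ u D hu h1 h2
    have e1 : eLpNorm (fun x => TT.indicator (fun x => chi ((n : ℝ) + 1) x • u x + D x) x - u x) 2
        (volume.restrict TT) =
        eLpNorm (fun x => (chi ((n : ℝ) + 1) x • u x + D x) - u x) 2 (volume.restrict TT) := by
      refine eLpNorm_congr_ae ?_
      filter_upwards [ae_restrict_mem measurableSet_TT] with x hx
      rw [indicator_of_mem hx]
    rw [e1]
    refine le_trans ?_ heε.le
    rw [← ENNReal.pow_le_pow_left_iff two_ne_zero]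
    refine (err_le n hu h2).trans ?_
    refine (add_le_add (mul_le_mul' le_rfl h1) le_rfl).trans ?_
    have e2 : (4 : ℝ≥0∞) = ENNReal.ofReal 4 := by simp
    rw [e2, ← ENNReal.ofReal_mul (by norm_num), ← ENNReal.ofReal_add (by positivity)
      (by positivity)]
    have e3 : 4 * ((e : ℝ) ^ 2 / 8) + 4 * ((e : ℝ) ^ 2 / 8) = (e : ℝ) ^ 2 := by ring
    rw [e3, ENNReal.ofReal_pow he.le, ENNReal.ofReal_coe_nnreal]
  refine ⟨TT.indicator (fun x => chi ((n : ℝ) + 1) x • g x + E x),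
    TT.indicator (fun x => chi ((n : ℝ) + 1) x • h x + E' x), ?_, ?_, ?_, hfin hgm hn1 hE,
    hfin hhm hn2 hE'⟩
  · exact ((((chi_smooth _).continuous.stronglyMeasurable.smul hgm).add hEm).indicator
      measurableSet_TT).aestronglyMeasurable
  · exact ((((chi_smooth _).continuous.stronglyMeasurable.smul hhm).add hEm').indicator
      measurableSet_TT).aestronglyMeasurable
  · have hmem : ∀ {G : Type _} [NormedAddCommGroup G] [NormedSpace ℝ G] {u D : EE 4 → G},
        MemLp u 2 volume → StronglyMeasurable D →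
        ∫⁻ x in TT, ‖D x‖ₑ ^ 2 ≤ ENNReal.ofReal ((e : ℝ) ^ 2 / 8) →
        MemLp (TT.indicator (fun x => chi ((n : ℝ) + 1) x • u x + D x)) 2 volume := by
      intro G _ _ u D hu hD h1
      have e1 : TT.indicator (fun x => chi ((n : ℝ) + 1) x • u x + D x) =
          TT.indicator (fun x => chi ((n : ℝ) + 1) x • u x) + TT.indicator D := by
        rw [← indicator_add']
        rfl
      rw [e1]
      exact ((memLp_chi _ hu).indicator measurableSet_TT).add
        (memLp_ind hD ENNReal.ofReal_ne_top h1)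
    refine Apx.of_vanish (hmem hg hEm hE) (hmem hh hEm' hE')
      (hW.congr ?_ ?_) (ρ := Real.exp (-(2 * ((n : ℝ) + 1) + 1))) (Real.exp_pos _) ?_ ?_
    · refine Eventually.of_forall fun x hx => ?_
      rw [indicator_of_mem hx]
    · refine Eventually.of_forall fun x hx => ?_
      rw [indicator_of_mem hx]
    · intro x hx
      rw [mem_ball_zero_iff] at hx
      by_cases hT : x ∈ TT
      · rw [indicator_of_mem hT, hv x hT hx, chi_zero hn0 hx.le, zero_smul, add_zero]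
      · rw [indicator_of_notMem hT]
    · intro x hx
      rw [mem_ball_zero_iff] at hx
      by_cases hT : x ∈ TT
      · rw [indicator_of_mem hT, hv' x hT hx, chi_zero hn0 hx.le, zero_smul, add_zero]
      · rw [indicator_of_notMem hT]

end Pool.Agent.H92
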