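import Pool.Agent.H92.Hartogs.Schur

set_option autoImplicit false
set_option linter.unusedSectionVars false

open MeasureTheory Set Filter Topology
open scoped ContDiff ENNReal

namespace Pool.Agent.H92

theorem exists_deriv_bound : ∃ C : ℝ, 0 ≤ C ∧ ∀ t, |deriv Real.smoothTransition t| ≤ C := by
  have hc : Continuous (deriv Real.smoothTransition) :=
    (Real.smoothTransition.contDiff (n := 1)).continuous_deriv le_rfl
  have hs : HasCompactSupport (deriv Real.smoothTransition) := by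
    refine HasCompactSupport.intro (isCompact_Icc (a := (0 : ℝ)) (b := 1)) ?_
    intro t ht
    rw [mem_Icc, not_and_or, not_le, not_le] at ht
    rcases ht with ht | ht
    · have : Real.smoothTransition =ᶠ[𝓝 t] fun _ => 0 := by
        filter_upwards [gt_mem_nhds ht] with s hs
        exact Real.smoothTransition.zero_of_nonpos hs.le
      rw [this.deriv_eq]
      simp
    · have : Real.smoothTransition =ᶠ[𝓝 t] fun _ => 1 := by
        filter_upwards [lt_mem_nhds ht] with s hs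
        exact Real.smoothTransition.one_of_one_le hs.le
      rw [this.deriv_eq]
      simp
  obtain ⟨C, hC⟩ := hc.bounded_above_of_compact_support hs
  exact ⟨C, (norm_nonneg _).trans (hC 0), hC⟩

/-- logarithmic cut-off -/
noncomputable def chi (L : ℝ) (x : EE 4) : ℝ :=
  Real.smoothTransition (2 + Real.log (‖x‖ ^ 2 + Real.exp (-6 * L)) / (2 * L))

theorem chi_smooth (L : ℝ) : ContDiff ℝ ∞ (chi L) := by
  unfold chi
  refine Real.smoothTransition.contDiff.comp ?_
  refine contDiff_const.add (ContDiff.div_const ?_ _)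
  refine ContDiff.log ?_ ?_
  · exact (contDiff_norm_sq ℝ).add contDiff_const
  · intro x
    positivity

theorem chi_nonneg (L : ℝ) (x : EE 4) : 0 ≤ chi L x := Real.smoothTransition.nonneg _

theorem chi_le_one (L : ℝ) (x : EE 4) : chi L x ≤ 1 := Real.smoothTransition.le_one _

theorem chi_one {L : ℝ} (hL : 1 ≤ L) {x : EE 4} (hx : Real.exp (-L) ≤ ‖x‖) : chi L x = 1 := by
  unfold chi
  refine Real.smoothTransition.one_of_one_le ?_
  have h1 : Real.exp (-(2 * L)) ≤ ‖x‖ ^ 2 + Real.exp (-6 * L) := by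
    have h2 : Real.exp (-(2 * L)) = Real.exp (-L) ^ 2 := by
      rw [← Real.exp_nat_mul]
      congr 1
      push_cast
      ring
    rw [h2]
    have h3 : Real.exp (-L) ^ 2 ≤ ‖x‖ ^ 2 := pow_le_pow_left₀ (Real.exp_pos _).le hx 2
    have h4 := Real.exp_pos (-6 * L)
    linarith
  have h5 : -(2 * L) ≤ Real.log (‖x‖ ^ 2 + Real.exp (-6 * L)) := by
    rw [Real.le_log_iff_exp_le (by positivity)]
    exact h1
  have h6 : -1 ≤ Real.log (‖x‖ ^ 2 + Real.exp (-6 * L)) / (2 * L) := by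
    rw [le_div_iff₀ (by linarith)]
    linarith
  linarith

theorem chi_zero {L : ℝ} (hL : 1 ≤ L) {x : EE 4} (hx : ‖x‖ ≤ Real.exp (-(2 * L + 1))) :
    chi L x = 0 := by
  unfold chi
  refine Real.smoothTransition.zero_of_nonpos ?_
  have h1 : ‖x‖ ^ 2 + Real.exp (-6 * L) ≤ Real.exp (-(4 * L)) := by
    have h3 : ‖x‖ ^ 2 ≤ Real.exp (-(4 * L)) * Real.exp (-2) := by
      rw [← Real.exp_add]
      have : Real.exp (-(4 * L) + -2) = Real.exp (-(2 * L + 1)) ^ 2 := by
        rw [← Real.exp_nat_mul]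
        congr 1
        push_cast
        ring
      rw [this]
      exact pow_le_pow_left₀ (norm_nonneg _) hx 2
    have h4 : Real.exp (-6 * L) ≤ Real.exp (-(4 * L)) * Real.exp (-2) := by
      rw [← Real.exp_add]
      exact Real.exp_le_exp.2 (by linarith)
    have h5 : Real.exp (-2) ≤ 1 / 2 := by
      have h7 : (2 : ℝ) ≤ Real.exp 2 := by
        have := Real.add_one_le_exp (2 : ℝ)
        linarith
      rw [Real.exp_neg, one_div]
      exact inv_anti₀ (by norm_num) h7
    have h6 := Real.exp_pos (-(4 * L))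
    nlinarith
  have h5 : Real.log (‖x‖ ^ 2 + Real.exp (-6 * L)) ≤ -(4 * L) := by
    rw [Real.log_le_iff_le_exp (by positivity)]
    exact h1
  have h6 : Real.log (‖x‖ ^ 2 + Real.exp (-6 * L)) / (2 * L) ≤ -2 := by
    rw [div_le_iff₀ (by linarith)]
    linarith
  linarith

theorem fderiv_chi_zero_of_gt {L : ℝ} (hL : 1 ≤ L) {x : EE 4} (hx : Real.exp (-L) < ‖x‖) :
    fderiv ℝ (chi L) x = 0 := by
  have : chi L =ᶠ[𝓝 x] fun _ => 1 := by
    have ho : IsOpen {y : EE 4 | Real.exp (-L) < ‖y‖} := isOpen_lt continuous_const continuous_norm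
    filter_upwards [ho.mem_nhds hx] with y hy
    exact chi_one hL (le_of_lt hy)
  rw [this.fderiv_eq]
  simp

theorem fderiv_chi_zero_of_lt {L : ℝ} (hL : 1 ≤ L) {x : EE 4}
    (hx : ‖x‖ < Real.exp (-(2 * L + 1))) : fderiv ℝ (chi L) x = 0 := by
  have : chi L =ᶠ[𝓝 x] fun _ => 0 := by
    have ho : IsOpen {y : EE 4 | ‖y‖ < Real.exp (-(2 * L + 1))} :=
      isOpen_lt continuous_norm continuous_const
    filter_upwards [ho.mem_nhds hx] with y hy
    exact chi_zero hL (le_of_lt hy)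
  rw [this.fderiv_eq]
  simp

/-- the annulus carrying the gradient of the cut-off -/
def AA (L : ℝ) : Set (EE 4) := {x | Real.exp (-(2 * L + 1)) ≤ ‖x‖ ∧ ‖x‖ ≤ Real.exp (-L)}

theorem measurableSet_AA (L : ℝ) : MeasurableSet (AA L) :=
  ((isClosed_le continuous_const continuous_norm).inter
    (isClosed_le continuous_norm continuous_const)).measurableSet

theorem fderiv_chi_zero {L : ℝ} (hL : 1 ≤ L) {x : EE 4} (hx : x ∉ AA L) :
    fderiv ℝ (chi L) x = 0 := by
  simp only [AA, mem_setOf_eq, not_and_or, not_le] at hx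
  rcases hx with hx | hx
  · exact fderiv_chi_zero_of_lt hL hx
  · exact fderiv_chi_zero_of_gt hL hx

theorem norm_fderiv_chi_le {L : ℝ} (hL : 1 ≤ L) {C : ℝ}
    (hC0 : 0 ≤ C) (hC : ∀ t, |deriv Real.smoothTransition t| ≤ C) (x : EE 4) (hx : x ≠ 0) :
    ‖fderiv ℝ (chi L) x‖ ≤ C / (L * ‖x‖) := by
  have hxn : 0 < ‖x‖ := norm_pos_iff.2 hx
  set P := ‖x‖ ^ 2 + Real.exp (-6 * L) with hP
  have hPpos : 0 < P := by positivity
  have h1 : HasFDerivAt (fun x : EE 4 => ‖x‖ ^ 2 + Real.exp (-6 * L))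
      (2 • (innerSL ℝ x)) x := (hasStrictFDerivAt_norm_sq x).hasFDerivAt.add_const _
  have h2 : HasFDerivAt (fun x : EE 4 => Real.log (‖x‖ ^ 2 + Real.exp (-6 * L)))
      (P⁻¹ • (2 • (innerSL ℝ x))) x := h1.log hPpos.ne'
  have h3 : HasFDerivAt (fun x : EE 4 => 2 + Real.log (‖x‖ ^ 2 + Real.exp (-6 * L)) / (2 * L))
      ((2 * L)⁻¹ • (P⁻¹ • (2 • (innerSL ℝ x)))) x := by
    have := (h2.const_mul ((2 * L)⁻¹)).const_add 2
    refine this.congr_of_eventuallyEq (Eventually.of_forall fun y => ?_)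
    simp only
    rw [div_eq_inv_mul]
  have h4 : HasDerivAt Real.smoothTransition
      (deriv Real.smoothTransition (2 + Real.log P / (2 * L))) (2 + Real.log P / (2 * L)) :=
    ((Real.smoothTransition.contDiff (n := 1)).differentiable (by simp) _).hasDerivAt
  have h5 : HasFDerivAt (chi L) (deriv Real.smoothTransition (2 + Real.log P / (2 * L)) •
      ((2 * L)⁻¹ • (P⁻¹ • (2 • (innerSL ℝ x))))) x := h4.comp_hasFDerivAt x h3
  rw [h5.fderiv, norm_smul, norm_smul, norm_smul, Real.norm_eq_abs]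
  have h6 : ‖(2 • (innerSL ℝ x) : EE 4 →L[ℝ] ℝ)‖ ≤ 2 * ‖x‖ := by
    refine (norm_nsmul_le).trans ?_
    rw [innerSL_apply_norm]
    norm_num
  have h7 : ‖(2 * L)⁻¹‖ = (2 * L)⁻¹ := Real.norm_of_nonneg (by positivity)
  have h8 : ‖P⁻¹‖ = P⁻¹ := Real.norm_of_nonneg (by positivity)
  rw [h7, h8]
  have h9 : P⁻¹ * (2 * ‖x‖) ≤ 2 / ‖x‖ := by
    rw [inv_mul_le_iff₀ hPpos]
    have : P * (2 / ‖x‖) = 2 * ‖x‖ + Real.exp (-6 * L) * (2 / ‖x‖) := by
      rw [hP]
      field_simp
    rw [this]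
    have : 0 ≤ Real.exp (-6 * L) * (2 / ‖x‖) := by positivity
    linarith
  calc |deriv Real.smoothTransition (2 + Real.log P / (2 * L))| *
        ((2 * L)⁻¹ * (P⁻¹ * ‖(2 • (innerSL ℝ x) : EE 4 →L[ℝ] ℝ)‖))
      ≤ C * ((2 * L)⁻¹ * (2 / ‖x‖)) := by
        refine mul_le_mul (hC _) ?_ (by positivity) hC0
        refine mul_le_mul_of_nonneg_left ?_ (by positivity)
        refine le_trans ?_ h9
        exact mul_le_mul_of_nonneg_left h6 (by positivity)
    _ = C / (L * ‖x‖) := by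
        field_simp

end Pool.Agent.H92
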