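import Pool.Agent.H92.Hartogs.Conv

set_option autoImplicit false
set_option linter.unusedSectionVars false

open MeasureTheory Set Filter Topology
open scoped ContDiff ENNReal

namespace Pool.Agent.H92

variable {q : ℕ} {F : Type*} [NormedAddCommGroup F] [NormedSpace ℝ F] [CompleteSpace F]

/-- weak exterior derivative in `L²` of the Hartogs triangle -/
def WeakG (f : EE 4 → VV 4 q F) (g : EE 4 → VV 4 (q + 1) F) : Prop :=
  ∀ η : EE 4 → ℝ, Tst TT η → ∀ v : Fin (q + 1) → EE 4,
    ∫ x in TT, η x • g x v = - ∑ i : Fin (q + 1), (-1 : ℤ) ^ (i : ℕ) •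
      ∫ x in TT, fderiv ℝ η x (v i) • f x (i.removeNth v)

/-- strong exterior derivative in `L²` of the Hartogs triangle -/
def StrongG (f : EE 4 → VV 4 q F) (g : EE 4 → VV 4 (q + 1) F) : Prop :=
  ∃ φ : ℕ → EE 4 → VV 4 q F, (∀ n, ContDiff ℝ ∞ (φ n)) ∧
    Tendsto (fun n => eLpNorm (fun x => φ n x - f x) 2 (volume.restrict TT)) atTop (𝓝 0) ∧
    Tendsto (fun n => eLpNorm (fun x => extDeriv (φ n) x - g x) 2 (volume.restrict TT))
      atTop (𝓝 0)

theorem exists_rep {G : Type*} [NormedAddCommGroup G] {f : EE 4 → G}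
    (hf : MemLp f 2 (volume.restrict TT)) : ∃ f' : EE 4 → G, StronglyMeasurable f' ∧
      MemLp f' 2 volume ∧ f =ᵐ[volume.restrict TT] f' := by
  refine ⟨TT.indicator (hf.1.mk f), SM_TT hf.1.stronglyMeasurable_mk, ?_, ?_⟩
  · rw [memLp_indicator_iff_restrict measurableSet_TT]
    exact (memLp_congr_ae hf.1.ae_eq_mk).1 hf
  · filter_upwards [hf.1.ae_eq_mk, ae_restrict_mem measurableSet_TT] with x hx hT
    rw [hx, indicator_of_mem hT]

theorem restrict_int {c : EE 4 → ℝ} (hc : tsupport c ⊆ TT) {H : Type*} [NormedAddCommGroup H]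
    [NormedSpace ℝ H] (u : EE 4 → H) : ∫ x in TT, c x • u x = ∫ x, c x • u x := by
  refine setIntegral_eq_integral_of_forall_compl_eq_zero fun x hx => ?_
  have : c x = 0 := by
    by_contra h0
    exact hx (hc (subset_tsupport _ h0))
  rw [this, zero_smul]

theorem tsupport_fd {η : EE 4 → ℝ} (hη : tsupport η ⊆ TT) (w : EE 4) :
    tsupport (fun x => fderiv ℝ η x w) ⊆ TT := by
  refine Subset.trans ?_ hη
  refine (closure_mono ?_).trans (tsupport_fderiv_subset (𝕜 := ℝ) (f := η))
  intro x hx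
  simp only [Function.mem_support] at hx ⊢
  intro h0
  apply hx
  rw [h0]
  rfl

theorem WeakG_iff {f : EE 4 → VV 4 q F} {g : EE 4 → VV 4 (q + 1) F}
    {f' : EE 4 → VV 4 q F} {g' : EE 4 → VV 4 (q + 1) F}
    (hf : f =ᵐ[volume.restrict TT] f') (hg : g =ᵐ[volume.restrict TT] g') :
    WeakG f g ↔ WE TT f' g' := by
  unfold WeakG WE
  refine forall_congr' fun η => forall_congr' fun hη => forall_congr' fun v => ?_
  have e1 : ∫ x in TT, η x • g x v = ∫ x, η x • g' x v := by
    rw [← restrict_int hη.sub]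
    refine integral_congr_ae ?_
    filter_upwards [hg] with x hx
    rw [hx]
  have e2 : ∀ i : Fin (q + 1), ∫ x in TT, fderiv ℝ η x (v i) • f x (i.removeNth v) =
      ∫ x, fderiv ℝ η x (v i) • f' x (i.removeNth v) := by
    intro i
    rw [← restrict_int (tsupport_fd hη.sub (v i))]
    refine integral_congr_ae ?_
    filter_upwards [hf] with x hx
    rw [hx]
  rw [e1]
  simp only [e2]

theorem Apx.of_WD (hq : 1 ≤ q) {f : EE 4 → VV 4 q F} {h : EE 4 → VV 4 (q + 1) F}
    (hfm : StronglyMeasurable f) (hhm : StronglyMeasurable h)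
    (hf : MemLp f 2 volume) (hh : MemLp h 2 volume) (hw : WD TT f h) : Apx f h := by
  obtain ⟨p, rfl⟩ : ∃ p, q = p + 1 := ⟨q - 1, by omega⟩
  rcases Nat.eq_zero_or_pos p with hp | hp
  · exact Apx.deg_one hp hfm hhm hf hh hw
  · exact Apx.ge_two (by omega) hfm hhm hf hh hw

theorem finTT : IsFiniteMeasure (volume.restrict TT) := by
  refine ⟨?_⟩
  rw [Measure.restrict_apply MeasurableSet.univ, univ_inter]
  exact (measure_mono TT_subset_ball).trans_lt measure_ball_lt_top

theorem weak_of_strong {f : EE 4 → VV 4 q F} {g : EE 4 → VV 4 (q + 1) F}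
    (hf : MemLp f 2 (volume.restrict TT)) (hg : MemLp g 2 (volume.restrict TT))
    (h : StrongG f g) : WeakG f g := by
  obtain ⟨φ, hφ, h1, h2⟩ := h
  intro η hη v
  have := finTT
  have hW : ∀ n, WE TT (φ n) (extDeriv (φ n)) := by
    intro n
    have hc : Continuous (extDeriv (φ n)) := by
      have h1 : Continuous (fun x => ContinuousAlternatingMap.alternatizeUncurryFinCLM ℝ (EE 4) F
          (fderiv ℝ (φ n) x)) := by
        have := (hφ n).continuous_fderiv (by simp)
        fun_prop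
      exact h1
    exact (WD_iff (hφ n).continuous.locallyIntegrable hc.locallyIntegrable).1
      (WD_smooth (hφ n) TT)
  obtain ⟨B, hB⟩ := hη.smooth.continuous.bounded_above_of_compact_support hη.cpt
  have t1 := lim_pair (μ := volume.restrict TT) hη.smooth.continuous hB
    (ContinuousAlternatingMap.apply ℝ (EE 4) F v) (fun n => extDeriv_aesm (hφ n) _) hg h2
  have t2 : ∀ i : Fin (q + 1), Tendsto (fun n => ∫ x in TT, fderiv ℝ η x (v i) •
      φ n x (i.removeNth v)) atTop
      (𝓝 (∫ x in TT, fderiv ℝ η x (v i) • f x (i.removeNth v))) := by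
    intro i
    have hc : Continuous (fun x => fderiv ℝ η x (v i)) :=
      (hη.smooth.continuous_fderiv (by simp)).clm_apply continuous_const
    obtain ⟨B', hB'⟩ := hc.bounded_above_of_compact_support
      (hη.cpt.fderiv_apply (𝕜 := ℝ) (v i))
    exact lim_pair (μ := volume.restrict TT) hc hB'
      (ContinuousAlternatingMap.apply ℝ (EE 4) F (i.removeNth v))
      (fun n => (hφ n).continuous.aestronglyMeasurable) hf h1
  have t3 : Tendsto (fun n => - ∑ i : Fin (q + 1), (-1 : ℤ) ^ (i : ℕ) •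
      ∫ x in TT, fderiv ℝ η x (v i) • φ n x (i.removeNth v)) atTop
      (𝓝 (- ∑ i : Fin (q + 1), (-1 : ℤ) ^ (i : ℕ) •
      ∫ x in TT, fderiv ℝ η x (v i) • f x (i.removeNth v))) := by
    refine Tendsto.neg (tendsto_finsetSum _ fun i _ => ?_)
    exact (t2 i).const_smul _
  refine tendsto_nhds_unique t1 (t3.congr fun n => ?_)
  have h4 := hW n η hη v
  have e1 : ∫ x in TT, η x • extDeriv (φ n) x v = ∫ x, η x • extDeriv (φ n) x v :=
    restrict_int hη.sub _
  have e2 : ∀ i : Fin (q + 1), ∫ x in TT, fderiv ℝ η x (v i) • φ n x (i.removeNth v) =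
      ∫ x, fderiv ℝ η x (v i) • φ n x (i.removeNth v) := fun i =>
    restrict_int (tsupport_fd hη.sub (v i)) _
  simp only [e2]
  rw [← h4, ← e1]
  rfl

theorem strong_of_weak (hq : 1 ≤ q) {f : EE 4 → VV 4 q F} {g : EE 4 → VV 4 (q + 1) F}
    (hf : MemLp f 2 (volume.restrict TT)) (hg : MemLp g 2 (volume.restrict TT))
    (h : WeakG f g) : StrongG f g := by
  obtain ⟨f', hfm, hfL, hfe⟩ := exists_rep hf
  obtain ⟨g', hgm, hgL, hge⟩ := exists_rep hg
  have hW : WD TT f' g' := (WD_iff (hfL.locallyIntegrable (by norm_num))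
    (hgL.locallyIntegrable (by norm_num))).2 ((WeakG_iff hfe hge).1 h)
  have hA := Apx.of_WD hq hfm hgm hfL hgL hW
  have hε : ∀ n : ℕ, (0 : ℝ≥0∞) < ((n : ℝ≥0∞) + 1)⁻¹ := fun n => by
    rw [ENNReal.inv_pos]
    exact ENNReal.add_ne_top.2 ⟨ENNReal.natCast_ne_top n, ENNReal.one_ne_top⟩
  choose φ hφ h1 h2 using fun n : ℕ => hA _ (hε n)
  have hlim : Tendsto (fun n : ℕ => ((n : ℝ≥0∞) + 1)⁻¹) atTop (𝓝 0) := by
    have h3 := (tendsto_add_atTop_iff_nat 1).2 ENNReal.tendsto_inv_nat_nhds_zero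
    refine h3.congr fun n => ?_
    push_cast
    rfl
  refine ⟨φ, hφ, ?_, ?_⟩
  · refine tendsto_of_tendsto_of_tendsto_of_le_of_le tendsto_const_nhds hlim
      (fun _ => zero_le) (fun n => ?_)
    refine le_of_eq_of_le (eLpNorm_congr_ae ?_) (h1 n)
    filter_upwards [hfe] with x hx
    rw [hx]
  · refine tendsto_of_tendsto_of_tendsto_of_le_of_le tendsto_const_nhds hlim
      (fun _ => zero_le) (fun n => ?_)
    refine le_of_eq_of_le (eLpNorm_congr_ae ?_) (h2 n)
    filter_upwards [hge] with x hx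
    rw [hx]

end Pool.Agent.H92
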