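import Pool.Agent.H92.Hartogs.Homot

set_option autoImplicit false
set_option linter.unusedSectionVars false

open MeasureTheory Set Filter Topology
open scoped ContDiff ENNReal

namespace Pool.Agent.H92

variable {N q : ℕ} {F : Type*} [NormedAddCommGroup F] [NormedSpace ℝ F] [CompleteSpace F]

/-- weight -/
noncomputable def wt (N q : ℕ) (s : ℝ) : ℝ := s ^ q * (s ^ N)⁻¹

theorem wt_eq (N q : ℕ) {s : ℝ} (hs : s ≠ 0) : wt N q s = s ^ ((q : ℤ) - (N : ℤ)) := by
  unfold wt
  rw [zpow_sub₀ hs, zpow_natCast, zpow_natCast, div_eq_mul_inv]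

theorem hasDerivAt_wt (N q : ℕ) {s : ℝ} (hs : 0 < s) :
    HasDerivAt (wt N q) (s⁻¹ * (((q : ℝ) - N) * wt N q s)) s := by
  have h1 : HasDerivAt (fun s : ℝ => s ^ ((q : ℤ) - (N : ℤ)))
      ((((q : ℤ) - (N : ℤ) : ℤ) : ℝ) * s ^ ((q : ℤ) - (N : ℤ) - 1)) s :=
    hasDerivAt_zpow _ _ (Or.inl hs.ne')
  have h2 : (fun s : ℝ => s ^ ((q : ℤ) - (N : ℤ))) =ᶠ[𝓝 s] wt N q := by
    filter_upwards [eventually_ne_nhds hs.ne'] with t ht
    rw [wt_eq N q ht]
  have h3 := h1.congr_of_eventuallyEq h2.symm
  refine h3.congr_deriv ?_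
  rw [wt_eq N q hs.ne', zpow_sub_one₀ hs.ne']
  push_cast
  ring

/-- Euler derivative plus a multiple -/
noncomputable def psi (r : ℝ) (c : EE N → ℝ) (x : EE N) : ℝ :=
  ∑ k, x k * pd k c x + r * c x

theorem sum_pd (c : EE N → ℝ) (x y : EE N) : ∑ k, y k * pd k c x = fderiv ℝ c x y := by
  conv_rhs => rw [← sum_ev y]
  simp [pd]

theorem psi_tst {U : Set (EE N)} (r : ℝ) {c : EE N → ℝ} (hc : Tst U c) : Tst U (psi r c) := by
  have h : psi r c = fun x => (fderiv ℝ c x x) + r * c x := by
    ext x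
    unfold psi
    rw [sum_pd]
  have hsm : ContDiff ℝ ∞ (psi r c) := by
    rw [h]
    exact ((hc.smooth.fderiv_right (m := ∞) (by simp)).clm_apply contDiff_id).add
      (contDiff_const.mul hc.smooth)
  have hsub : tsupport (psi r c) ⊆ tsupport c := by
    refine closure_minimal ?_ (isClosed_tsupport c)
    intro x hx
    by_contra hx'
    apply hx
    have h1 : c x = 0 := image_eq_zero_of_notMem_tsupport hx'
    have h2 : fderiv ℝ c x = 0 := by
      have := tsupport_fderiv_subset ℝ (f := c)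
      by_contra h3
      exact hx' (this (subset_tsupport _ h3))
    rw [h]
    simp [h1, h2]
  exact ⟨hsm, hc.cpt.mono' ((subset_tsupport _).trans hsub), hsub.trans hc.sub⟩

theorem II_psi {U : Set (EE N)} {c : EE N → ℝ} (hc : Tst U c) (r : ℝ) {g : EE N → VV N q F}
    (hg : LocallyIntegrable g) :
    II (psi r c) g = ∑ k, II (fun x => x k * pd k c x) g + r • II c g := by
  have h1 : ∀ k, Tst U (fun x => x k * pd k c x) := fun k => (hc.pd k).mul (by fun_prop)
  have h2 : ∀ k, Integrable (fun x : EE N => (x k * pd k c x) • g x) :=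
    fun k => (h1 k).integrable hg
  have e : ∀ x, psi r c x • g x = ∑ k, (x k * pd k c x) • g x + r • (c x • g x) := by
    intro x
    unfold psi
    rw [add_smul, Finset.sum_smul, smul_smul]
  unfold II
  rw [integral_congr_ae (Eventually.of_forall e),
    integral_add (int_sum h2) (int_smul r (hc.integrable hg)), integral_sum' h2, integral_smul]

theorem ftc_aux {U : Set (EE N)} {c : EE N → ℝ} (hc : Tst U c) {a b : ℝ} (ha : 0 < a)
    (hab : a ≤ b) (y : EE N) :
    ∫ s in Ioc a b, -(s⁻¹ * (wt N q s * psi ((N : ℝ) - q) c (s⁻¹ • y))) =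
      wt N q b * c (b⁻¹ • y) - wt N q a * c (a⁻¹ • y) := by
  rw [← intervalIntegral.integral_of_le hab]
  have hd : ∀ s ∈ uIcc a b, HasDerivAt (fun s => wt N q s * c (s⁻¹ • y))
      (-(s⁻¹ * (wt N q s * psi ((N : ℝ) - q) c (s⁻¹ • y)))) s := by
    intro s hs
    rw [uIcc_of_le hab] at hs
    have hs0 : 0 < s := ha.trans_le hs.1
    have h1 : HasDerivAt (fun s : ℝ => s⁻¹ • y) ((-(s ^ 2)⁻¹) • y) s :=
      (hasDerivAt_inv hs0.ne').smul_const y
    have h2 : HasFDerivAt c (fderiv ℝ c (s⁻¹ • y)) (s⁻¹ • y) :=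
      (hc.smooth.differentiable (by simp) _).hasFDerivAt
    have h3 := h2.comp_hasDerivAt s h1
    have h4 := (hasDerivAt_wt N q hs0).mul h3
    refine h4.congr_deriv ?_
    unfold psi
    rw [sum_pd, map_smul, map_smul]
    simp only [Function.comp, smul_eq_mul]
    field_simp
    ring
  refine intervalIntegral.integral_eq_sub_of_hasDerivAt hd ?_
  apply ContinuousOn.intervalIntegrable
  rw [uIcc_of_le hab]
  have hψ : Continuous (psi ((N : ℝ) - q) c) := (psi_tst _ hc).smooth.continuous
  have hinv : ContinuousOn (fun s : ℝ => s⁻¹) (Icc a b) :=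
    continuousOn_inv₀.mono fun s hs => (ha.trans_le hs.1).ne'
  have hw : ContinuousOn (wt N q) (Icc a b) := by
    unfold wt
    refine (continuousOn_id.pow q).mul ?_
    exact (continuousOn_id.pow N).inv₀ fun s hs => (pow_pos (ha.trans_le hs.1) _).ne'
  exact (hinv.mul (hw.mul (hψ.comp_continuousOn (hinv.smul continuousOn_const)))).neg

theorem II_pbs_sub {U : Set (EE N)} {c : EE N → ℝ} (hc : Tst U c) {a b : ℝ} (ha : 0 < a)
    (hab : a ≤ b) {g : EE N → VV N q F} (hgm : StronglyMeasurable g) (hg : LocallyIntegrable g) :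
    II c (pbs b g) - II c (pbs a g) =
      - ∫ s in Ioc a b, s⁻¹ • (∑ k, II (fun x => x k * pd k c x) (pbs s g) +
        ((N : ℝ) - q) • II c (pbs s g)) := by
  set ψ := psi ((N : ℝ) - q) c with hψdef
  have hψ : Tst U ψ := psi_tst _ hc
  have e1 : ∀ s ∈ Ioc a b, s⁻¹ • (∑ k, II (fun x => x k * pd k c x) (pbs s g) +
        ((N : ℝ) - q) • II c (pbs s g)) =
        - ∫ y, (-(s⁻¹ * (wt N q s * ψ (s⁻¹ • y)))) • g y := by
    intro s hs
    have hs0 : 0 < s := ha.trans hs.1
    rw [← II_psi hc _ (LI_pbs hs0 hg), II_pbs hs0, smul_smul, ← integral_smul, ← integral_neg]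
    congr 1
    ext1 y
    rw [← neg_smul, smul_smul, neg_neg]
    congr 1
    unfold wt
    ring
  rw [setIntegral_congr_fun measurableSet_Ioc e1, integral_neg, neg_neg]
  have hint : Integrable (fun p : ℝ × EE N =>
      (-(p.1⁻¹ * (wt N q p.1 * ψ (p.1⁻¹ • p.2)))) • g p.2)
      ((volume.restrict (Ioc a b)).prod volume) := by
    obtain ⟨C, hC⟩ := hψ.smooth.continuous.bounded_above_of_compact_support hψ.cpt
    obtain ⟨R, hR⟩ := (hψ.cpt.isCompact.isBounded).subset_closedBall (0 : EE N)
    have hb : IntegrableOn g (Metric.closedBall 0 (b * R)) :=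
      hg.integrableOn_isCompact (isCompact_closedBall _ _)
    have hbI : Integrable ((Metric.closedBall (0 : EE N) (b * R)).indicator (fun y => ‖g y‖)) :=
      (integrable_indicator_iff measurableSet_closedBall).2 hb.norm
    have hC0 : 0 ≤ C := (norm_nonneg _).trans (hC 0)
    have hfin : Integrable (fun _ : ℝ => a⁻¹ * (b ^ q * (a ^ N)⁻¹) * C)
        (volume.restrict (Ioc a b)) := integrable_const _
    refine (hfin.mul_prod hbI).mono' ?_ ?_
    · have hm0 : Measurable (fun p : ℝ × EE N => -(p.1⁻¹ * (wt N q p.1 * ψ (p.1⁻¹ • p.2)))) := by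
        have := hψ.smooth.continuous.measurable
        unfold wt
        fun_prop
      exact hm0.stronglyMeasurable.aestronglyMeasurable.smul
        (hgm.comp_measurable measurable_snd).aestronglyMeasurable
    · have h3 : ∀ᵐ p : ℝ × EE N ∂((volume.restrict (Ioc a b)).prod volume), p.1 ∈ Ioc a b := by
        have h3 : ∀ᵐ s ∂(volume.restrict (Ioc a b)), s ∈ Ioc a b :=
          ae_restrict_mem measurableSet_Ioc
        exact Measure.quasiMeasurePreserving_fst.ae h3
      filter_upwards [h3] with p hp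
      have hs0 : 0 < p.1 := ha.trans hp.1
      by_cases hx : ψ (p.1⁻¹ • p.2) = 0
      · rw [hx]
        simp only [mul_zero, neg_zero, zero_smul, norm_zero]
        have : 0 ≤ (Metric.closedBall (0 : EE N) (b * R)).indicator (fun y => ‖g y‖) p.2 :=
          indicator_nonneg (fun _ _ => norm_nonneg _) _
        have hb0 : 0 ≤ b := ha.le.trans hab
        positivity
      · have hx1 : p.1⁻¹ • p.2 ∈ Metric.closedBall (0 : EE N) R := hR (subset_tsupport _ hx)
        have hx2 : p.2 ∈ Metric.closedBall (0 : EE N) (b * R) := by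
          rw [mem_closedBall_zero_iff] at hx1 ⊢
          rw [norm_smul, Real.norm_eq_abs, abs_of_pos (inv_pos.2 hs0)] at hx1
          have h5 : ‖p.2‖ = p.1 * (p.1⁻¹ * ‖p.2‖) := by field_simp
          rw [h5]
          exact mul_le_mul hp.2 hx1 (by positivity) (hs0.le.trans hp.2)
        rw [indicator_of_mem hx2, norm_smul, norm_neg, norm_mul, norm_mul]
        refine mul_le_mul_of_nonneg_right ?_ (norm_nonneg _)
        have hw : ‖wt N q p.1‖ ≤ b ^ q * (a ^ N)⁻¹ := by
          unfold wt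
          rw [Real.norm_of_nonneg (by positivity)]
          refine mul_le_mul (pow_le_pow_left₀ hs0.le hp.2 _) ?_ (by positivity)
            (pow_nonneg (hs0.le.trans hp.2) _)
          exact inv_anti₀ (pow_pos ha _) (pow_le_pow_left₀ ha.le hp.1.le _)
        have hi : ‖p.1⁻¹‖ ≤ a⁻¹ := by
          rw [Real.norm_of_nonneg (by positivity)]
          exact inv_anti₀ ha hp.1.le
        calc ‖p.1⁻¹‖ * (‖wt N q p.1‖ * ‖ψ (p.1⁻¹ • p.2)‖)
            ≤ a⁻¹ * ((b ^ q * (a ^ N)⁻¹) * C) := by
              refine mul_le_mul hi ?_ (by positivity) (by positivity)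
              refine mul_le_mul hw (hC _) (norm_nonneg _) ?_
              have hb0 : 0 ≤ b := ha.le.trans hab
              positivity
          _ = _ := by ring
  rw [integral_integral_swap hint]
  have e2 : ∀ y, ∫ s in Ioc a b, (-(s⁻¹ * (wt N q s * ψ (s⁻¹ • y)))) • g y =
      wt N q b • c (b⁻¹ • y) • g y - wt N q a • c (a⁻¹ • y) • g y := by
    intro y
    rw [integral_smul_const, ftc_aux hc ha hab, sub_smul, smul_smul, smul_smul]
  rw [integral_congr_ae (Eventually.of_forall e2)]
  have hbpos : 0 < b := ha.trans_le hab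
  have key : ∀ s : ℝ, 0 < s → Integrable (fun y : EE N => wt N q s • c (s⁻¹ • y) • g y) := by
    intro s hs
    have hcs := hc.comp_dil (a := fun _ => s⁻¹) (fun _ => (inv_pos.2 hs).ne')
    simp only [dil_const] at hcs
    exact int_smul _ (hcs.integrable hg)
  rw [integral_sub (key b hbpos) (key a ha), integral_smul, integral_smul, II_pbs hbpos,
    II_pbs ha]
  rfl

end Pool.Agent.H92
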