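import Pool.Agent.H92.Hartogs.L2c

set_option autoImplicit false
set_option linter.unusedSectionVars false

open MeasureTheory Set Filter Topology
open scoped ContDiff ENNReal

namespace Pool.Agent.H92

/-- first complex coordinate on `ℝ⁴` -/
noncomputable def z1 (x : EE 4) : ℂ := ⟨x 0, x 1⟩

/-- second complex coordinate on `ℝ⁴` -/
noncomputable def z2 (x : EE 4) : ℂ := ⟨x 2, x 3⟩

/-- the Hartogs triangle -/
def TT : Set (EE 4) := {x | ‖z1 x‖ < ‖z2 x‖ ∧ ‖z2 x‖ < 1}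

/-- the cone over the link of the singular point -/
def CC : Set (EE 4) := {x | ‖z1 x‖ < ‖z2 x‖}

theorem z1_sub (x y : EE 4) : z1 (x - y) = z1 x - z1 y := by
  apply Complex.ext <;> simp [z1]

theorem z2_sub (x y : EE 4) : z2 (x - y) = z2 x - z2 y := by
  apply Complex.ext <;> simp [z2]

theorem z1_smul (s : ℝ) (x : EE 4) : z1 (s • x) = s * z1 x := by
  apply Complex.ext <;> simp [z1]

theorem z2_smul (s : ℝ) (x : EE 4) : z2 (s • x) = s * z2 x := by
  apply Complex.ext <;> simp [z2]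

theorem norm_sq_z (x : EE 4) : ‖x‖ ^ 2 = ‖z1 x‖ ^ 2 + ‖z2 x‖ ^ 2 := by
  rw [EuclideanSpace.norm_sq_eq, Fin.sum_univ_four, Complex.sq_norm, Complex.sq_norm,
    Complex.normSq_apply, Complex.normSq_apply]
  simp only [z1, z2, Real.norm_eq_abs, sq_abs]
  ring

theorem norm_z1_le (x : EE 4) : ‖z1 x‖ ≤ ‖x‖ := by
  refine le_of_sq_le_sq ?_ (norm_nonneg _)
  rw [norm_sq_z]
  nlinarith [sq_nonneg ‖z2 x‖]

theorem norm_z2_le (x : EE 4) : ‖z2 x‖ ≤ ‖x‖ := by
  refine le_of_sq_le_sq ?_ (norm_nonneg _)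
  rw [norm_sq_z]
  nlinarith [sq_nonneg ‖z1 x‖]

theorem continuous_z1 : Continuous z1 := by
  have : z1 = fun x : EE 4 => (x 0 : ℂ) + (x 1 : ℂ) * Complex.I := by
    ext x
    apply Complex.ext <;> simp [z1]
  rw [this]
  fun_prop

theorem continuous_z2 : Continuous z2 := by
  have : z2 = fun x : EE 4 => (x 2 : ℂ) + (x 3 : ℂ) * Complex.I := by
    ext x
    apply Complex.ext <;> simp [z2]
  rw [this]
  fun_prop

theorem isOpen_CC : IsOpen CC := isOpen_lt continuous_z1.norm continuous_z2.norm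

theorem isOpen_TT : IsOpen TT :=
  isOpen_CC.inter (isOpen_lt continuous_z2.norm continuous_const)

theorem TT_subset_CC : TT ⊆ CC := fun _ hx => hx.1

theorem TT_subset_ball : TT ⊆ Metric.ball 0 2 := by
  intro x hx
  rw [mem_ball_zero_iff]
  have h1 := norm_sq_z x
  have h2 := hx.1
  have h3 := hx.2
  have h4 := norm_nonneg (z1 x)
  nlinarith [norm_nonneg x]

theorem CC_inter_ball : CC ∩ Metric.ball 0 1 ⊆ TT := by
  rintro x ⟨h1, h2⟩
  refine ⟨h1, ?_⟩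
  rw [mem_ball_zero_iff] at h2
  exact (norm_z2_le x).trans_lt h2

theorem smul_mem_TT {x : EE 4} (hx : x ∈ TT) {s : ℝ} (hs0 : 0 < s) (hs1 : s ≤ 1) :
    s • x ∈ TT := by
  have e1 : ‖z1 (s • x)‖ = s * ‖z1 x‖ := by
    rw [z1_smul, norm_mul, Complex.norm_real, Real.norm_of_nonneg hs0.le]
  have e2 : ‖z2 (s • x)‖ = s * ‖z2 x‖ := by
    rw [z2_smul, norm_mul, Complex.norm_real, Real.norm_of_nonneg hs0.le]
  refine ⟨?_, ?_⟩
  · rw [e1, e2]
    exact mul_lt_mul_of_pos_left hx.1 hs0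
  · rw [e2]
    have := hx.2
    nlinarith [norm_nonneg (z2 x)]

theorem smul_mem_CC {x : EE 4} (hx : x ∈ CC) {s : ℝ} (hs0 : 0 < s) :
    s • x ∈ CC := by
  have e1 : ‖z1 (s • x)‖ = s * ‖z1 x‖ := by
    rw [z1_smul, norm_mul, Complex.norm_real, Real.norm_of_nonneg hs0.le]
  have e2 : ‖z2 (s • x)‖ = s * ‖z2 x‖ := by
    rw [z2_smul, norm_mul, Complex.norm_real, Real.norm_of_nonneg hs0.le]
  change ‖z1 (s • x)‖ < ‖z2 (s • x)‖
  rw [e1, e2]
  exact mul_lt_mul_of_pos_left hx hs0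

/-- coefficients of the non-isotropic dilation -/
noncomputable def lam (t : ℝ) : Fin 4 → ℝ := ![t ^ 2, t ^ 2, t, t]

theorem z1_lam (t : ℝ) (x : EE 4) : z1 (dil (lam t) x) = ((t ^ 2 : ℝ) : ℂ) * z1 x := by
  have h : ∀ c : ℝ, c = t ^ 2 → z1 (dil (lam t) x) = (c : ℂ) * z1 x := by
    intro c hc
    apply Complex.ext <;> simp [z1, lam, hc.symm]
  exact h _ rfl

theorem z2_lam (t : ℝ) (x : EE 4) : z2 (dil (lam t) x) = (t : ℂ) * z2 x := by
  apply Complex.ext <;> simp [z2, lam]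

theorem lam_margin {t ρ : ℝ} (ht0 : 0 < t) (ht1 : t < 1) (hρ : 0 < ρ) :
    ∃ δ : ℝ, 0 < δ ∧ ∀ x ∈ TT, ∀ y : EE 4, ‖x - y‖ ≤ δ →
      y ∈ (dil (lam t)) ⁻¹' TT ∪ Metric.ball 0 ρ := by
  refine ⟨min ((1 - t) * ρ / 4) (1 - t), by
    have : 0 < 1 - t := by linarith
    positivity, ?_⟩
  intro x hx y hxy
  have hd1 := hxy.trans (min_le_left _ _)
  have hd2 := hxy.trans (min_le_right _ _)
  set δ := ‖x - y‖ with hδ
  by_cases hy : ‖y‖ < ρ
  · right
    rwa [mem_ball_zero_iff]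
  · left
    rw [not_lt] at hy
    have a1 : ‖z1 y‖ ≤ ‖z1 x‖ + δ := by
      have := norm_z1_le (x - y)
      rw [z1_sub] at this
      have h2 := norm_sub_norm_le (z1 y) (z1 x)
      rw [norm_sub_rev] at h2
      linarith
    have a2 : ‖z2 y‖ ≤ ‖z2 x‖ + δ := by
      have := norm_z2_le (x - y)
      rw [z2_sub] at this
      have h2 := norm_sub_norm_le (z2 y) (z2 x)
      rw [norm_sub_rev] at h2
      linarith
    have a3 : ‖z2 x‖ ≤ ‖z2 y‖ + δ := by
      have := norm_z2_le (x - y)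
      rw [z2_sub] at this
      have h2 := norm_sub_norm_le (z2 x) (z2 y)
      linarith
    have h1 := hx.1
    have h2 := hx.2
    have h3 := norm_nonneg (z1 y)
    have h4 := norm_nonneg (z2 y)
    have hδ0 : 0 ≤ δ := norm_nonneg _
    have a4 : ‖z1 y‖ < ‖z2 y‖ + 2 * δ := by linarith
    have a5 : ρ ≤ 2 * (‖z2 y‖ + 2 * δ) := by
      have h5 := norm_sq_z y
      have h6 : ρ ^ 2 ≤ (2 * (‖z2 y‖ + 2 * δ)) ^ 2 := by nlinarith
      exact le_of_sq_le_sq h6 (by positivity)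
    have e1 : ‖z1 (dil (lam t) y)‖ = t ^ 2 * ‖z1 y‖ := by
      rw [z1_lam, norm_mul, Complex.norm_real, Real.norm_of_nonneg (by positivity)]
    have e2 : ‖z2 (dil (lam t) y)‖ = t * ‖z2 y‖ := by
      rw [z2_lam, norm_mul, Complex.norm_real, Real.norm_of_nonneg ht0.le]
    refine ⟨?_, ?_⟩
    · rw [e1, e2, sq, mul_assoc]
      refine mul_lt_mul_of_pos_left ?_ ht0
      nlinarith
    · rw [e2]
      nlinarith

end Pool.Agent.H92
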