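import Pool.Agent.H92.Hartogs.Homot2

set_option autoImplicit false
set_option linter.unusedSectionVars false

open MeasureTheory Set Filter Topology
open scoped ContDiff ENNReal Manifold

namespace Pool.Agent.H92

variable {N q : ℕ} {F : Type*} [NormedAddCommGroup F] [NormedSpace ℝ F] [CompleteSpace F]

theorem exists_cutoff {s t : Set (EE N)} (hs : IsClosed s) (ht : IsClosed t) (hd : Disjoint s t) :
    ∃ θ : EE N → ℝ, ContDiff ℝ ∞ θ ∧ (∀ᶠ x in 𝓝ˢ s, θ x = 0) ∧ (∀ᶠ x in 𝓝ˢ t, θ x = 1) := by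
  obtain ⟨f, h0, h1, _⟩ := exists_contMDiffMap_zero_one_nhds_of_isClosed
    (n := (⊤ : ℕ∞)) 𝓘(ℝ, EE N) hs ht hd
  exact ⟨f, f.contMDiff.contDiff, h0, h1⟩

theorem tsupport_subset_of_eventually {s : Set (EE N)} {θ : EE N → ℝ}
    (h : ∀ᶠ x in 𝓝ˢ s, θ x = 0) : tsupport θ ⊆ sᶜ := by
  intro x hx hxs
  have h1 : ∀ᶠ y in 𝓝 x, θ y = 0 := h.filter_mono (nhds_le_nhdsSet hxs)
  exact (notMem_tsupport_iff_eventuallyEq.2 h1) hx

/-- gluing of weak derivatives on two open sets -/
theorem WD.union {U V : Set (EE N)} (hU : IsOpen U) (hV : IsOpen V)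
    {f : EE N → VV N q F} {h : EE N → VV N (q + 1) F}
    (hw : WD U f h) (hw' : WD V f h) (hf : LocallyIntegrable f) (hh : LocallyIntegrable h) :
    WD (U ∪ V) f h := by
  intro η hη
  obtain ⟨θ, hθ, h0, h1⟩ := exists_cutoff (s := Uᶜ) (t := tsupport η \ V) hU.isClosed_compl
    ((isClosed_tsupport η).sdiff hV) (by
      rw [Set.disjoint_left]
      intro x hxU hx
      rcases hη.sub hx.1 with h | h
      · exact hxU h
      · exact hx.2 h)
  have hA : Tst U (fun x => θ x * η x) := by
    refine ⟨hθ.mul hη.smooth, hη.cpt.mul_left, ?_⟩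
    refine (tsupport_mul_subset_left).trans ?_
    have := tsupport_subset_of_eventually h0
    rwa [compl_compl] at this
  have hθ' : ContDiff ℝ ∞ (fun x => 1 - θ x) := contDiff_const.sub hθ
  have hB : Tst V (fun x => (1 - θ x) * η x) := by
    refine ⟨hθ'.mul hη.smooth, hη.cpt.mul_left, ?_⟩
    intro x hx
    have hx1 : x ∈ tsupport η := tsupport_mul_subset_right hx
    have hx2 : x ∈ tsupport (fun x => 1 - θ x) := tsupport_mul_subset_left hx
    by_contra hxV
    have h3 : ∀ᶠ x in 𝓝ˢ (tsupport η \ V), (fun x => 1 - θ x) x = 0 := by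
      filter_upwards [h1] with y hy
      simp [hy]
    exact tsupport_subset_of_eventually h3 hx2 ⟨hx1, hxV⟩
  have e : η = fun x => θ x * η x + (1 - θ x) * η x := by
    ext x
    ring
  have e1 : II η h = II (fun x => θ x * η x) h + II (fun x => (1 - θ x) * η x) h := by
    rw [← II_add_left (hA.mono subset_union_left) (hB.mono subset_union_right) hh, ← e]
  have e2 : ∀ l, II (pd l η) f =
      II (pd l (fun x => θ x * η x)) f + II (pd l (fun x => (1 - θ x) * η x)) f := by
    intro l
    rw [← II_add_left ((hA.pd l).mono subset_union_left) ((hB.pd l).mono subset_union_right) hf]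
    congr 1
    ext x
    have d1 := hA.smooth.differentiable (by simp) x
    have d2 := hB.smooth.differentiable (by simp) x
    conv_lhs => rw [e]
    unfold pd
    rw [fderiv_fun_add d1 d2]
    rfl
  rw [e1, hw _ hA, hw' _ hB, ← neg_add, ← Finset.sum_add_distrib]
  congr 1
  refine Finset.sum_congr rfl fun l _ => ?_
  rw [e2, map_add]

theorem WD.zero (U : Set (EE N)) : WD U (fun _ => (0 : VV N q F)) (fun _ => 0) := by
  intro η _
  simp [II]

theorem WD.of_zero {U : Set (EE N)} {f : EE N → VV N q F} {h : EE N → VV N (q + 1) F}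
    (hf : ∀ x ∈ U, f x = 0) (hh : ∀ x ∈ U, h x = 0) : WD U f h :=
  (WD.zero U).congr (Eventually.of_forall fun x hx => (hf x hx).symm)
    (Eventually.of_forall fun x hx => (hh x hx).symm)

theorem WD.neg {U : Set (EE N)} {f : EE N → VV N q F} {h : EE N → VV N (q + 1) F}
    (hw : WD U f h) : WD U (fun x => - f x) (fun x => - h x) := by
  intro η hη
  rw [II_neg, hw η hη, ← Finset.sum_neg_distrib]
  congr 1
  refine Finset.sum_congr rfl fun l _ => ?_
  rw [II_neg, map_neg]

/-- if a weak identity holds locally around the support of every test function -/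
theorem WD.of_local {U : Set (EE N)} {f : EE N → VV N q F} {h : EE N → VV N (q + 1) F}
    (H : ∀ K : Set (EE N), IsCompact K → K ⊆ U → ∃ W, K ⊆ W ∧ WD W f h) : WD U f h := by
  intro η hη
  obtain ⟨W, hKW, hW⟩ := H (tsupport η) hη.cpt hη.sub
  exact hW η ⟨hη.smooth, hη.cpt, hKW⟩

end Pool.Agent.H92
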