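import Pool.Agent.H92.Hartogs.Pull

set_option autoImplicit false
set_option linter.unusedSectionVars false

open MeasureTheory Set Filter Topology
open scoped ContDiff ENNReal

namespace Pool.Agent.H92

variable {N q : ℕ} {F : Type*} [NormedAddCommGroup F] [NormedSpace ℝ F] [CompleteSpace F]

theorem int_sum {G : Type*} [NormedAddCommGroup G] {α : Type*} [MeasurableSpace α]
    {μ : Measure α} {ι : Type*} [Fintype ι] {f : ι → α → G} (h : ∀ i, Integrable (f i) μ) :
    Integrable (fun x => ∑ i, f i x) μ := integrable_finsetSum _ fun i _ => h i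

theorem integral_sum' {G : Type*} [NormedAddCommGroup G] [NormedSpace ℝ G] {α : Type*}
    [MeasurableSpace α]
    {μ : Measure α} {ι : Type*} [Fintype ι] {f : ι → α → G} (h : ∀ i, Integrable (f i) μ) :
    ∫ x, ∑ i, f i x ∂μ = ∑ i, ∫ x, f i x ∂μ := integral_finsetSum _ fun i _ => h i

theorem int_clm {G H : Type*} [NormedAddCommGroup G] [NormedSpace ℝ G] [NormedAddCommGroup H]
    [NormedSpace ℝ H] {α : Type*} [MeasurableSpace α]
    {μ : Measure α} (L : G →L[ℝ] H) {f : α → G} (h : Integrable f μ) :
    Integrable (fun x => L (f x)) μ := L.integrable_comp h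

theorem int_smul {G : Type*} [NormedAddCommGroup G] [NormedSpace ℝ G]
    {α : Type*} [MeasurableSpace α]
    {μ : Measure α} (c : ℝ) {f : α → G} (h : Integrable f μ) :
    Integrable (fun x => c • f x) μ := h.smul c

/-- pull back of a form by the dilation `x ↦ s x` -/
noncomputable def pbs (s : ℝ) (f : EE N → VV N q F) (x : EE N) : VV N q F :=
  s ^ q • f (s • x)

theorem cpl_const (s : ℝ) (f : VV N q F) : cpl q F (dil (fun _ : Fin N => s)) f = s ^ q • f := by
  ext v
  rw [cpl_apply_apply]
  have : (fun i => dil (fun _ : Fin N => s) (v i)) = fun i => s • v i := by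
    ext1 i
    exact dil_const s (v i)
  rw [this, f.map_smul_univ (fun _ => s) v]
  simp

theorem pb_const (s : ℝ) (f : EE N → VV N q F) : pb (fun _ => s) f = pbs s f := by
  ext1 x
  unfold pb pbs
  rw [cpl_const, dil_const]

theorem cst_const {s : ℝ} (hs : 0 < s) : cst (fun _ : Fin N => s) = (s ^ N)⁻¹ := by
  unfold cst
  simp [abs_of_pos hs]

theorem II_pbs {c : EE N → ℝ} {s : ℝ} (hs : 0 < s) {f : EE N → VV N q F} :
    II c (pbs s f) = (s ^ q * (s ^ N)⁻¹) • ∫ y, c (s⁻¹ • y) • f y := by
  have h1 := integral_dil (a := fun _ : Fin N => s) (fun _ => hs.ne')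
    (fun y => s ^ q • (c (s⁻¹ • y) • f y))
  rw [cst_const hs] at h1
  unfold II pbs
  have h2 : ∀ x : EE N, c x • s ^ q • f (s • x) =
      (fun y => s ^ q • (c (s⁻¹ • y) • f y)) (dil (fun _ => s) x) := by
    intro x
    simp only [dil_const, smul_smul, inv_mul_cancel₀ hs.ne', one_smul]
    rw [mul_comm]
  rw [integral_congr_ae (Eventually.of_forall h2), h1, integral_smul, smul_smul, mul_comm]

theorem LI_pbs {s : ℝ} (hs : 0 < s) {f : EE N → VV N q F}
    (hf : LocallyIntegrable f) : LocallyIntegrable (pbs s f) := by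
  rw [← pb_const]
  exact LI_pb (fun _ => hs.ne') hf

theorem WD.scal {U : Set (EE N)} {f : EE N → VV N q F} {h : EE N → VV N (q + 1) F}
    (hw : WD U f h) (hf : LocallyIntegrable f) (hh : LocallyIntegrable h)
    {s : ℝ} (hs : 0 < s) :
    WD ((fun x => s • x) ⁻¹' U) (pbs s f) (pbs s h) := by
  have := hw.pull hf hh (a := fun _ => s) (fun _ => hs.ne')
  rw [pb_const, pb_const] at this
  refine this.mono ?_
  intro x hx
  simpa [dil_const] using hx

/-- integrability on the product, for the scaled functions -/
theorem integrable_prod_scal {G : Type*} [NormedAddCommGroup G] [NormedSpace ℝ G] [CompleteSpace G]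
    {a b : ℝ} (ha : 0 < a) {c : EE N → ℝ} (hc : Continuous c)
    (hcc : HasCompactSupport c) {g : EE N → G} (hgm : StronglyMeasurable g)
    (hg : LocallyIntegrable g) :
    Integrable (fun p : ℝ × EE N => c p.2 • g (p.1 • p.2))
      ((volume.restrict (Ioc a b)).prod volume) := by
  have hm : StronglyMeasurable (fun p : ℝ × EE N => c p.2 • g (p.1 • p.2)) := by
    refine (hc.comp continuous_snd).stronglyMeasurable.smul ?_
    exact hgm.comp_measurable (by fun_prop)
  rw [integrable_prod_iff hm.aestronglyMeasurable]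
  obtain ⟨C, hC⟩ := hc.bounded_above_of_compact_support hcc
  obtain ⟨R, hR⟩ := (hcc.isCompact.isBounded).subset_closedBall (0 : EE N)
  have hint : ∀ s : ℝ, 0 < s → Integrable (fun x : EE N => c x • g (s • x)) := by
    intro s hs
    have := LI_dil (a := fun _ : Fin N => s) (fun _ => hs.ne') (hg) 
    simp only [dil_const] at this
    exact this.integrable_smul_left_of_hasCompactSupport hc hcc
  constructor
  · filter_upwards [ae_restrict_mem measurableSet_Ioc] with s hs
    exact hint s (ha.trans hs.1)
  · have hb : IntegrableOn g (Metric.closedBall 0 (b * R)) :=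
      hg.integrableOn_isCompact (isCompact_closedBall _ _)
    refine Measure.integrableOn_of_bounded (s := Ioc a b) (by simp)
      (M := C * ((a ^ N)⁻¹ * ∫ y in Metric.closedBall (0 : EE N) (b * R), ‖g y‖)) ?_ ?_
    · exact (hm.norm.integral_prod_right).aestronglyMeasurable
    · filter_upwards [ae_restrict_mem measurableSet_Ioc] with s hs
      have hs0 : 0 < s := ha.trans hs.1
      have hC0 : 0 ≤ C := (norm_nonneg _).trans (hC 0)
      have e1 : ∀ x : EE N, ‖c x • g (s • x)‖ ≤
          C * (Metric.closedBall (0 : EE N) (b * R)).indicator (fun y => ‖g y‖) (s • x) := by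
        intro x
        by_cases hx : c x = 0
        · rw [hx, zero_smul, norm_zero]
          refine mul_nonneg hC0 (indicator_nonneg (fun _ _ => norm_nonneg _) _)
        · have hx1 : x ∈ Metric.closedBall (0 : EE N) R := hR (subset_tsupport _ hx)
          have hx2 : s • x ∈ Metric.closedBall (0 : EE N) (b * R) := by
            rw [mem_closedBall_zero_iff] at hx1 ⊢
            rw [norm_smul, Real.norm_eq_abs, abs_of_pos hs0]
            exact mul_le_mul hs.2 hx1 (norm_nonneg _) (hs0.le.trans hs.2)
          rw [indicator_of_mem hx2, norm_smul]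
          exact mul_le_mul_of_nonneg_right (hC x) (norm_nonneg _)
      have e2 := integral_dil (a := fun _ : Fin N => s) (fun _ => hs0.ne')
        ((Metric.closedBall (0 : EE N) (b * R)).indicator (fun y => ‖g y‖))
      rw [cst_const hs0, integral_indicator measurableSet_closedBall] at e2
      simp only [dil_const] at e2
      have e3 : Integrable (fun x : EE N =>
          (Metric.closedBall (0 : EE N) (b * R)).indicator (fun y => ‖g y‖) (s • x)) := by
        rw [integrable_comp_smul_iff _ _ hs0.ne']
        exact (integrable_indicator_iff measurableSet_closedBall).2 hb.norm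
      rw [Real.norm_of_nonneg (integral_nonneg fun x => norm_nonneg _)]
      calc ∫ x : EE N, ‖c x • g (s • x)‖
          ≤ ∫ x : EE N, C * (Metric.closedBall (0 : EE N) (b * R)).indicator
              (fun y => ‖g y‖) (s • x) :=
            integral_mono (hint s hs0).norm (e3.const_mul C) e1
        _ = C * ((s ^ N)⁻¹ * ∫ y in Metric.closedBall (0 : EE N) (b * R), ‖g y‖) := by
            rw [integral_const_mul, e2, smul_eq_mul]
        _ ≤ C * ((a ^ N)⁻¹ * ∫ y in Metric.closedBall (0 : EE N) (b * R), ‖g y‖) := by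
            refine mul_le_mul_of_nonneg_left ?_ hC0
            refine mul_le_mul_of_nonneg_right ?_ (integral_nonneg fun _ => norm_nonneg _)
            exact inv_anti₀ (pow_pos ha _) (pow_le_pow_left₀ ha.le hs.1.le _)

/-- radial homotopy operator -/
noncomputable def KK (a b : ℝ) (g : EE N → VV N (q + 1) F) (x : EE N) : VV N q F :=
  ∫ s in Ioc a b, s ^ q • ctr N q F x (g (s • x))

theorem KK_pair_integrable_aux {G : Type*} [NormedAddCommGroup G] [NormedSpace ℝ G]
    [CompleteSpace G] {a b : ℝ} (ha : 0 < a) {c : EE N → ℝ} (hc : Continuous c)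
    (hcc : HasCompactSupport c) {g : EE N → G} (hgm : StronglyMeasurable g)
    (hg : LocallyIntegrable g) (l : Fin N) :
    Integrable (fun p : ℝ × EE N => p.1 ^ q • ((p.2 l * c p.2) • g (p.1 • p.2)))
      ((volume.restrict (Ioc a b)).prod volume) := by
  have h2 : Integrable (fun p : ℝ × EE N => (p.2 l * c p.2) • g (p.1 • p.2))
      ((volume.restrict (Ioc a b)).prod volume) :=
    integrable_prod_scal ha (c := fun x => x l * c x) (by fun_prop) (hcc.mul_left) hgm hg
  have h3 : ∀ᵐ p : ℝ × EE N ∂((volume.restrict (Ioc a b)).prod volume), p.1 ∈ Ioc a b := by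
    have h3 : ∀ᵐ s ∂(volume.restrict (Ioc a b)), s ∈ Ioc a b :=
      ae_restrict_mem measurableSet_Ioc
    exact Measure.quasiMeasurePreserving_fst.ae h3
  have h4 : ∀ᵐ p : ℝ × EE N ∂((volume.restrict (Ioc a b)).prod volume),
      ‖p.1 ^ q‖ ≤ max |a| |b| ^ q := by
    filter_upwards [h3] with p hp
    rw [norm_pow, Real.norm_eq_abs]
    refine pow_le_pow_left₀ (abs_nonneg _) ?_ _
    rw [abs_of_pos (ha.trans hp.1)]
    exact hp.2.trans ((le_abs_self b).trans (le_max_right _ _))
  exact Integrable.bdd_smul (φ := fun p : ℝ × EE N => p.1 ^ q) h2 _ (by fun_prop) h4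

/-- the integrand of the homotopy operator after pairing with `c` -/
theorem KK_pair_integrable {a b : ℝ} (ha : 0 < a) {c : EE N → ℝ} (hc : Continuous c)
    (hcc : HasCompactSupport c) {g : EE N → VV N (q + 1) F} (hgm : StronglyMeasurable g)
    (hg : LocallyIntegrable g) :
    Integrable (fun p : ℝ × EE N => c p.2 • (p.1 ^ q • ctr N q F p.2 (g (p.1 • p.2))))
      ((volume.restrict (Ioc a b)).prod volume) := by
  have h1 : ∀ p : ℝ × EE N, c p.2 • (p.1 ^ q • ctr N q F p.2 (g (p.1 • p.2))) =
      ∑ l, ctr N q F (ev l) ((p.1 ^ q) • ((p.2 l * c p.2) • g (p.1 • p.2))) := by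
    intro p
    rw [ctr_sum p.2, Finset.smul_sum, Finset.smul_sum]
    refine Finset.sum_congr rfl fun l _ => ?_
    rw [map_smul, map_smul, smul_smul, smul_smul, smul_smul]
    congr 1
    ring
  have h6 : ∀ l, Integrable (fun p : ℝ × EE N =>
      ctr N q F (ev l) ((p.1 ^ q) • ((p.2 l * c p.2) • g (p.1 • p.2))))
      ((volume.restrict (Ioc a b)).prod volume) := by
    intro l
    exact int_clm (ctr N q F (ev l)) (KK_pair_integrable_aux ha hc hcc hgm hg l)
  simp only [h1]
  exact int_sum h6

theorem II_KK {a b : ℝ} (ha : 0 < a) {U : Set (EE N)} {c : EE N → ℝ} (hc : Tst U c)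
    {g : EE N → VV N (q + 1) F} (hgm : StronglyMeasurable g)
    (hg : LocallyIntegrable g) :
    II c (KK a b g) =
      ∫ s in Ioc a b, s⁻¹ • ∑ l, ctr N q F (ev l) (II (fun x => x l * c x) (pbs s g)) := by
  have h0 : II c (KK a b g) =
      ∫ x, ∫ s in Ioc a b, c x • (s ^ q • ctr N q F x (g (s • x))) := by
    unfold II KK
    congr 1
    ext1 x
    rw [integral_smul]
  rw [h0, integral_integral_swap]
  · refine setIntegral_congr_fun measurableSet_Ioc fun s hs => ?_
    have hs0 : 0 < s := ha.trans hs.1
    have hl : ∀ l, Tst U (fun x : EE N => x l * c x) := fun l => hc.mul (by fun_prop)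
    have hi : ∀ l, Integrable (fun x : EE N => (x l * c x) • pbs s g x) :=
      fun l => (hl l).integrable (LI_pbs hs0 hg)
    have e1 : ∀ x : EE N, c x • (s ^ q • ctr N q F x (g (s • x))) =
        ∑ l, s⁻¹ • ctr N q F (ev l) ((x l * c x) • pbs s g x) := by
      intro x
      rw [ctr_sum x, Finset.smul_sum, Finset.smul_sum]
      refine Finset.sum_congr rfl fun l _ => ?_
      unfold pbs
      rw [map_smul, map_smul, smul_smul, smul_smul, smul_smul, smul_smul]
      congr 1
      field_simp
      ring
    beta_reduce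
    simp only [e1]
    rw [integral_sum' (fun l => int_smul _ (int_clm _ (hi l)))]
    rw [Finset.smul_sum]
    refine Finset.sum_congr rfl fun l _ => ?_
    rw [integral_smul, ContinuousLinearMap.integral_comp_comm _ (hi l)]
    rfl
  · exact (KK_pair_integrable ha hc.smooth.continuous hc.cpt hgm hg).swap

end Pool.Agent.H92
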