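import Pool.Agent.H92.Hartogs.Ftc

set_option autoImplicit false
set_option linter.unusedSectionVars false

open MeasureTheory Set Filter Topology
open scoped ContDiff ENNReal

namespace Pool.Agent.H92

variable {N q : ℕ} {F : Type*} [NormedAddCommGroup F] [NormedSpace ℝ F] [CompleteSpace F]

theorem int_II_pbs {a b : ℝ} (ha : 0 < a) {U : Set (EE N)} {c : EE N → ℝ} (hc : Tst U c)
    {g : EE N → VV N q F} (hgm : StronglyMeasurable g) (hg : LocallyIntegrable g) :
    IntegrableOn (fun s => s⁻¹ • II c (pbs s g)) (Ioc a b) := by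
  have h1 := (integrable_prod_scal (a := a) (b := b) ha hc.smooth.continuous hc.cpt hgm
    hg).integral_prod_left
  have h2 : IntegrableOn (fun s => ∫ x : EE N, c x • g (s • x)) (Ioc a b) := h1
  have h3 : ContinuousOn (fun s : ℝ => s⁻¹ * s ^ q) (Icc a b) := by
    refine ContinuousOn.mul ?_ (by fun_prop)
    exact continuousOn_inv₀.mono fun s hs => (ha.trans_le hs.1).ne'
  have h4 := h2.continuousOn_smul_of_subset h3 isCompact_Icc measurableSet_Ioc Ioc_subset_Icc_self
  refine h4.congr_fun ?_ measurableSet_Ioc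
  intro s _
  have : ∀ x : EE N, c x • pbs s g x = s ^ q • (c x • g (s • x)) := by
    intro x
    unfold pbs
    rw [smul_comm]
  simp only [II, this]
  rw [integral_smul, smul_smul]

theorem pd_coord_mul {η : EE N → ℝ} (h : ContDiff ℝ ∞ η) (k l : Fin N) (x : EE N) :
    pd k (fun x => x l * η x) x = x l * pd k η x + (if l = k then (1 : ℝ) else 0) * η x := by
  have h1 : ContDiff ℝ ∞ (fun x : EE N => x l) := by fun_prop
  rw [pd_mul h h1]
  congr 2
  have h2 : HasFDerivAt (fun x : EE N => x l) (ec l) x := (ec l).hasFDerivAt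
  unfold pd
  rw [h2.fderiv, ec_ev]

theorem homot_alg {W : Set (EE N)} {g : EE N → VV N (q + 1) F} {h : EE N → VV N (q + 2) F}
    (hw : WD W g h) (hg : LocallyIntegrable g) {η : EE N → ℝ} (hη : Tst W η) :
    ∑ k, wdgL N q F (ec k) (∑ l, ctr N q F (ev l) (II (fun x => x l * pd k η x) g)) =
      (∑ k, II (fun x => x k * pd k η x) g + ((N : ℝ) - (q + 1 : ℕ)) • II η g) +
        ∑ l, ctr N (q + 1) F (ev l) (II (fun x => x l * η x) h) := by
  have e1 : ∀ k l : Fin N, wdgL N q F (ec k) (ctr N q F (ev l)
      (II (fun x => x l * pd k η x) g)) =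
      (if k = l then II (fun x => x l * pd k η x) g else 0) -
        ctr N (q + 1) F (ev l) (wdgL N (q + 1) F (ec k) (II (fun x => x l * pd k η x) g)) := by
    intro k l
    rw [ctr_wdgL, ec_ev]
    split_ifs <;> simp
  have e2 : ∀ l, ∑ k, wdgL N (q + 1) F (ec k) (II (fun x => x l * pd k η x) g) =
      - II (fun x => x l * η x) h - wdgL N (q + 1) F (ec l) (II η g) := by
    intro l
    have hl : Tst W (fun x : EE N => x l * η x) := hη.mul (by fun_prop)
    have h1 := hw _ hl
    have h2 : ∀ k, II (pd k fun x => x l * η x) g =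
        II (fun x => x l * pd k η x) g + (if l = k then II η g else 0) := by
      intro k
      have h3 : (pd k fun x => x l * η x) =
          fun x => x l * pd k η x + (if l = k then (1 : ℝ) else 0) * η x := by
        ext1 x
        exact pd_coord_mul hη.smooth k l x
      rw [h3, II_add_left ((hη.pd k).mul (by fun_prop)) (hη.mul contDiff_const) hg]
      split_ifs with hlk
      · simp
      · simp [II]
    simp only [h2, map_add, Finset.sum_add_distrib] at h1
    have h4 : ∑ k, wdgL N (q + 1) F (ec k) (if l = k then II η g else 0) =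
        wdgL N (q + 1) F (ec l) (II η g) := by
      rw [Finset.sum_eq_single l]
      · simp
      · intro k _ hk
        simp [hk.symm]
      · simp
    rw [h4] at h1
    rw [h1]
    abel
  have e3 : ∑ l, ctr N (q + 1) F (ev l) (wdgL N (q + 1) F (ec l) (II η g)) =
      ((N : ℝ) - (q + 1 : ℕ)) • II η g := by
    rw [sum_ctr_wdgL]
    push_cast
    rfl
  simp only [map_sum, e1, Finset.sum_sub_distrib]
  rw [Finset.sum_comm (f := fun k l => ctr N (q + 1) F (ev l)
    (wdgL N (q + 1) F (ec k) (II (fun x => x l * pd k η x) g)))]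
  simp only [← map_sum, e2, map_sub, map_neg, Finset.sum_sub_distrib, Finset.sum_neg_distrib, e3]
  simp only [Finset.sum_ite_eq, Finset.mem_univ, if_true]
  abel

/-- weak homotopy formula for radial homotopy operators -/
theorem WD.homot {U W : Set (EE N)} {a b : ℝ} (ha : 0 < a) (hab : a ≤ b)
    (hUW : ∀ s ∈ Icc a b, ∀ x ∈ W, s • x ∈ U)
    {g : EE N → VV N (q + 1) F} {h : EE N → VV N (q + 2) F} (hw : WD U g h)
    (hgm : StronglyMeasurable g) (hhm : StronglyMeasurable h)
    (hg : LocallyIntegrable g) (hh : LocallyIntegrable h) :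
    WD W (KK a b g) (fun x => pbs b g x - pbs a g x - KK a b h x) := by
  intro η hη
  have hb : 0 < b := ha.trans_le hab
  -- left-hand side
  have i1 : Integrable (fun x => η x • pbs b g x) := hη.integrable (LI_pbs hb hg)
  have i2 : Integrable (fun x => η x • pbs a g x) := hη.integrable (LI_pbs ha hg)
  have i3 : Integrable (fun x => η x • KK a b h x) := by
    have := (KK_pair_integrable (a := a) (b := b) ha hη.smooth.continuous hη.cpt hhm
      hh).integral_prod_right
    refine this.congr (Eventually.of_forall fun x => ?_)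
    simp only [KK, integral_smul]
  have L : II η (fun x => pbs b g x - pbs a g x - KK a b h x) =
      II η (pbs b g) - II η (pbs a g) - II η (KK a b h) := by
    have i12 : Integrable (fun x => η x • pbs b g x - η x • pbs a g x) := i1.sub i2
    unfold II
    simp only [smul_sub]
    rw [integral_sub i12 i3, integral_sub i1 i2]
  rw [L, II_pbs_sub hη ha hab hgm hg, II_KK ha hη hhm hh]
  -- right-hand side
  have R : ∀ k, II (pd k η) (KK a b g) = ∫ s in Ioc a b,
      s⁻¹ • ∑ l, ctr N q F (ev l) (II (fun x => x l * pd k η x) (pbs s g)) :=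
    fun k => II_KK ha (hη.pd k) hgm hg
  have j0 : ∀ k l, IntegrableOn (fun s => s⁻¹ • II (fun x => x l * pd k η x) (pbs s g))
      (Ioc a b) := fun k l => int_II_pbs ha ((hη.pd k).mul (by fun_prop)) hgm hg
  have j1 : ∀ k, IntegrableOn (fun s =>
      s⁻¹ • ∑ l, ctr N q F (ev l) (II (fun x => x l * pd k η x) (pbs s g))) (Ioc a b) := by
    intro k
    have : ∀ s : ℝ, s⁻¹ • ∑ l, ctr N q F (ev l) (II (fun x => x l * pd k η x) (pbs s g)) =
        ∑ l, ctr N q F (ev l) (s⁻¹ • II (fun x => x l * pd k η x) (pbs s g)) := by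
      intro s
      rw [Finset.smul_sum]
      simp only [map_smul]
    simp only [this]
    exact int_sum fun l => int_clm _ (j0 k l)
  have j2 : IntegrableOn (fun s => s⁻¹ • (∑ k, II (fun x => x k * pd k η x) (pbs s g) +
        ((N : ℝ) - (q + 1 : ℕ)) • II η (pbs s g))) (Ioc a b) := by
    have : ∀ s : ℝ, s⁻¹ • (∑ k, II (fun x => x k * pd k η x) (pbs s g) +
        ((N : ℝ) - (q + 1 : ℕ)) • II η (pbs s g)) =
        ∑ k, s⁻¹ • II (fun x => x k * pd k η x) (pbs s g) +
          ((N : ℝ) - (q + 1 : ℕ)) • (s⁻¹ • II η (pbs s g)) := by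
      intro s
      rw [smul_add, Finset.smul_sum, smul_comm]
    simp only [this]
    exact (int_sum fun k => j0 k k).add (int_smul _ (int_II_pbs ha hη hgm hg))
  have j3 : IntegrableOn (fun s =>
      s⁻¹ • ∑ l, ctr N (q + 1) F (ev l) (II (fun x => x l * η x) (pbs s h))) (Ioc a b) := by
    have : ∀ s : ℝ, s⁻¹ • ∑ l, ctr N (q + 1) F (ev l) (II (fun x => x l * η x) (pbs s h)) =
        ∑ l, ctr N (q + 1) F (ev l) (s⁻¹ • II (fun x => x l * η x) (pbs s h)) := by
      intro s
      rw [Finset.smul_sum]
      simp only [map_smul]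
    simp only [this]
    exact int_sum fun l => int_clm _ (int_II_pbs ha (hη.mul (by fun_prop)) hhm hh)
  simp only [R]
  have R2 : ∀ k, wdgL N q F (ec k) (∫ s in Ioc a b,
      s⁻¹ • ∑ l, ctr N q F (ev l) (II (fun x => x l * pd k η x) (pbs s g))) =
      ∫ s in Ioc a b, wdgL N q F (ec k) (s⁻¹ • ∑ l, ctr N q F (ev l)
        (II (fun x => x l * pd k η x) (pbs s g))) := by
    intro k
    rw [ContinuousLinearMap.integral_comp_comm _ (j1 k)]
  simp only [R2]
  rw [← integral_sum' (fun k => int_clm _ (j1 k)), ← neg_add', ← integral_add j2 j3]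
  congr 1
  refine setIntegral_congr_fun measurableSet_Ioc fun s hs => ?_
  have hs0 : 0 < s := ha.trans hs.1
  have hws : WD W (pbs s g) (pbs s h) := by
    refine (hw.scal hg hh hs0).mono ?_
    intro x hx
    exact hUW s ⟨hs.1.le, hs.2⟩ x hx
  have := homot_alg hws (LI_pbs hs0 hg) hη
  beta_reduce
  simp only [map_smul]
  rw [← Finset.smul_sum, this]
  simp only [smul_add]

end Pool.Agent.H92
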