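import Pool.Agent.H92.Hartogs.Cut

set_option autoImplicit false
set_option linter.unusedSectionVars false

open MeasureTheory Set Filter Topology
open scoped ContDiff ENNReal

namespace Pool.Agent.H92

variable {N q : ℕ} {F : Type*} [NormedAddCommGroup F] [NormedSpace ℝ F] [CompleteSpace F]

theorem sm_bilin {A B C : Type*} [NormedAddCommGroup A] [NormedSpace ℝ A]
    [NormedAddCommGroup B] [NormedSpace ℝ B] [NormedAddCommGroup C] [NormedSpace ℝ C]
    {X : Type*} [MeasurableSpace X]
    (L : A →L[ℝ] B →L[ℝ] C) {u : X → A} {v : X → B} (hu : StronglyMeasurable u)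
    (hv : StronglyMeasurable v) : StronglyMeasurable (fun x => L (u x) (v x)) := by
  have h : Continuous (fun p : A × B => L p.1 p.2) := by fun_prop
  exact h.comp_stronglyMeasurable (hu.prodMk hv)

theorem sm_wdg {χ : EE N → ℝ} (hχ : ContDiff ℝ ∞ χ) {g : EE N → VV N q F}
    (hg : StronglyMeasurable g) :
    StronglyMeasurable (fun x => wdgL N q F (fderiv ℝ χ x) (g x)) :=
  sm_bilin _ (hχ.continuous_fderiv (by simp)).stronglyMeasurable hg

theorem LI_fsum {G : Type*} [NormedAddCommGroup G] {ι : Type*} [Fintype ι]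
    {f : ι → EE N → G} (h : ∀ i, LocallyIntegrable (f i)) :
    LocallyIntegrable (fun x => ∑ i, f i x) :=
  locallyIntegrable_finsetSum _ fun i _ => h i

theorem LI_wdg {χ : EE N → ℝ} (hχ : ContDiff ℝ ∞ χ) {g : EE N → VV N q F}
    (hg : LocallyIntegrable g) :
    LocallyIntegrable (fun x => wdgL N q F (fderiv ℝ χ x) (g x)) := by
  have e : (fun x => wdgL N q F (fderiv ℝ χ x) (g x)) =
      fun x => ∑ l, pd l χ x • wdgL N q F (ec l) (g x) := by
    ext1 x
    rw [wdgL_sum]
    rfl
  rw [e]
  exact LI_fsum fun l => LI_smul (contDiff_pd hχ l).continuous (LI_clm _ hg)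

theorem sm_KK (a b : ℝ) {g : EE N → VV N (q + 1) F} (hg : StronglyMeasurable g) :
    StronglyMeasurable (KK a b g) := by
  have hL : StronglyMeasurable (fun p : EE N × ℝ => p.2 ^ q • ctr N q F p.1 (g (p.2 • p.1))) := by
    have h1 : StronglyMeasurable (fun p : EE N × ℝ => g (p.2 • p.1)) :=
      hg.comp_measurable (by fun_prop)
    have h2 : StronglyMeasurable (fun p : EE N × ℝ => ctr N q F p.1 (g (p.2 • p.1))) := by
      have h3 : StronglyMeasurable (fun p : EE N × ℝ => p.1) :=
        measurable_fst.stronglyMeasurable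
      exact sm_bilin (ContinuousLinearMap.flip
        (ContinuousAlternatingMap.curryLeftLI (𝕜 := ℝ) (E := EE N) (F := F)
          (n := q)).toContinuousLinearMap) h3 h1
    have h4 : StronglyMeasurable (fun p : EE N × ℝ => p.2 ^ q) :=
      (measurable_snd.pow_const q).stronglyMeasurable
    exact h4.smul h2
  exact hL.integral_prod_right

theorem LI_KK {a b : ℝ} (ha : 0 < a) {g : EE N → VV N (q + 1) F} (hgm : StronglyMeasurable g)
    (hg : LocallyIntegrable g) : LocallyIntegrable (KK a b g) := by
  rw [locallyIntegrable_iff]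
  intro K hK
  obtain ⟨θ, hθ, h0, h1⟩ := exists_cutoff (s := (Metric.thickening 1 K)ᶜ) (t := K)
    Metric.isOpen_thickening.isClosed_compl hK.isClosed (by
      rw [Set.disjoint_left]
      intro x hx hxK
      exact hx (Metric.self_subset_thickening one_pos K hxK))
  have hcpt : HasCompactSupport θ := by
    refine HasCompactSupport.intro (hK.isBounded.cthickening (δ := 1)).isCompact_closure ?_
    intro x hx
    refine h0.self_of_nhdsSet x ?_
    intro hx2
    exact hx (subset_closure (Metric.thickening_subset_cthickening _ _ hx2))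
  have h2 := (KK_pair_integrable (a := a) (b := b) ha hθ.continuous hcpt hgm
      hg).integral_prod_right
  have h3 : Integrable (fun x => θ x • KK a b g x) := by
    refine h2.congr (Eventually.of_forall fun x => ?_)
    simp only [KK, integral_smul]
  refine (h3.integrableOn (s := K)).congr_fun ?_ hK.measurableSet
  intro x hx
  have : θ x = 1 := h1.self_of_nhdsSet x hx
  simp only [this, one_smul]

theorem KK_neg (a b : ℝ) (g : EE N → VV N (q + 1) F) (x : EE N) :
    KK a b (fun y => - g y) x = - KK a b g x := by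
  unfold KK
  rw [← integral_neg]
  congr 1
  ext1 s
  rw [map_neg, smul_neg]

theorem norm_ctr_le (x : EE N) (f : VV N (q + 1) F) : ‖ctr N q F x f‖ ≤ ‖x‖ * ‖f‖ := by
  rw [ctr_apply, mul_comm]
  have h := (f.curryLeft).le_opNorm x
  rwa [ContinuousAlternatingMap.norm_curryLeft] at h

theorem norm_wdgL_le (ℓ : EE N →L[ℝ] ℝ) (f : VV N q F) :
    ‖wdgL N q F ℓ f‖ ≤ (q + 1) * (‖ℓ‖ * ‖f‖) := by
  rw [wdgL_eq]
  refine (ContinuousAlternatingMap.norm_alternatizeUncurryFin_le _).trans ?_
  refine mul_le_mul_of_nonneg_left ?_ (by positivity)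
  exact (ContinuousLinearMap.norm_smulRight_apply ℓ f).le

end Pool.Agent.H92
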