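import Pool.Agent.H92.Hartogs.L2b

set_option autoImplicit false
set_option linter.unusedSectionVars false

open MeasureTheory Set Filter Topology
open scoped ContDiff ENNReal Convolution

namespace Pool.Agent.H92

variable {N q : ℕ} {F : Type*} [NormedAddCommGroup F] [NormedSpace ℝ F] [CompleteSpace F]

theorem clm_tendsto {G H : Type*} [NormedAddCommGroup G] [NormedSpace ℝ G]
    [NormedAddCommGroup H] [NormedSpace ℝ H] {ι : Type*} {l : Filter ι} {L : ι → G →L[ℝ] H}
    {L₀ : G →L[ℝ] H} {x : ι → G} {x₀ : G} (h1 : Tendsto L l (𝓝 L₀)) (h2 : Tendsto x l (𝓝 x₀)) :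
    Tendsto (fun i => L i (x i)) l (𝓝 (L₀ x₀)) := by
  have h3 : Continuous (fun p : (G →L[ℝ] H) × G => p.1 p.2) := by fun_prop
  exact (h3.tendsto (L₀, x₀)).comp (h1.prodMk_nhds h2)

theorem enorm0 {G : Type*} [NormedAddCommGroup G] : ‖(0 : G)‖ₑ = 0 := enorm_zero

theorem tendsto_enorm_sq {G : Type*} [NormedAddCommGroup G] {ι : Type*} {l : Filter ι} {f : ι → G}
    {y : G} (h : Tendsto f l (𝓝 y)) : Tendsto (fun n => ‖f n - y‖ₑ ^ 2) l (𝓝 0) := by
  have h1 : Tendsto (fun n => f n - y) l (𝓝 0) := by
    have := h.sub_const y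
    simpa using this
  have h2 := (continuous_enorm.tendsto _).comp h1
  have h3 := ((ENNReal.continuous_pow 2).tendsto _).comp h2
  simpa [Function.comp_def] using h3

/-- `dil` as a linear map of the coefficients -/
noncomputable def dilL (N : ℕ) : (Fin N → ℝ) →ₗ[ℝ] (EE N →L[ℝ] EE N) where
  toFun := dil
  map_add' a b := by
    ext x i
    simp [add_mul]
  map_smul' c a := by
    ext x i
    simp [mul_assoc]

theorem continuous_dil : Continuous (dil : (Fin N → ℝ) → (EE N →L[ℝ] EE N)) :=
  (dilL N).continuous_of_finiteDimensional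

theorem dil_one' : (dil (fun _ => (1 : ℝ)) : EE N →L[ℝ] EE N) = ContinuousLinearMap.id ℝ _ := by
  ext x i
  simp

theorem norm_dil_le {a : Fin N → ℝ} (ha : ∀ i, |a i| ≤ 1) (x : EE N) : ‖dil a x‖ ≤ ‖x‖ := by
  rw [EuclideanSpace.norm_eq, EuclideanSpace.norm_eq]
  refine Real.sqrt_le_sqrt (Finset.sum_le_sum fun i _ => ?_)
  rw [dil_apply, norm_mul, Real.norm_eq_abs (a i)]
  exact pow_le_pow_left₀ (by positivity) (mul_le_of_le_one_left (norm_nonneg _) (ha i)) 2

theorem le_norm_dil {a : Fin N → ℝ} (ha : ∀ i, 1 / 2 ≤ a i) (x : EE N) :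
    ‖x‖ ≤ 2 * ‖dil a x‖ := by
  have h2 : (2 : ℝ) * ‖dil a x‖ = ‖(2 : ℝ) • dil a x‖ := by
    rw [norm_smul]
    norm_num
  rw [h2, EuclideanSpace.norm_eq, EuclideanSpace.norm_eq]
  refine Real.sqrt_le_sqrt (Finset.sum_le_sum fun i _ => ?_)
  have h3 : ((2 : ℝ) • dil a x) i = 2 * (a i * x i) := by simp
  rw [h3, norm_mul, norm_mul]
  refine pow_le_pow_left₀ (norm_nonneg _) ?_ 2
  have h4 : (1 : ℝ) ≤ ‖(2 : ℝ)‖ * ‖a i‖ := by
    rw [Real.norm_eq_abs (a i), abs_of_pos (by linarith [ha i])]
    norm_num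
    linarith [ha i]
  calc ‖x i‖ = 1 * ‖x i‖ := (one_mul _).symm
    _ ≤ (‖(2 : ℝ)‖ * ‖a i‖) * ‖x i‖ := mul_le_mul_of_nonneg_right h4 (norm_nonneg _)
    _ = _ := by ring

theorem norm_cpl_le {a : Fin N → ℝ} (ha : ∀ i, |a i| ≤ 1) (f : VV N q F) :
    ‖cpl q F (dil a) f‖ ≤ ‖f‖ := by
  have h1 : ‖dil a‖ ≤ 1 := ContinuousLinearMap.opNorm_le_bound _ zero_le_one (fun x => by
    rw [one_mul]
    exact norm_dil_le ha x)
  have h2 : ‖cpl q F (dil a) f‖ ≤ ‖f‖ * ‖dil a‖ ^ (Fintype.card (Fin q)) := 
    f.norm_compContinuousLinearMap_le (dil a)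
  refine h2.trans ?_
  exact mul_le_of_le_one_right (norm_nonneg _) (pow_le_one₀ (norm_nonneg _) h1)

theorem continuous_cst : Tendsto (fun a : Fin N → ℝ => cst a) (𝓝 (fun _ => 1)) (𝓝 1) := by
  have h : ContinuousAt (fun a : Fin N → ℝ => cst a) (fun _ => 1) := by
    unfold cst
    refine ContinuousAt.abs (ContinuousAt.inv₀ ?_ ?_)
    · exact (continuous_finsetProd _ fun i _ => continuous_apply i).continuousAt
    · simp
  have h1 : cst (fun _ : Fin N => (1 : ℝ)) = 1 := by simp [cst]
  rw [ContinuousAt, h1] at h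
  exact h

theorem pb_tendsto {a : ℕ → Fin N → ℝ} (ha : Tendsto a atTop (𝓝 (fun _ => 1)))
    (ha0 : ∀ n i, 1 / 2 ≤ a n i) (ha1 : ∀ n i, a n i ≤ 1)
    {u : EE N → VV N q F} (hu : MemLp u 2 volume) :
    Tendsto (fun n => eLpNorm (fun x => pb (a n) u x - u x) 2 volume) atTop (𝓝 0) := by
  have hne : ∀ n i, a n i ≠ 0 := fun n i => by linarith [ha0 n i]
  have habs : ∀ n i, |a n i| ≤ 1 := fun n i => by
    rw [abs_of_pos (by linarith [ha0 n i])]
    exact ha1 n i
  refine approx_principle (fun n u => pb (a n) u) 2 (by simp) ?_ ?_ ?_ hu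
  · intro n u hu
    exact (LI_pb (hne n) (hu.locallyIntegrable (by norm_num))).aestronglyMeasurable
  · have hc : ∀ᶠ n in atTop, cst (a n) < 2 :=
      (continuous_cst.comp ha).eventually (gt_mem_nhds (by norm_num))
    filter_upwards [hc] with n hn u v hu hv
    have h1 : eLpNorm (fun x => pb (a n) u x - pb (a n) v x) 2 volume ^ 2 ≤
        (2 * eLpNorm (fun x => u x - v x) 2 volume) ^ 2 := by
      rw [eL2, mul_pow, eL2]
      calc ∫⁻ x, ‖pb (a n) u x - pb (a n) v x‖ₑ ^ 2
          ≤ ∫⁻ x, (fun y => ‖u y - v y‖ₑ ^ 2) (dil (a n) x) := by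
            refine lintegral_mono fun x => ?_
            have h2 : pb (a n) u x - pb (a n) v x =
                cpl q F (dil (a n)) (u (dil (a n) x) - v (dil (a n) x)) := by
              unfold pb
              rw [map_sub]
            rw [h2]
            have h3 : ‖cpl q F (dil (a n)) (u (dil (a n) x) - v (dil (a n) x))‖ₑ ≤
                ‖u (dil (a n) x) - v (dil (a n) x)‖ₑ := by
              rw [← ofReal_norm, ← ofReal_norm]
              exact ENNReal.ofReal_le_ofReal (norm_cpl_le (habs n) _)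
            exact pow_le_pow_left' h3 2
        _ = ENNReal.ofReal (cst (a n)) * ∫⁻ y, ‖u y - v y‖ₑ ^ 2 :=
            lintegral_dil (hne n) (fun y => ‖u y - v y‖ₑ ^ 2)
        _ ≤ 2 ^ 2 * ∫⁻ y, ‖u y - v y‖ₑ ^ 2 := by
            refine mul_le_mul_left ?_ _
            calc ENNReal.ofReal (cst (a n)) ≤ ENNReal.ofReal 4 :=
                  ENNReal.ofReal_le_ofReal (by linarith)
              _ = 2 ^ 2 := by
                  rw [show (4 : ℝ) = 2 ^ 2 by norm_num, ENNReal.ofReal_pow (by norm_num)]
                  norm_num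
    exact (ENNReal.pow_le_pow_left_iff two_ne_zero).1 h1
  · intro φ hφ hφc
    obtain ⟨M, hM⟩ := hφ.bounded_above_of_compact_support hφc
    obtain ⟨R, hR⟩ := (hφc.isCompact.isBounded).subset_closedBall (0 : EE N)
    set B : Set (EE N) := Metric.closedBall 0 (2 * |R|) with hB
    have hBfin : volume B ≠ ⊤ := (isCompact_closedBall _ _).measure_ne_top
    have hM0 : 0 ≤ M := (norm_nonneg _).trans (hM 0)
    have hpt : ∀ x, Tendsto (fun n => pb (a n) φ x) atTop (𝓝 (φ x)) := by
      intro x
      have h1 : Tendsto (fun n => dil (a n)) atTop (𝓝 (ContinuousLinearMap.id ℝ (EE N))) := by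
        rw [← dil_one']
        exact (continuous_dil.tendsto _).comp ha
      have h2 : Tendsto (fun n => cpl q F (dil (a n))) atTop
          (𝓝 (cpl q F (ContinuousLinearMap.id ℝ (EE N)))) :=
        ((ContinuousAlternatingMap.continuous_compContinuousLinearMapCLM).tendsto _).comp h1
      have h3 : Tendsto (fun n => φ (dil (a n) x)) atTop (𝓝 (φ x)) := by
        refine (hφ.tendsto x).comp ?_
        exact clm_tendsto h1 tendsto_const_nhds
      have h4 : Tendsto (fun n => cpl q F (dil (a n)) (φ (dil (a n) x))) atTop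
          (𝓝 (cpl q F (ContinuousLinearMap.id ℝ (EE N)) (φ x))) := clm_tendsto h2 h3
      have h5 : cpl q F (ContinuousLinearMap.id ℝ (EE N)) (φ x) = φ x := by
        ext v
        rfl
      rw [h5] at h4
      exact h4
    have hlim : Tendsto (fun n => ∫⁻ x, ‖pb (a n) φ x - φ x‖ₑ ^ 2) atTop
        (𝓝 (∫⁻ _ : EE N, 0)) := by
      refine tendsto_lintegral_of_dominated_convergence'
        (B.indicator fun _ => ENNReal.ofReal (2 * M) ^ 2) ?_ ?_ ?_ ?_
      · intro n
        have : AEStronglyMeasurable (pb (a n) φ) volume :=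
          (LI_pb (hne n) hφ.locallyIntegrable).aestronglyMeasurable
        exact (this.sub hφ.aestronglyMeasurable).enorm.pow_const _
      · intro n
        refine Eventually.of_forall fun x => ?_
        by_cases hx : x ∈ B
        · rw [indicator_of_mem hx]
          refine pow_le_pow_left' ?_ 2
          rw [← ofReal_norm]
          refine ENNReal.ofReal_le_ofReal ?_
          calc ‖pb (a n) φ x - φ x‖ ≤ ‖pb (a n) φ x‖ + ‖φ x‖ := norm_sub_le _ _
            _ ≤ M + M := add_le_add ((norm_cpl_le (habs n) _).trans (hM _)) (hM _)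
            _ = 2 * M := by ring
        · rw [indicator_of_notMem hx]
          have hx' : 2 * |R| < ‖x‖ := by
            rw [hB, mem_closedBall_zero_iff, not_le] at hx
            exact hx
          have h1 : φ x = 0 := by
            by_contra h0
            have := hR (subset_tsupport _ h0)
            rw [mem_closedBall_zero_iff] at this
            have h3 := le_abs_self R
            have h4 := abs_nonneg R
            linarith
          have h2 : φ (dil (a n) x) = 0 := by
            by_contra h0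
            have := hR (subset_tsupport _ h0)
            rw [mem_closedBall_zero_iff] at this
            have h3 := le_abs_self R
            have h4 := le_norm_dil (ha0 n) x
            linarith
          unfold pb
          beta_reduce
          rw [h1, h2, map_zero, sub_zero, enorm0]
          simp
      · rw [lintegral_indicator Metric.isClosed_closedBall.measurableSet]
        simp only [lintegral_const, Measure.restrict_apply, MeasurableSet.univ, univ_inter]
        exact ENNReal.mul_ne_top (ENNReal.pow_ne_top ENNReal.ofReal_ne_top) hBfin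
      · exact Eventually.of_forall fun x => tendsto_enorm_sq (hpt x)
    have h2 : Tendsto (fun n => eLpNorm (fun x => pb (a n) φ x - φ x) 2 volume ^ 2) atTop
        (𝓝 0) := by
      simp only [eL2]
      simpa using hlim
    rw [ENNReal.tendsto_nhds_zero] at h2 ⊢
    intro ε hε
    filter_upwards [h2 (ε ^ 2) (ENNReal.pow_pos hε 2)] with n hn
    exact (ENNReal.pow_le_pow_left_iff two_ne_zero).1 hn

end Pool.Agent.H92
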