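import Pool.Agent.H92.Hartogs.Glue

set_option autoImplicit false
set_option linter.unusedSectionVars false

open MeasureTheory Set Filter Topology
open scoped ContDiff ENNReal Convolution

namespace Pool.Agent.H92

variable {N q : ℕ} {F : Type*} [NormedAddCommGroup F] [NormedSpace ℝ F] [CompleteSpace F]

/-- mollification -/
noncomputable def mol {G : Type*} [NormedAddCommGroup G] [NormedSpace ℝ G]
    (ρ : EE N → ℝ) (g : EE N → G) : EE N → G :=
  (ρ ⋆[ContinuousLinearMap.lsmul ℝ ℝ, volume] g : EE N → G)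

theorem mol_eq {G : Type*} [NormedAddCommGroup G] [NormedSpace ℝ G]
    (ρ : EE N → ℝ) (g : EE N → G) (x : EE N) : mol ρ g x = ∫ t, ρ (x - t) • g t :=
  convolution_lsmul_swap

theorem mol_eq' {G : Type*} [NormedAddCommGroup G] [NormedSpace ℝ G]
    (ρ : EE N → ℝ) (g : EE N → G) (x : EE N) : mol ρ g x = ∫ t, ρ t • g (x - t) :=
  convolution_lsmul

theorem contDiff_mol {G : Type*} [NormedAddCommGroup G] [NormedSpace ℝ G] [CompleteSpace G]
    {ρ : EE N → ℝ} (hρ : ContDiff ℝ ∞ ρ) (hc : HasCompactSupport ρ)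
    {g : EE N → G} (hg : LocallyIntegrable g) : ContDiff ℝ ∞ (mol ρ g) :=
  hc.contDiff_convolution_left _ hρ hg

theorem alt_eq_sum (D : EE N →L[ℝ] VV N q F) :
    ContinuousAlternatingMap.alternatizeUncurryFin D = ∑ l, wdgL N q F (ec l) (D (ev l)) := by
  have h : D = ∑ l, (ec l).smulRight (D (ev l)) := by
    ext x v
    conv_lhs => rw [← sum_ev x]
    simp
  conv_lhs => rw [h]
  rw [← ContinuousAlternatingMap.alternatizeUncurryFinCLM_apply, _root_.map_sum]
  simp [wdgL_eq]

theorem fderiv_mol {G : Type*} [NormedAddCommGroup G] [NormedSpace ℝ G] [CompleteSpace G]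
    {ρ : EE N → ℝ} (hρ : ContDiff ℝ ∞ ρ) (hc : HasCompactSupport ρ)
    {g : EE N → G} (hg : LocallyIntegrable g) (x v : EE N) :
    fderiv ℝ (mol ρ g) x v = ∫ t, (fderiv ℝ ρ (x - t) v) • g t := by
  have h1 : HasFDerivAt (mol ρ g)
      ((fderiv ℝ ρ ⋆[(ContinuousLinearMap.lsmul ℝ ℝ).precompL (EE N), volume] g) x) x :=
    hc.hasFDerivAt_convolution_left _ (hρ.of_le (by simp)) hg x
  rw [h1.fderiv, convolution_eq_swap]
  have hI : Integrable (fun t => (((ContinuousLinearMap.lsmul ℝ ℝ).precompL (EE N))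
      (fderiv ℝ ρ (x - t))) (g t)) := by
    have := (hc.fderiv (𝕜 := ℝ)).convolutionExists_left
      ((ContinuousLinearMap.lsmul ℝ ℝ).precompL (EE N))
      (hρ.continuous_fderiv (by simp)) hg x
    exact (convolutionExistsAt_iff_integrable_swap).1 this
  rw [ContinuousLinearMap.integral_apply hI]
  rfl

theorem pd_sub {ρ : EE N → ℝ} (hρ : ContDiff ℝ ∞ ρ) (x t : EE N) (l : Fin N) :
    pd l (fun t => ρ (x - t)) t = - fderiv ℝ ρ (x - t) (ev l) := by
  have : HasFDerivAt (fun t => ρ (x - t)) ((fderiv ℝ ρ (x - t)) ∘L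
      (-(ContinuousLinearMap.id ℝ (EE N)))) t :=
    ((hρ.differentiable (by simp) _).hasFDerivAt).comp t
      ((hasFDerivAt_id t).const_sub x)
  unfold pd
  rw [this.fderiv]
  simp

theorem extDeriv_mol {U : Set (EE N)} {g : EE N → VV N q F} {h : EE N → VV N (q + 1) F}
    (hw : WD U g h) (hg : LocallyIntegrable g) 
    {ρ : EE N → ℝ} (hρ : ContDiff ℝ ∞ ρ) (hc : HasCompactSupport ρ) {x : EE N}
    (hx : ∀ t, x - t ∈ tsupport ρ → t ∈ U) :
    extDeriv (mol ρ g) x = mol ρ h x := by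
  have hη : Tst U (fun t => ρ (x - t)) := by
    refine ⟨hρ.comp (contDiff_const.sub contDiff_id), ?_, ?_⟩
    · exact hc.comp_homeomorph (Homeomorph.subLeft x)
    · intro t ht
      apply hx
      have : tsupport (fun t => ρ (x - t)) = (Homeomorph.subLeft x) ⁻¹' tsupport ρ :=
        tsupport_comp_eq_preimage ρ (Homeomorph.subLeft x)
      rw [this] at ht
      exact ht
  have h2 : ∀ l, fderiv ℝ (mol ρ g) x (ev l) = - II (pd l (fun t => ρ (x - t))) g := by
    intro l
    rw [fderiv_mol hρ hc hg]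
    unfold II
    rw [← integral_neg]
    congr 1
    ext1 t
    rw [pd_sub hρ, neg_smul, neg_neg]
  unfold extDeriv
  rw [alt_eq_sum]
  simp only [h2, map_neg, Finset.sum_neg_distrib]
  rw [← hw _ hη, mol_eq]
  rfl

end Pool.Agent.H92
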