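import Pool.Agent.H92.Hartogs.Weak

set_option autoImplicit false
set_option linter.unusedSectionVars false

open MeasureTheory Set Filter Topology
open scoped ContDiff ENNReal

namespace Pool.Agent.H92

variable {N q : ℕ} {F : Type*} [NormedAddCommGroup F] [NormedSpace ℝ F] [CompleteSpace F]

/-- diagonal linear map -/
noncomputable def dil (a : Fin N → ℝ) : EE N →L[ℝ] EE N :=
  LinearMap.toContinuousLinearMap
    { toFun := fun x => WithLp.toLp 2 (fun i => a i * x i)
      map_add' := by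
        intro x y
        ext i
        simp [mul_add]
      map_smul' := by
        intro c x
        ext i
        simp [mul_left_comm] }

@[simp] theorem dil_apply (a : Fin N → ℝ) (x : EE N) (i : Fin N) : dil a x i = a i * x i := rfl

theorem dil_dil (a b : Fin N → ℝ) (x : EE N) : dil a (dil b x) = dil (fun i => a i * b i) x := by
  ext i
  simp [mul_assoc]

theorem dil_one (x : EE N) : dil (fun _ => (1 : ℝ)) x = x := by
  ext i
  simp

theorem dil_const (s : ℝ) (x : EE N) : dil (fun _ => s) x = s • x := by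
  ext i
  simp

theorem dil_inv_dil {a : Fin N → ℝ} (ha : ∀ i, a i ≠ 0) (x : EE N) :
    dil (fun i => (a i)⁻¹) (dil a x) = x := by
  ext i
  simp [ha i]

theorem dil_dil_inv {a : Fin N → ℝ} (ha : ∀ i, a i ≠ 0) (x : EE N) :
    dil a (dil (fun i => (a i)⁻¹) x) = x := by
  ext i
  simp [ha i]

theorem dil_ev (a : Fin N → ℝ) (l : Fin N) : dil a (ev l) = a l • ev l := by
  ext i
  by_cases h : i = l
  · subst h
    simp [ev]
  · simp [ev, h]

/-- diagonal linear equivalence -/
noncomputable def dilE (a : Fin N → ℝ) (ha : ∀ i, a i ≠ 0) : EE N ≃L[ℝ] EE N :=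
  ContinuousLinearEquiv.equivOfInverse (dil a) (dil (fun i => (a i)⁻¹)) (dil_inv_dil ha)
    (dil_dil_inv ha)

@[simp] theorem dilE_apply (a : Fin N → ℝ) (ha : ∀ i, a i ≠ 0) (x : EE N) :
    dilE a ha x = dil a x := rfl

theorem det_dil (a : Fin N → ℝ) : LinearMap.det (dil a : EE N →ₗ[ℝ] EE N) = ∏ i, a i := by
  have h : (dil a : EE N →ₗ[ℝ] EE N) =
      Matrix.toLin (EuclideanSpace.basisFun (Fin N) ℝ).toBasis
        (EuclideanSpace.basisFun (Fin N) ℝ).toBasis (Matrix.diagonal a) := by
    apply (EuclideanSpace.basisFun (Fin N) ℝ).toBasis.ext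
    intro l
    rw [Matrix.toLin_self]
    have := dil_ev a l
    simp only [OrthonormalBasis.coe_toBasis, EuclideanSpace.basisFun_apply]
    rw [Finset.sum_eq_single l]
    · simpa [ev] using this
    · intro b _ hb
      simp [Matrix.diagonal_apply_ne _ hb]
    · simp
  rw [h, LinearMap.det_toLin, Matrix.det_diagonal]

/-- jacobian constant -/
noncomputable def cst (a : Fin N → ℝ) : ℝ := |(∏ i, a i)⁻¹|

theorem cst_pos {a : Fin N → ℝ} (ha : ∀ i, a i ≠ 0) : 0 < cst a := by
  unfold cst
  exact abs_pos.2 (inv_ne_zero (Finset.prod_ne_zero_iff.2 fun i _ => ha i))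

theorem map_dil {a : Fin N → ℝ} (ha : ∀ i, a i ≠ 0) :
    (volume : Measure (EE N)).map (dil a) = ENNReal.ofReal (cst a) • volume := by
  have := Measure.map_linearMap_addHaar_eq_smul_addHaar (volume : Measure (EE N))
    (f := (dil a : EE N →ₗ[ℝ] EE N))
    (by rw [det_dil]; exact Finset.prod_ne_zero_iff.2 fun i _ => ha i)
  rw [det_dil] at this
  exact this

theorem integral_dil {a : Fin N → ℝ} (ha : ∀ i, a i ≠ 0) (g : EE N → F) :
    ∫ x, g (dil a x) = cst a • ∫ y, g y := by
  have h1 : ∫ y, g y ∂((volume : Measure (EE N)).map (dil a)) = ∫ x, g (dil a x) :=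
    (dilE a ha).toHomeomorph.measurableEmbedding.integral_map g
  rw [← h1, map_dil ha, integral_smul_measure, ENNReal.toReal_ofReal (cst_pos ha).le]

theorem lintegral_dil {a : Fin N → ℝ} (ha : ∀ i, a i ≠ 0) (g : EE N → ℝ≥0∞) :
    ∫⁻ x, g (dil a x) = ENNReal.ofReal (cst a) * ∫⁻ y, g y := by
  have h1 : ∫⁻ y, g y ∂((volume : Measure (EE N)).map (dil a)) = ∫⁻ x, g (dil a x) :=
    (dilE a ha).toHomeomorph.measurableEmbedding.lintegral_map g
  rw [← h1, map_dil ha, lintegral_smul_measure, smul_eq_mul]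

theorem LI_dil {a : Fin N → ℝ} (ha : ∀ i, a i ≠ 0) {f : EE N → F} (hf : LocallyIntegrable f) :
    LocallyIntegrable (fun x => f (dil a x)) := by
  refine (locallyIntegrable_map_homeomorph (dilE a ha).toHomeomorph (f := f)).1 ?_
  have h1 : (volume : Measure (EE N)).map (dilE a ha).toHomeomorph =
      ENNReal.ofReal (cst a) • volume := map_dil ha
  rw [h1]
  intro x
  obtain ⟨s, hs, hi⟩ := hf x
  refine ⟨s, hs, ?_⟩
  unfold IntegrableOn
  rw [Measure.restrict_smul]
  exact Integrable.smul_measure hi ENNReal.ofReal_ne_top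

/-- pull back of forms by a linear map, on fibres -/
noncomputable def cpl (q : ℕ) (F : Type*) [NormedAddCommGroup F] [NormedSpace ℝ F]
    (A : EE N →L[ℝ] EE N) : VV N q F →L[ℝ] VV N q F :=
  ContinuousAlternatingMap.compContinuousLinearMapCLM A

theorem cpl_apply_apply (A : EE N →L[ℝ] EE N) (f : VV N q F) (v : Fin q → EE N) :
    cpl q F A f v = f (fun i => A (v i)) := rfl

theorem cpl_wdgL (A : EE N →L[ℝ] EE N) (ℓ : EE N →L[ℝ] ℝ) (f : VV N q F) :
    cpl (q + 1) F A (wdgL N q F ℓ f) = wdgL N q F (ℓ ∘L A) (cpl q F A f) := by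
  ext v
  rw [cpl_apply_apply, wdgL_apply, wdgL_apply]
  rfl

/-- pull back of a form by a diagonal map -/
noncomputable def pb (a : Fin N → ℝ) (f : EE N → VV N q F) (x : EE N) : VV N q F :=
  cpl q F (dil a) (f (dil a x))

theorem LI_pb {a : Fin N → ℝ} (ha : ∀ i, a i ≠ 0) {f : EE N → VV N q F}
    (hf : LocallyIntegrable f) : LocallyIntegrable (pb a f) :=
  LI_clm _ (LI_dil ha hf)

theorem Tst.comp_dil {U : Set (EE N)} {a : Fin N → ℝ} (ha : ∀ i, a i ≠ 0) {η : EE N → ℝ}
    (h : Tst U η) : Tst ((dil a) ⁻¹' U) (fun x => η (dil a x)) where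
  smooth := h.smooth.comp (dil a).contDiff
  cpt := h.cpt.comp_homeomorph (dilE a ha).toHomeomorph
  sub := by
    intro x hx
    have : tsupport (fun x => η (dil a x)) = (dilE a ha).toHomeomorph ⁻¹' tsupport η :=
      tsupport_comp_eq_preimage η (dilE a ha).toHomeomorph
    rw [this] at hx
    exact h.sub hx

theorem pd_comp_dil {a : Fin N → ℝ} {η : EE N → ℝ} (h : ContDiff ℝ ∞ η) (l : Fin N) (x : EE N) :
    pd l (fun x => η (dil a x)) x = a l * pd l η (dil a x) := by
  unfold pd
  have h1 : HasFDerivAt (fun x => η (dil a x)) ((fderiv ℝ η (dil a x)) ∘L (dil a)) x :=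
    ((h.differentiable (by simp) _).hasFDerivAt).comp x (dil a).hasFDerivAt
  rw [h1.fderiv]
  simp [dil_ev]

theorem II_pb {U : Set (EE N)} {a : Fin N → ℝ} (ha : ∀ i, a i ≠ 0) {η : EE N → ℝ}
    (h : Tst U η) {f : EE N → VV N q F} (hf : LocallyIntegrable f) :
    II (fun x => η (dil a x)) (pb a f) = cst a • cpl q F (dil a) (II η f) := by
  unfold II pb
  have h1 : ∀ x, η (dil a x) • cpl q F (dil a) (f (dil a x)) =
      (fun y => cpl q F (dil a) (η y • f y)) (dil a x) := by
    intro x
    simp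
  rw [integral_congr_ae (Eventually.of_forall h1),
    integral_dil ha (fun y => cpl q F (dil a) (η y • f y)),
    ContinuousLinearMap.integral_comp_comm _ (h.integrable hf)]

theorem WD.pull {U : Set (EE N)} {f : EE N → VV N q F} {h : EE N → VV N (q + 1) F}
    (hw : WD U f h) (hf : LocallyIntegrable f) (hh : LocallyIntegrable h)
    {a : Fin N → ℝ} (ha : ∀ i, a i ≠ 0) :
    WD ((dil a) ⁻¹' U) (pb a f) (pb a h) := by
  intro η hη
  have hb : ∀ i, (fun i => (a i)⁻¹) i ≠ 0 := fun i => inv_ne_zero (ha i)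
  set η' : EE N → ℝ := fun x => η (dil (fun i => (a i)⁻¹) x) with hη'
  have hη'T : Tst U η' := by
    refine (hη.comp_dil hb).mono ?_
    intro x hx
    have hx' : dil a (dil (fun i => (a i)⁻¹) x) ∈ U := hx
    rwa [dil_dil_inv ha] at hx'
  have e : η = fun x => η' (dil a x) := by
    ext x
    simp only [hη', dil_inv_dil ha]
  have e2 : ∀ l, pd l η = fun x => a l * pd l η' (dil a x) := by
    intro l
    ext x
    conv_lhs => rw [e]
    exact pd_comp_dil hη'T.smooth l x
  have e3 : ∀ l, II (pd l η) (pb a f) =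
      a l • (cst a • cpl q F (dil a) (II (pd l η') f)) := by
    intro l
    rw [e2, ← II_pb ha (hη'T.pd l) hf]
    unfold II
    rw [← integral_smul]
    simp only [smul_smul]
  conv_lhs => rw [e]
  rw [II_pb ha hη'T hh, hw η' hη'T, map_neg, map_sum, smul_neg, Finset.smul_sum]
  congr 1
  refine Finset.sum_congr rfl fun l _ => ?_
  rw [e3, cpl_wdgL]
  have : (ec l : EE N →L[ℝ] ℝ) ∘L dil a = a l • ec l := by
    ext x
    simp
  rw [this]
  simp only [map_smul, _root_.smul_apply]
  rw [smul_comm]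

end Pool.Agent.H92
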