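import Pool.Agent.H92.Hartogs.Step2

set_option autoImplicit false
set_option linter.unusedSectionVars false

open MeasureTheory Set Filter Topology
open scoped ContDiff ENNReal

namespace Pool.Agent.H92

theorem lintegral_smul4 {s : ℝ} (hs : 0 < s) (g : EE 4 → ℝ≥0∞) :
    ∫⁻ x, g (s • x) = ENNReal.ofReal ((s ^ 4)⁻¹) * ∫⁻ y, g y := by
  have h := lintegral_dil (a := fun _ : Fin 4 => s) (fun _ => hs.ne') g
  simp only [dil_const, cst_const hs] at h
  exact h

theorem lintegral_inv_Icc {p r : ℝ} (hp : 0 < p) (hpr : p ≤ r) :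
    ∫⁻ s in Icc p r, ENNReal.ofReal s⁻¹ = ENNReal.ofReal (Real.log (r / p)) := by
  have h1 : ∫ s in p..r, s⁻¹ = Real.log (r / p) := integral_inv_of_pos hp (hp.trans_le hpr)
  have hc : ContinuousOn (fun s : ℝ => s⁻¹) (Icc p r) :=
    continuousOn_inv₀.mono fun s hs => (hp.trans_le hs.1).ne'
  have h2 : IntegrableOn (fun s : ℝ => s⁻¹) (Icc p r) := hc.integrableOn_Icc
  rw [← h1, intervalIntegral.integral_of_le hpr, ← integral_Icc_eq_integral_Ioc,
    ofReal_integral_eq_lintegral_ofReal h2]
  filter_upwards [ae_restrict_mem measurableSet_Icc] with s hs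
  exact inv_nonneg.2 (hp.le.trans hs.1)

theorem lintegral_inv_sub {I : Set ℝ} {w : ℝ → ℝ≥0∞} {p r : ℝ} (hI : MeasurableSet I)
    (hp : 0 < p) (hpr : p ≤ r)
    (hw : ∀ s ∈ I, w s ≤ (Icc p r).indicator (fun _ => 1) s) :
    ∫⁻ s in I, w s * ENNReal.ofReal s⁻¹ ≤ ENNReal.ofReal (Real.log (r / p)) := by
  rw [← lintegral_inv_Icc hp hpr, ← lintegral_indicator measurableSet_Icc]
  calc ∫⁻ s in I, w s * ENNReal.ofReal s⁻¹
      ≤ ∫⁻ s in I, (Icc p r).indicator (fun s => ENNReal.ofReal s⁻¹) s := by
        refine setLIntegral_mono' hI fun s hs => ?_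
        refine (mul_le_mul_left (hw s hs) _).trans ?_
        by_cases h : s ∈ Icc p r
        · simp [indicator_of_mem h]
        · simp [indicator_of_notMem h]
    _ ≤ ∫⁻ s, (Icc p r).indicator (fun s => ENNReal.ofReal s⁻¹) s :=
        setLIntegral_le_lintegral _ _

/-- Schur type estimate for radial averages in dimension four -/
theorem schur {I : Set ℝ} (hI : MeasurableSet I) (hI0 : I ⊆ Ioi 0) {D S : Set (EE 4)}
    (hD : MeasurableSet D) (hS : MeasurableSet S) {v : EE 4 → ℝ≥0∞} (hv : Measurable v)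
    (hvS : ∀ y, y ∉ S → v y = 0) {α β : ℝ≥0∞}
    (hα : ∀ x ∈ D, ∫⁻ s in I, S.indicator (fun _ => 1) (s • x) * ENNReal.ofReal s⁻¹ ≤ α)
    (hβ : ∀ y ∈ S, ∫⁻ s in I, D.indicator (fun _ => 1) (s⁻¹ • y) * ENNReal.ofReal s⁻¹ ≤ β) :
    ∫⁻ x in D, (∫⁻ s in I, ENNReal.ofReal s * v (s • x)) ^ 2 ≤ α * β * ∫⁻ y, v y ^ 2 := by
  have hm1 : Measurable (fun p : EE 4 × ℝ => v (p.2 • p.1)) := hv.comp (by fun_prop)
  have hone : Measurable (fun _ : EE 4 => (1 : ℝ≥0∞)) := measurable_const
  have hm2 : Measurable (S.indicator (fun _ => (1 : ℝ≥0∞))) := hone.indicator hS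
  have hm3 : Measurable (D.indicator (fun _ => (1 : ℝ≥0∞))) := hone.indicator hD
  have step1 : ∀ x ∈ D, (∫⁻ s in I, ENNReal.ofReal s * v (s • x)) ^ 2 ≤
      α * ∫⁻ s in I, ENNReal.ofReal (s ^ 3) * v (s • x) ^ 2 := by
    intro x hx
    have e1 : ∫⁻ s in I, ENNReal.ofReal s * v (s • x) =
        ∫⁻ s in I, (S.indicator (fun _ => 1) (s • x) * ENNReal.ofReal s⁻¹) *
          (ENNReal.ofReal (s ^ 2) * v (s • x)) := by
      refine setLIntegral_congr_fun hI fun s hs => ?_
      have hs0 : 0 < s := hI0 hs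
      beta_reduce
      by_cases h : s • x ∈ S
      · rw [indicator_of_mem h, one_mul, ← mul_assoc, ← ENNReal.ofReal_mul (by positivity)]
        congr 2
        field_simp
      · rw [hvS _ h]
        simp
    rw [e1]
    have hmw : Measurable (fun s : ℝ => S.indicator (fun _ => (1 : ℝ≥0∞)) (s • x) *
        ENNReal.ofReal s⁻¹) := by
      refine (hm2.comp (by fun_prop)).mul ?_
      exact ENNReal.measurable_ofReal.comp measurable_inv
    have hmu : Measurable (fun s : ℝ => ENNReal.ofReal (s ^ 2) * v (s • x)) := by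
      refine Measurable.mul (by fun_prop) (hv.comp (by fun_prop))
    refine (cs_lintegral hmw.aemeasurable hmu.aemeasurable).trans ?_
    refine mul_le_mul' (hα x hx) ?_
    refine setLIntegral_mono' hI fun s hs => ?_
    have hs0 : 0 < s := hI0 hs
    by_cases h : s • x ∈ S
    · rw [indicator_of_mem h, one_mul, mul_pow, ← mul_assoc, ← ENNReal.ofReal_pow (by positivity),
        ← ENNReal.ofReal_mul (by positivity)]
      refine mul_le_mul' (ENNReal.ofReal_le_ofReal (le_of_eq ?_)) le_rfl
      field_simp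
    · rw [hvS _ h]
      simp
  calc ∫⁻ x in D, (∫⁻ s in I, ENNReal.ofReal s * v (s • x)) ^ 2
      ≤ ∫⁻ x in D, α * ∫⁻ s in I, ENNReal.ofReal (s ^ 3) * v (s • x) ^ 2 :=
        setLIntegral_mono' hD step1
    _ = α * ∫⁻ x in D, ∫⁻ s in I, ENNReal.ofReal (s ^ 3) * v (s • x) ^ 2 := by
        rw [lintegral_const_mul]
        have hm4 : Measurable (fun p : EE 4 × ℝ =>
          ENNReal.ofReal (p.2 ^ 3) * v (p.2 • p.1) ^ 2) :=
          Measurable.mul (by fun_prop) (hm1.pow_const 2)
        exact hm4.lintegral_prod_right'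
    _ = α * ∫⁻ s in I, ∫⁻ x in D, ENNReal.ofReal (s ^ 3) * v (s • x) ^ 2 := by
        congr 1
        refine lintegral_lintegral_swap ?_
        refine Measurable.aemeasurable ?_
        exact Measurable.mul (by fun_prop) (hm1.pow_const 2)
    _ = α * ∫⁻ s in I, ∫⁻ y, (D.indicator (fun _ => 1) (s⁻¹ • y) * ENNReal.ofReal s⁻¹) *
          v y ^ 2 := by
        congr 1
        refine setLIntegral_congr_fun hI fun s hs => ?_
        have hs0 : 0 < s := hI0 hs
        beta_reduce
        have e2 : ∀ x, D.indicator (fun x => ENNReal.ofReal (s ^ 3) * v (s • x) ^ 2) x =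
            (fun y => ENNReal.ofReal (s ^ 3) * (D.indicator (fun _ => 1) (s⁻¹ • y) *
              v y ^ 2)) (s • x) := by
          intro x
          have h3 : s⁻¹ • s • x = x := by rw [smul_smul, inv_mul_cancel₀ hs0.ne', one_smul]
          beta_reduce
          rw [h3]
          by_cases h : x ∈ D
          · simp [indicator_of_mem h]
          · simp [indicator_of_notMem h]
        rw [← lintegral_indicator hD, lintegral_congr e2, lintegral_smul4 hs0
          (fun y => ENNReal.ofReal (s ^ 3) * (D.indicator (fun _ => 1) (s⁻¹ • y) * v y ^ 2)),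
          ← lintegral_const_mul]
        · refine lintegral_congr fun y => ?_
          have h4 : ENNReal.ofReal ((s ^ 4)⁻¹) * ENNReal.ofReal (s ^ 3) = ENNReal.ofReal s⁻¹ := by
            rw [← ENNReal.ofReal_mul (by positivity)]
            congr 1
            field_simp
          calc ENNReal.ofReal ((s ^ 4)⁻¹) * (ENNReal.ofReal (s ^ 3) *
                (D.indicator (fun _ => 1) (s⁻¹ • y) * v y ^ 2))
              = (ENNReal.ofReal ((s ^ 4)⁻¹) * ENNReal.ofReal (s ^ 3)) *
                (D.indicator (fun _ => 1) (s⁻¹ • y) * v y ^ 2) := by ring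
            _ = _ := by
                rw [h4]
                ring
        · refine Measurable.const_mul ?_ _
          exact (hm3.comp (by fun_prop)).mul (hv.pow_const 2)
    _ = α * ∫⁻ y, ∫⁻ s in I, (D.indicator (fun _ => 1) (s⁻¹ • y) * ENNReal.ofReal s⁻¹) *
          v y ^ 2 := by
        congr 1
        refine lintegral_lintegral_swap ?_
        refine Measurable.aemeasurable ?_
        refine Measurable.mul (Measurable.mul (hm3.comp ?_) ?_) ?_
        · exact (measurable_fst.inv).smul measurable_snd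
        · exact ENNReal.measurable_ofReal.comp (measurable_fst.inv)
        · exact (hv.comp measurable_snd).pow_const 2
    _ ≤ α * ∫⁻ y, β * v y ^ 2 := by
        refine mul_le_mul' le_rfl (lintegral_mono fun y => ?_)
        beta_reduce
        rw [lintegral_mul_const]
        · by_cases h : y ∈ S
          · exact mul_le_mul' (hβ y h) le_rfl
          · rw [hvS y h]
            simp
        · refine Measurable.mul (hm3.comp ?_) ?_
          · exact (measurable_id.inv).smul measurable_const
          · exact ENNReal.measurable_ofReal.comp measurable_inv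
    _ = α * β * ∫⁻ y, v y ^ 2 := by
        rw [lintegral_const_mul _ (hv.pow_const 2), mul_assoc]

end Pool.Agent.H92
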