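import Pool.Agent.H92.Hartogs.Geom

set_option autoImplicit false
set_option linter.unusedSectionVars false

open MeasureTheory Set Filter Topology
open scoped ContDiff ENNReal

namespace Pool.Agent.H92

variable {q : ℕ} {F : Type*} [NormedAddCommGroup F] [NormedSpace ℝ F] [CompleteSpace F]

/-- approximability in the graph norm by forms smooth up to the boundary -/
def Apx (f : EE 4 → VV 4 q F) (h : EE 4 → VV 4 (q + 1) F) : Prop :=
  ∀ ε : ℝ≥0∞, 0 < ε → ∃ φ : EE 4 → VV 4 q F, ContDiff ℝ ∞ φ ∧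
    eLpNorm (fun x => φ x - f x) 2 (volume.restrict TT) ≤ ε ∧
    eLpNorm (fun x => extDeriv φ x - h x) 2 (volume.restrict TT) ≤ ε

theorem measurableSet_TT : MeasurableSet TT := isOpen_TT.measurableSet

theorem extDeriv_aesm {φ : EE 4 → VV 4 q F} (hφ : ContDiff ℝ ∞ φ) (μ : Measure (EE 4)) :
    AEStronglyMeasurable (extDeriv φ) μ := by
  have : Continuous (extDeriv φ) := by
    have h1 : Continuous (fun x => ContinuousAlternatingMap.alternatizeUncurryFinCLM ℝ (EE 4) F
        (fderiv ℝ φ x)) := by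
      have := hφ.continuous_fderiv (by simp)
      fun_prop
    exact h1
  exact this.aestronglyMeasurable

/-- triangle inequality -/
theorem eL2_tri {G : Type*} [NormedAddCommGroup G] {α : Type*} [MeasurableSpace α]
    {μ : Measure α} {a b c : α → G} (ha : AEStronglyMeasurable a μ)
    (hb : AEStronglyMeasurable b μ) (hc : AEStronglyMeasurable c μ) :
    eLpNorm (fun x => a x - c x) 2 μ ≤
      eLpNorm (fun x => a x - b x) 2 μ + eLpNorm (fun x => b x - c x) 2 μ := by
  have e : (fun x => a x - c x) = (fun x => a x - b x) + (fun x => b x - c x) := by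
    ext x
    simp
  rw [e]
  exact eLpNorm_add_le (ha.sub hb) (hb.sub hc) (by norm_num)

theorem memLp_of_sub {G : Type*} [NormedAddCommGroup G] {α : Type*} [MeasurableSpace α]
    {μ : Measure α} {u w : α → G} (hu : MemLp u 2 μ) (hw : AEStronglyMeasurable w μ)
    {ε : ℝ≥0∞} (hε : ε ≠ ⊤) (h : eLpNorm (fun x => w x - u x) 2 μ ≤ ε) : MemLp w 2 μ := by
  have h1 : MemLp (fun x => w x - u x) 2 μ := ⟨hw.sub hu.1, h.trans_lt (lt_top_iff_ne_top.2 hε)⟩
  have h2 := h1.add hu
  refine h2.congr_norm hw (Eventually.of_forall fun x => ?_)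
  simp

theorem Apx.limit {f : EE 4 → VV 4 q F} {h : EE 4 → VV 4 (q + 1) F}
    (hf : AEStronglyMeasurable f (volume.restrict TT))
    (hh : AEStronglyMeasurable h (volume.restrict TT))
    (H : ∀ ε : ℝ≥0∞, 0 < ε → ∃ (f' : EE 4 → VV 4 q F) (h' : EE 4 → VV 4 (q + 1) F),
      AEStronglyMeasurable f' (volume.restrict TT) ∧
      AEStronglyMeasurable h' (volume.restrict TT) ∧ Apx f' h' ∧
      eLpNorm (fun x => f' x - f x) 2 (volume.restrict TT) ≤ ε ∧
      eLpNorm (fun x => h' x - h x) 2 (volume.restrict TT) ≤ ε) : Apx f h := by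
  intro ε hε
  have hε2 : 0 < ε / 2 := ENNReal.half_pos hε.ne'
  obtain ⟨f', h', mf, mh, hA, h1, h2⟩ := H (ε / 2) hε2
  obtain ⟨φ, hφ, h3, h4⟩ := hA (ε / 2) hε2
  refine ⟨φ, hφ, ?_, ?_⟩
  · refine (eL2_tri hφ.continuous.aestronglyMeasurable mf hf).trans ?_
    exact (add_le_add h3 h1).trans (ENNReal.add_halves ε).le
  · refine (eL2_tri (extDeriv_aesm hφ _) mh hh).trans ?_
    exact (add_le_add h4 h2).trans (ENNReal.add_halves ε).le

theorem Apx.add {f f' : EE 4 → VV 4 q F} {h h' : EE 4 → VV 4 (q + 1) F}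
    (hf : AEStronglyMeasurable f (volume.restrict TT))
    (hh : AEStronglyMeasurable h (volume.restrict TT))
    (hf' : AEStronglyMeasurable f' (volume.restrict TT))
    (hh' : AEStronglyMeasurable h' (volume.restrict TT))
    (H : Apx f h) (H' : Apx f' h') : Apx (fun x => f x + f' x) (fun x => h x + h' x) := by
  intro ε hε
  have hε2 : 0 < ε / 2 := ENNReal.half_pos hε.ne'
  obtain ⟨φ, hφ, h1, h2⟩ := H (ε / 2) hε2
  obtain ⟨ψ, hψ, h3, h4⟩ := H' (ε / 2) hε2
  refine ⟨fun x => φ x + ψ x, hφ.add hψ, ?_, ?_⟩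
  · have e : (fun x => φ x + ψ x - (f x + f' x)) = (fun x => φ x - f x) + (fun x => ψ x - f' x) := by
      ext1 x
      simp only [Pi.add_apply]
      abel
    rw [e]
    refine (eLpNorm_add_le (hφ.continuous.aestronglyMeasurable.sub hf)
      (hψ.continuous.aestronglyMeasurable.sub hf') (by norm_num)).trans ?_
    exact (add_le_add h1 h3).trans (ENNReal.add_halves ε).le
  · have e : (fun x => extDeriv (fun x => φ x + ψ x) x - (h x + h' x)) =
        (fun x => extDeriv φ x - h x) + (fun x => extDeriv ψ x - h' x) := by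
      ext1 x
      rw [extDeriv_fun_add (hφ.differentiable (by simp) x) (hψ.differentiable (by simp) x)]
      simp only [Pi.add_apply]
      abel
    rw [e]
    refine (eLpNorm_add_le ((extDeriv_aesm hφ _).sub hh)
      ((extDeriv_aesm hψ _).sub hh') (by norm_num)).trans ?_
    exact (add_le_add h2 h4).trans (ENNReal.add_halves ε).le

theorem Apx.congr {f f' : EE 4 → VV 4 q F} {h h' : EE 4 → VV 4 (q + 1) F}
    (H : Apx f h) (hf : ∀ x ∈ TT, f x = f' x) (hh : ∀ x ∈ TT, h x = h' x) : Apx f' h' := by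
  intro ε hε
  obtain ⟨φ, hφ, h1, h2⟩ := H ε hε
  refine ⟨φ, hφ, ?_, ?_⟩
  · refine le_of_eq_of_le (eLpNorm_congr_ae ?_) h1
    filter_upwards [ae_restrict_mem measurableSet_TT] with x hx
    rw [hf x hx]
  · refine le_of_eq_of_le (eLpNorm_congr_ae ?_) h2
    filter_upwards [ae_restrict_mem measurableSet_TT] with x hx
    rw [hh x hx]

/-- sequence of parameters -/
noncomputable def tn (n : ℕ) : ℝ := 1 - 1 / ((n : ℝ) + 4)

theorem tn_lt (n : ℕ) : tn n < 1 := by
  unfold tn
  have : (0 : ℝ) < 1 / ((n : ℝ) + 4) := by positivity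
  linarith

theorem le_tn (n : ℕ) : 3 / 4 ≤ tn n := by
  unfold tn
  have : 1 / ((n : ℝ) + 4) ≤ 1 / 4 := by
    apply one_div_le_one_div_of_le (by norm_num)
    linarith [Nat.cast_nonneg (α := ℝ) n]
  linarith

theorem tn_tendsto : Tendsto tn atTop (𝓝 1) := by
  have h1 : Tendsto (fun n : ℕ => 1 / ((n : ℝ) + 4)) atTop (𝓝 0) := by
    have := tendsto_one_div_add_atTop_nhds_zero_nat (𝕜 := ℝ)
    have h2 := (tendsto_add_atTop_iff_nat 3).2 this
    refine h2.congr fun n => ?_
    push_cast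
    congr 1
    ring
  have h3 := h1.const_sub 1
  rw [sub_zero] at h3
  exact h3

theorem lam_tendsto : Tendsto (fun n => lam (tn n)) atTop (𝓝 (fun _ => 1)) := by
  rw [tendsto_pi_nhds]
  intro i
  have h := tn_tendsto
  have h2 : Tendsto (fun n => tn n ^ 2) atTop (𝓝 1) := by
    have := h.pow 2
    simpa using this
  fin_cases i
  · simpa [lam] using h2
  · simpa [lam] using h2
  · simpa [lam] using h
  · simpa [lam] using h

theorem half_le_lam (n : ℕ) (i : Fin 4) : 1 / 2 ≤ lam (tn n) i := by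
  have h := le_tn n
  fin_cases i
  · change 1 / 2 ≤ tn n ^ 2
    nlinarith
  · change 1 / 2 ≤ tn n ^ 2
    nlinarith
  · change 1 / 2 ≤ tn n
    linarith
  · change 1 / 2 ≤ tn n
    linarith

theorem lam_le_one (n : ℕ) (i : Fin 4) : lam (tn n) i ≤ 1 := by
  have h := le_tn n
  have h' := tn_lt n
  fin_cases i
  · change tn n ^ 2 ≤ 1
    nlinarith
  · change tn n ^ 2 ≤ 1
    nlinarith
  · change tn n ≤ 1
    linarith
  · change tn n ≤ 1
    linarith

/-- forms with weak derivative on the Hartogs triangle, vanishing near the origin,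
can be approximated -/
theorem Apx.of_vanish {f : EE 4 → VV 4 q F} {h : EE 4 → VV 4 (q + 1) F}
    (hf : MemLp f 2 volume) (hh : MemLp h 2 volume) (hw : WD TT f h) {ρ : ℝ} (hρ : 0 < ρ)
    (hf0 : ∀ x ∈ Metric.ball (0 : EE 4) ρ, f x = 0)
    (hh0 : ∀ x ∈ Metric.ball (0 : EE 4) ρ, h x = 0) : Apx f h := by
  intro ε hε
  have hε2 : 0 < ε / 2 := ENNReal.half_pos hε.ne'
  have c1 := (ENNReal.tendsto_nhds_zero.1 (pb_tendsto lam_tendsto half_le_lam lam_le_one hf))
    (ε / 2) hε2
  have c2 := (ENNReal.tendsto_nhds_zero.1 (pb_tendsto lam_tendsto half_le_lam lam_le_one hh))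
    (ε / 2) hε2
  obtain ⟨n, hn1, hn2⟩ := (c1.and c2).exists
  set a := lam (tn n) with ha
  have hane : ∀ i, a i ≠ 0 := fun i => by
    have := half_le_lam n i
    rw [← ha] at this
    linarith
  have habs : ∀ i, |a i| ≤ 1 := fun i => by
    rw [abs_of_pos (by have := half_le_lam n i; rw [← ha] at this; linarith)]
    exact lam_le_one n i
  have hfl := hf.locallyIntegrable (by norm_num)
  have hhl := hh.locallyIntegrable (by norm_num)
  have hf1l : LocallyIntegrable (pb a f) := LI_pb hane hfl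
  have hh1l : LocallyIntegrable (pb a h) := LI_pb hane hhl
  by_cases hεt : ε = ⊤
  · subst hεt
    exact ⟨fun _ => 0, contDiff_const, le_top, le_top⟩
  have hε2t : ε / 2 ≠ ⊤ := (ENNReal.div_lt_top hεt two_ne_zero).ne
  have hf1 : MemLp (pb a f) 2 volume := memLp_of_sub hf hf1l.aestronglyMeasurable hε2t hn1
  have hh1 : MemLp (pb a h) 2 volume := memLp_of_sub hh hh1l.aestronglyMeasurable hε2t hn2
  have hzero : ∀ {p : ℕ} {u : EE 4 → VV 4 p F}, (∀ x ∈ Metric.ball (0 : EE 4) ρ, u x = 0) →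
      ∀ x ∈ Metric.ball (0 : EE 4) ρ, pb a u x = 0 := by
    intro p u hu x hx
    unfold pb
    rw [hu, map_zero]
    rw [mem_ball_zero_iff] at hx ⊢
    exact (norm_dil_le habs x).trans_lt hx
  have hW : WD ((dil a) ⁻¹' TT ∪ Metric.ball 0 ρ) (pb a f) (pb a h) := by
    refine WD.union (isOpen_TT.preimage (dil a).continuous) Metric.isOpen_ball
      (hw.pull hfl hhl hane) (WD.of_zero (hzero hf0) (hzero hh0)) hf1l hh1l
  obtain ⟨δ, hδ0, hδ⟩ := lam_margin (t := tn n) (by linarith [le_tn n]) (tn_lt n) hρ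
  have hlim : Tendsto (fun m : ℕ => 1 / ((m : ℝ) + 1)) atTop (𝓝 0) :=
    tendsto_one_div_add_atTop_nhds_zero_nat
  have d0 := hlim.eventually (gt_mem_nhds hδ0)
  have d1 := (ENNReal.tendsto_nhds_zero.1 (mol_tendsto hf1)) (ε / 2) hε2
  have d2 := (ENNReal.tendsto_nhds_zero.1 (mol_tendsto hh1)) (ε / 2) hε2
  obtain ⟨m, hm0, hm1, hm2⟩ := (d0.and (d1.and d2)).exists
  have hext : ∀ x ∈ TT, extDeriv (mol (rh 4 m) (pb a f)) x = mol (rh 4 m) (pb a h) x := by
    intro x hx
    refine extDeriv_mol hW hf1l (rh_smooth m) (rh_cpt m) ?_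
    intro t ht
    rw [rh_tsupport, mem_closedBall_zero_iff] at ht
    exact hδ x hx t (ht.trans hm0.le)
  refine ⟨mol (rh 4 m) (pb a f), contDiff_mol (rh_smooth m) (rh_cpt m) hf1l, ?_, ?_⟩
  · refine (eLpNorm_restrict_le _ _ _ _).trans ?_
    refine (eL2_tri (aesm_mol hf1l m) hf1.1 hf.1).trans ?_
    exact (add_le_add hm1 hn1).trans (ENNReal.add_halves ε).le
  · have e : eLpNorm (fun x => extDeriv (mol (rh 4 m) (pb a f)) x - h x) 2
        (volume.restrict TT) =
        eLpNorm (fun x => mol (rh 4 m) (pb a h) x - h x) 2 (volume.restrict TT) := by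
      refine eLpNorm_congr_ae ?_
      filter_upwards [ae_restrict_mem measurableSet_TT] with x hx
      rw [hext x hx]
    rw [e]
    refine (eLpNorm_restrict_le _ _ _ _).trans ?_
    refine (eL2_tri (aesm_mol hh1l m) hh1.1 hh.1).trans ?_
    exact (add_le_add hm2 hn2).trans (ENNReal.add_halves ε).le

end Pool.Agent.H92
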