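import Pool.Agent.H92.Hartogs.KKp

set_option autoImplicit false
set_option linter.unusedSectionVars false

open MeasureTheory Set Filter Topology
open scoped ContDiff ENNReal

namespace Pool.Agent.H92

variable {q : ℕ} {F : Type*} [NormedAddCommGroup F] [NormedSpace ℝ F] [CompleteSpace F]

/-- `L²` mass near the singular point -/
noncomputable def tail {G : Type*} [NormedAddCommGroup G] (g : EE 4 → G) (n : ℕ) : ℝ≥0∞ :=
  ∫⁻ y in Metric.closedBall (0 : EE 4) (Real.exp (-((n : ℝ) + 1))), ‖g y‖ₑ ^ 2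

theorem tail_tendsto {G : Type*} [NormedAddCommGroup G] {g : EE 4 → G}
    (hg : MemLp g 2 volume) : Tendsto (tail g) atTop (𝓝 0) := by
  unfold tail
  refine tendsto_setLIntegral_zero ?_ ?_
  · rw [← eL2]
    exact ENNReal.pow_ne_top hg.2.ne
  · have h1 : ∀ n : ℕ, (volume ∘ fun n : ℕ => Metric.closedBall (0 : EE 4)
        (Real.exp (-((n : ℝ) + 1)))) n =
        ENNReal.ofReal (Real.exp (-((n : ℝ) + 1)) ^ 4) * volume (Metric.ball (0 : EE 4) 1) := by
      intro n
      rw [Function.comp_apply, Measure.addHaar_closedBall _ _ (Real.exp_pos _).le]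
      simp
    refine Tendsto.congr (fun n => (h1 n).symm) ?_
    have h2 : Tendsto (fun n : ℕ => Real.exp (-((n : ℝ) + 1)) ^ 4) atTop (𝓝 0) := by
      have h3 : Tendsto (fun n : ℕ => Real.exp (-((n : ℝ) + 1))) atTop (𝓝 0) := by
        refine Real.tendsto_exp_neg_atTop_nhds_zero.comp ?_
        exact tendsto_atTop_add_const_right _ _ tendsto_natCast_atTop_atTop
      have := h3.pow 4
      simpa using this
    have h4 := ENNReal.tendsto_ofReal h2
    rw [ENNReal.ofReal_zero] at h4
    have h5 := ENNReal.Tendsto.mul_const (b := volume (Metric.ball (0 : EE 4) 1)) h4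
      (Or.inr (by finiteness))
    simpa using h5

theorem AA_pos {L : ℝ} {y : EE 4} (hy : y ∈ AA L) : 0 < ‖y‖ :=
  (Real.exp_pos _).trans_le hy.1

theorem KK_wdg_pt (hq : 2 ≤ q) {g : EE 4 → VV 4 q F} {C : ℝ} (hC0 : 0 ≤ C)
    (hC : ∀ t, |deriv Real.smoothTransition t| ≤ C) {L : ℝ} (hL : 1 ≤ L) {a : ℝ} (ha : 0 < a)
    (x : EE 4) :
    ‖KK a 1 (fun y => wdgL 4 q F (fderiv ℝ (chi L) y) (g y)) x‖ₑ ≤
      ENNReal.ofReal ((q + 1) * C / L) * ∫⁻ s in Ioc a 1, ENNReal.ofReal s *
        (AA L).indicator (fun y => ‖g y‖ₑ) (s • x) := by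
  unfold KK
  refine (enorm_integral_le_lintegral_enorm _).trans ?_
  rw [← lintegral_const_mul']
  swap
  · exact ENNReal.ofReal_ne_top
  refine setLIntegral_mono' measurableSet_Ioc fun s hs => ?_
  have hs0 : 0 < s := ha.trans hs.1
  by_cases hy : s • x ∈ AA L
  · rw [indicator_of_mem hy]
    have hyp := AA_pos hy
    have hxp : 0 < ‖x‖ := by
      rw [norm_smul, Real.norm_of_nonneg hs0.le] at hyp
      exact pos_of_mul_pos_right hyp hs0.le
    have h1 := norm_fderiv_chi_le hL hC0 hC (s • x) (norm_pos_iff.1 hyp)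
    have h2 := norm_ctr_le x (wdgL 4 q F (fderiv ℝ (chi L) (s • x)) (g (s • x)))
    have h3 := norm_wdgL_le (fderiv ℝ (chi L) (s • x)) (g (s • x))
    have key : ‖s ^ q • ctr 4 q F x (wdgL 4 q F (fderiv ℝ (chi L) (s • x)) (g (s • x)))‖ ≤
        ((q + 1) * C / L) * (s * ‖g (s • x)‖) := by
      rw [norm_smul, Real.norm_of_nonneg (by positivity)]
      calc s ^ q * ‖ctr 4 q F x (wdgL 4 q F (fderiv ℝ (chi L) (s • x)) (g (s • x)))‖
          ≤ s ^ q * (‖x‖ * ((q + 1) * (C / (L * ‖s • x‖) * ‖g (s • x)‖))) := by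
            refine mul_le_mul_of_nonneg_left (h2.trans ?_) (by positivity)
            refine mul_le_mul_of_nonneg_left (h3.trans ?_) (norm_nonneg _)
            refine mul_le_mul_of_nonneg_left ?_ (by positivity)
            exact mul_le_mul_of_nonneg_right h1 (norm_nonneg _)
        _ = ((q + 1) * C / L) * ((s ^ q / s) * ‖g (s • x)‖) := by
            rw [norm_smul, Real.norm_of_nonneg hs0.le]
            field_simp
        _ ≤ ((q + 1) * C / L) * (s * ‖g (s • x)‖) := by
            refine mul_le_mul_of_nonneg_left ?_ (by positivity)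
            refine mul_le_mul_of_nonneg_right ?_ (norm_nonneg _)
            rw [div_le_iff₀ hs0]
            calc s ^ q ≤ s ^ 2 := pow_le_pow_of_le_one hs0.le hs.2 hq
              _ = s * s := by ring
    rw [← ofReal_norm, ← ofReal_norm, ← ENNReal.ofReal_mul hs0.le,
      ← ENNReal.ofReal_mul (by positivity)]
    exact ENNReal.ofReal_le_ofReal key
  · beta_reduce
    rw [fderiv_chi_zero hL hy, map_zero, ContinuousLinearMap.zero_apply, map_zero, smul_zero,
      enorm0]
    exact zero_le

theorem KK_est (hq : 2 ≤ q) {g : EE 4 → VV 4 q F} (hgm : StronglyMeasurable g)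
    {C : ℝ} (hC0 : 0 ≤ C)
    (hC : ∀ t, |deriv Real.smoothTransition t| ≤ C) {L : ℝ} (hL : 1 ≤ L) {a : ℝ} (ha : 0 < a) :
    ∫⁻ x in Metric.ball (0 : EE 4) 2,
      ‖KK a 1 (fun y => wdgL 4 q F (fderiv ℝ (chi L) y) (g y)) x‖ₑ ^ 2 ≤
    ENNReal.ofReal (8 * ((q + 1) * C) ^ 2) * ∫⁻ y in AA L, ‖g y‖ₑ ^ 2 := by
  have hL0 : 0 < L := by linarith
  set v : EE 4 → ℝ≥0∞ := (AA L).indicator (fun y => ‖g y‖ₑ) with hv
  have hvm : Measurable v := hgm.enorm.indicator (measurableSet_AA L)
  have h1 : ∫⁻ x in Metric.ball (0 : EE 4) 2,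
      ‖KK a 1 (fun y => wdgL 4 q F (fderiv ℝ (chi L) y) (g y)) x‖ₑ ^ 2 ≤
      ∫⁻ x in Metric.ball (0 : EE 4) 2, ENNReal.ofReal ((q + 1) * C / L) ^ 2 *
        (∫⁻ s in Ioc a 1, ENNReal.ofReal s * v (s • x)) ^ 2 := by
    refine lintegral_mono fun x => ?_
    beta_reduce
    rw [← mul_pow]
    exact pow_le_pow_left' (KK_wdg_pt hq hC0 hC hL ha x) 2
  refine h1.trans ?_
  rw [lintegral_const_mul']
  swap
  · exact ENNReal.pow_ne_top ENNReal.ofReal_ne_top
  have h2 := schur (I := Ioc a 1) measurableSet_Ioc (fun s hs => ha.trans hs.1)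
    (D := Metric.ball (0 : EE 4) 2) (S := AA L) measurableSet_ball (measurableSet_AA L) hvm
    (fun y hy => indicator_of_notMem hy _) (α := ENNReal.ofReal (L + 1))
    (β := ENNReal.ofReal (2 * L + 2)) ?_ ?_
  · refine (mul_le_mul' le_rfl h2).trans ?_
    have h3 : ∫⁻ y, v y ^ 2 = ∫⁻ y in AA L, ‖g y‖ₑ ^ 2 := by
      rw [← lintegral_indicator (measurableSet_AA L)]
      refine lintegral_congr fun y => ?_
      by_cases hy : y ∈ AA L
      · simp [hv, indicator_of_mem hy]
      · simp [hv, indicator_of_notMem hy]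
    rw [h3, ← mul_assoc]
    refine mul_le_mul' ?_ le_rfl
    rw [← ENNReal.ofReal_pow (by positivity), ← ENNReal.ofReal_mul (by positivity),
      ← ENNReal.ofReal_mul (by positivity)]
    refine ENNReal.ofReal_le_ofReal ?_
    have h4 : ((q + 1) * C / L) ^ 2 * ((L + 1) * (2 * L + 2)) =
        ((q + 1) * C) ^ 2 * (2 * ((L + 1) / L) ^ 2) := by
      field_simp
    rw [h4, mul_comm (8 : ℝ)]
    refine mul_le_mul_of_nonneg_left ?_ (by positivity)
    have h5 : (L + 1) / L ≤ 2 := by
      rw [div_le_iff₀ hL0]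
      linarith
    have h6 : 0 ≤ (L + 1) / L := by positivity
    nlinarith
  · intro x _
    by_cases hx : x = 0
    · subst hx
      have : ∀ s : ℝ, (AA L).indicator (fun _ => (1 : ℝ≥0∞)) (s • (0 : EE 4)) = 0 := by
        intro s
        refine indicator_of_notMem ?_ _
        intro h
        have := AA_pos h
        simp at this
      simp only [this, zero_mul, lintegral_zero]
      exact zero_le
    · have hxp : 0 < ‖x‖ := norm_pos_iff.2 hx
      have h3 := lintegral_inv_sub (I := Ioc a 1) (w := fun s => (AA L).indicator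
        (fun _ => (1 : ℝ≥0∞)) (s • x)) (p := Real.exp (-(2 * L + 1)) / ‖x‖)
        (r := Real.exp (-L) / ‖x‖) measurableSet_Ioc (by positivity) (by
          refine div_le_div_of_nonneg_right (Real.exp_le_exp.2 (by linarith)) hxp.le) (by
          intro s hs
          have hs0 : 0 < s := ha.trans hs.1
          by_cases h : s • x ∈ AA L
          · have h4 := h.1
            have h5 := h.2
            rw [norm_smul, Real.norm_of_nonneg hs0.le] at h4 h5
            have h6 : s ∈ Icc (Real.exp (-(2 * L + 1)) / ‖x‖) (Real.exp (-L) / ‖x‖) := by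
              constructor
              · rwa [div_le_iff₀ hxp]
              · rwa [le_div_iff₀ hxp]
            rw [indicator_of_mem h, indicator_of_mem h6]
          · rw [indicator_of_notMem h]
            exact zero_le)
      refine h3.trans (ENNReal.ofReal_le_ofReal ?_)
      have h7 : Real.exp (-L) / ‖x‖ / (Real.exp (-(2 * L + 1)) / ‖x‖) = Real.exp (L + 1) := by
        rw [div_div_div_cancel_right₀ hxp.ne', ← Real.exp_sub]
        congr 1
        ring
      rw [h7, Real.log_exp]
  · intro y hy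
    have hyp := AA_pos hy
    have hy1 : ‖y‖ ≤ 1 := hy.2.trans (by
      rw [Real.exp_le_one_iff]
      linarith)
    have h3 := lintegral_inv_sub (I := Ioc a 1) (w := fun s => (Metric.ball (0 : EE 4) 2).indicator
        (fun _ => (1 : ℝ≥0∞)) (s⁻¹ • y)) (p := ‖y‖ / 2)
        (r := 1) measurableSet_Ioc (by positivity) (by linarith) (by
          intro s hs
          have hs0 : 0 < s := ha.trans hs.1
          by_cases h : s⁻¹ • y ∈ Metric.ball (0 : EE 4) 2
          · have h4 := h
            rw [mem_ball_zero_iff, norm_smul, Real.norm_of_nonneg (inv_nonneg.2 hs0.le),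
              inv_mul_lt_iff₀ hs0] at h4
            have h6 : s ∈ Icc (‖y‖ / 2) 1 := ⟨by linarith, hs.2⟩
            rw [indicator_of_mem h, indicator_of_mem h6]
          · rw [indicator_of_notMem h]
            exact zero_le)
    refine h3.trans (ENNReal.ofReal_le_ofReal ?_)
    have h7 : Real.log (1 / (‖y‖ / 2)) = Real.log 2 - Real.log ‖y‖ := by
      rw [one_div_div, Real.log_div (by norm_num) hyp.ne']
    have h8 : -(2 * L + 1) ≤ Real.log ‖y‖ := by
      rw [← Real.log_exp (-(2 * L + 1))]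
      exact Real.log_le_log (Real.exp_pos _) hy.1
    have h9 : Real.log 2 ≤ 1 := by
      have := Real.log_two_lt_d9
      linarith
    rw [h7]
    linarith

end Pool.Agent.H92
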