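import Pool.Agent.H92.Hartogs.Corr

set_option autoImplicit false
set_option linter.unusedSectionVars false

open MeasureTheory Set Filter Topology
open scoped ContDiff ENNReal

namespace Pool.Agent.H92

variable {q : ℕ} {F : Type*} [NormedAddCommGroup F] [NormedSpace ℝ F] [CompleteSpace F]

theorem KK_zero_of {a b : ℝ} {om : EE 4 → VV 4 (q + 1) F} {x : EE 4}
    (h : ∀ s ∈ Ioc a b, om (s • x) = 0) : KK a b om x = 0 := by
  unfold KK
  refine setIntegral_eq_zero_of_forall_eq_zero fun s hs => ?_
  rw [h s hs, map_zero, smul_zero]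

theorem AA_subset (n : ℕ) :
    AA ((n : ℝ) + 1) ⊆ Metric.closedBall (0 : EE 4) (Real.exp (-((n : ℝ) + 1))) := by
  intro x hx
  rw [mem_closedBall_zero_iff]
  exact hx.2

theorem lintegral_AA_le {G : Type*} [NormedAddCommGroup G] (u : EE 4 → G) (n : ℕ) :
    ∫⁻ y in AA ((n : ℝ) + 1), ‖u y‖ₑ ^ 2 ≤ tail u n :=
  lintegral_mono_set (AA_subset n)

theorem tail_mul_tendsto {G : Type*} [NormedAddCommGroup G] {g : EE 4 → G}
    (hg : MemLp g 2 volume) (c : ℝ) {ε : ℝ} (hε : 0 < ε) :
    ∀ᶠ n in atTop, ENNReal.ofReal c * tail g n ≤ ENNReal.ofReal ε := by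
  have h1 : Tendsto (fun n => ENNReal.ofReal c * tail g n) atTop (𝓝 0) := by
    have := ENNReal.Tendsto.const_mul (a := ENNReal.ofReal c) (tail_tendsto hg)
      (Or.inr ENNReal.ofReal_ne_top)
    simpa using this
  exact (ENNReal.tendsto_nhds_zero.1 h1) _ (ENNReal.ofReal_pos.2 hε)

theorem LI_add {G : Type*} [NormedAddCommGroup G] {N : ℕ} {f g : EE N → G}
    (hf : LocallyIntegrable f) (hg : LocallyIntegrable g) :
    LocallyIntegrable (fun x => f x + g x) := hf.add hg

theorem LI_sub {G : Type*} [NormedAddCommGroup G] {N : ℕ} {f g : EE N → G}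
    (hf : LocallyIntegrable f) (hg : LocallyIntegrable g) :
    LocallyIntegrable (fun x => f x - g x) := hf.sub hg

theorem LI_neg {G : Type*} [NormedAddCommGroup G] {N : ℕ} {f : EE N → G}
    (hf : LocallyIntegrable f) :
    LocallyIntegrable (fun x => - f x) := hf.neg

theorem LI_zero {G : Type*} [NormedAddCommGroup G] {N : ℕ} :
    LocallyIntegrable (fun _ : EE N => (0 : G)) :=
  (integrable_zero (EE N) G volume).locallyIntegrable

theorem enorm_neg' {G : Type*} [NormedAddCommGroup G] (x : G) : ‖-x‖ₑ = ‖x‖ₑ := enorm_neg x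

/-- the case of degree at least two -/
theorem Apx.ge_two (hq : 2 ≤ q) {g : EE 4 → VV 4 q F} {h : EE 4 → VV 4 (q + 1) F}
    (hgm : StronglyMeasurable g) (hhm : StronglyMeasurable h)
    (hg : MemLp g 2 volume) (hh : MemLp h 2 volume) (hw : WD TT g h) : Apx g h := by
  obtain ⟨C, hC0, hC⟩ := exists_deriv_bound
  refine Apx.of_corr hgm hhm hg hh fun ε hε => ?_
  filter_upwards [tail_mul_tendsto hg (8 * ((q + 1) * C) ^ 2) hε,
    tail_mul_tendsto hh (8 * (((q + 1 : ℕ) + 1) * C) ^ 2) hε] with n hn1 hn2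
  set L : ℝ := (n : ℝ) + 1 with hLdef
  have hL : 1 ≤ L := by
    rw [hLdef]
    linarith [Nat.cast_nonneg (α := ℝ) n]
  set a : ℝ := Real.exp (-(2 * L + 1)) / 2 with hadef
  have ha : 0 < a := by positivity
  have ha1 : a ≤ 1 := by
    have : Real.exp (-(2 * L + 1)) ≤ 1 := by
      rw [Real.exp_le_one_iff]
      linarith
    rw [hadef]
    linarith [Real.exp_pos (-(2 * L + 1))]
  have hχ := chi_smooth L
  have hgl := hg.locallyIntegrable (by norm_num)
  have hhl := hh.locallyIntegrable (by norm_num)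
  set om : EE 4 → VV 4 (q + 1) F := fun x => wdgL 4 q F (fderiv ℝ (chi L) x) (g x) with hom
  set sg : EE 4 → VV 4 (q + 1 + 1) F := fun x => wdgL 4 (q + 1) F (fderiv ℝ (chi L) x) (h x)
    with hsg
  have homm : StronglyMeasurable om := sm_wdg hχ hgm
  have hsgm : StronglyMeasurable sg := sm_wdg hχ hhm
  have homl : LocallyIntegrable om := LI_wdg hχ hgl
  have hsgl : LocallyIntegrable sg := LI_wdg hχ hhl
  have hsgl' : LocallyIntegrable (fun x => - sg x) := LI_neg hsgl
  have hχg : LocallyIntegrable (fun x => chi L x • g x) := LI_smul hχ.continuous hgl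
  have hχh : LocallyIntegrable (fun x => chi L x • h x) := LI_smul hχ.continuous hhl
  have W1 : WD TT (fun x => chi L x • g x) (fun x => om x + chi L x • h x) :=
    hw.smul hgl hhl hχ
  have W2 := W1.dd
  have h0l : LocallyIntegrable (fun _ : EE 4 => (0 : VV 4 (q + 1 + 1) F)) := LI_zero
  have W4 := hw.dd.smul hhl h0l hχ
  have W5 := W2.sub W4 (LI_add homl hχh) hχh h0l
    (LI_add hsgl (LI_smul hχ.continuous h0l))
  have W6 : WD TT om (fun x => - sg x) := by
    refine W5.congr (Eventually.of_forall fun x _ => ?_) (Eventually.of_forall fun x _ => ?_)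
    · beta_reduce
      abel
    · beta_reduce
      rw [smul_zero, add_zero, zero_sub]
  have W7 := W6.homot (W := TT) ha ha1
    (fun s hs x hx => smul_mem_TT hx (ha.trans_le hs.1) hs.2) homm hsgm.neg homl hsgl'
  have hKom : LocallyIntegrable (KK a 1 om) := LI_KK ha homm homl
  have hKsg : LocallyIntegrable (KK a 1 (fun x => - sg x)) := LI_KK ha hsgm.neg hsgl'
  have W8 := W1.sub W7 hχg hKom (LI_add homl hχh)
    (LI_sub (LI_sub (LI_pbs one_pos homl) (LI_pbs ha homl)) hKsg)
  refine ⟨fun x => - KK a 1 om x, fun x => - KK a 1 sg x, (sm_KK a 1 homm).neg,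
    (sm_KK a 1 hsgm).neg, ?_, ?_, ?_, ?_, ?_⟩
  · refine W8.congr (Eventually.of_forall fun x _ => ?_) (Eventually.of_forall fun x hx => ?_)
    · beta_reduce
      rw [sub_eq_add_neg]
    · beta_reduce
      have e1 : pbs 1 om x = om x := by
        unfold pbs
        rw [one_pow, one_smul, one_smul]
      have e2 : pbs a om x = 0 := by
        unfold pbs
        have hx2 := TT_subset_ball hx
        rw [mem_ball_zero_iff] at hx2
        have : fderiv ℝ (chi L) (a • x) = 0 := by
          refine fderiv_chi_zero_of_lt hL ?_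
          rw [norm_smul, Real.norm_of_nonneg ha.le, hadef]
          have := Real.exp_pos (-(2 * L + 1))
          nlinarith
        rw [hom]
        beta_reduce
        rw [this, map_zero, zero_apply, smul_zero]
      rw [e1, e2, KK_neg]
      abel
  · intro x _ hx
    beta_reduce
    rw [KK_zero_of, neg_zero]
    intro s hs
    rw [hom]
    beta_reduce
    rw [fderiv_chi_zero_of_lt hL, map_zero, zero_apply]
    rw [norm_smul, Real.norm_of_nonneg (ha.trans hs.1).le]
    exact (mul_le_of_le_one_left (norm_nonneg _) hs.2).trans_lt hx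
  · intro x _ hx
    beta_reduce
    rw [KK_zero_of, neg_zero]
    intro s hs
    rw [hsg]
    beta_reduce
    rw [fderiv_chi_zero_of_lt hL, map_zero, zero_apply]
    rw [norm_smul, Real.norm_of_nonneg (ha.trans hs.1).le]
    exact (mul_le_of_le_one_left (norm_nonneg _) hs.2).trans_lt hx
  · simp only [enorm_neg']
    refine (lintegral_mono_set TT_subset_ball).trans ?_
    refine (KK_est hq hgm hC0 hC hL ha).trans (le_trans ?_ hn1)
    exact mul_le_mul' le_rfl (lintegral_AA_le g n)
  · simp only [enorm_neg']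
    refine (lintegral_mono_set TT_subset_ball).trans ?_
    refine (KK_est (by omega) hhm hC0 hC hL ha).trans (le_trans ?_ hn2)
    exact mul_le_mul' le_rfl (lintegral_AA_le h n)

end Pool.Agent.H92
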