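import Pool.Agent.H92.Hartogs.StepA2

set_option autoImplicit false
set_option linter.unusedSectionVars false

open MeasureTheory Set Filter Topology
open scoped ContDiff ENNReal

namespace Pool.Agent.H92

variable {q : ℕ} {F : Type*} [NormedAddCommGroup F] [NormedSpace ℝ F] [CompleteSpace F]

theorem beta_AA {L : ℝ} (hL : 1 ≤ L) {I : Set ℝ} (hI : MeasurableSet I) (hI0 : I ⊆ Ioi 0)
    (y : EE 4) : ∫⁻ s in I, (AA L).indicator (fun _ => (1 : ℝ≥0∞)) (s⁻¹ • y) *
      ENNReal.ofReal s⁻¹ ≤ ENNReal.ofReal (L + 1) := by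
  by_cases hy : y = 0
  · subst hy
    have : ∀ s : ℝ, (AA L).indicator (fun _ => (1 : ℝ≥0∞)) (s⁻¹ • (0 : EE 4)) = 0 := by
      intro s
      refine indicator_of_notMem ?_ _
      intro h
      have := AA_pos h
      simp at this
    simp only [this, zero_mul, lintegral_zero]
    exact zero_le
  · have hyp : 0 < ‖y‖ := norm_pos_iff.2 hy
    have h3 := lintegral_inv_sub (I := I) (w := fun s => (AA L).indicator
      (fun _ => (1 : ℝ≥0∞)) (s⁻¹ • y)) (p := ‖y‖ / Real.exp (-L))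
      (r := ‖y‖ / Real.exp (-(2 * L + 1))) hI (by positivity) (by
        refine div_le_div_of_nonneg_left hyp.le (Real.exp_pos _)
          (Real.exp_le_exp.2 (by linarith))) (by
        intro s hs
        have hs0 : 0 < s := hI0 hs
        by_cases h : s⁻¹ • y ∈ AA L
        · have h4 := h.1
          have h5 := h.2
          rw [norm_smul, Real.norm_of_nonneg (inv_nonneg.2 hs0.le)] at h4 h5
          have h6 : s ∈ Icc (‖y‖ / Real.exp (-L)) (‖y‖ / Real.exp (-(2 * L + 1))) := by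
            constructor
            · rw [div_le_iff₀ (Real.exp_pos _)]
              rwa [inv_mul_le_iff₀ hs0] at h5
            · rw [le_div_iff₀ (Real.exp_pos _)]
              rwa [le_inv_mul_iff₀ hs0] at h4
          rw [indicator_of_mem h, indicator_of_mem h6]
        · rw [indicator_of_notMem h]
          exact zero_le)
    refine h3.trans (ENNReal.ofReal_le_ofReal ?_)
    have h7 : ‖y‖ / Real.exp (-(2 * L + 1)) / (‖y‖ / Real.exp (-L)) = Real.exp (L + 1) := by
      rw [div_div_div_cancel_left' _ _ hyp.ne', ← Real.exp_sub]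
      congr 1
      ring
    rw [h7, Real.log_exp]

theorem alpha_ann {p r : ℝ} (hp : 0 < p) (hpr : p ≤ r) {M : ℝ} {x : EE 4}
    {S : Set (EE 4)} (hS : ∀ s ∈ Ioc 1 M, s • x ∈ S → p ≤ s ∧ s ≤ r) :
    ∫⁻ s in Ioc 1 M, S.indicator (fun _ => (1 : ℝ≥0∞)) (s • x) * ENNReal.ofReal s⁻¹ ≤
      ENNReal.ofReal (Real.log (r / p)) := by
  refine lintegral_inv_sub (w := fun s => S.indicator (fun _ => (1 : ℝ≥0∞)) (s • x))
    measurableSet_Ioc hp hpr ?_
  intro s hs
  by_cases h : s • x ∈ S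
  · have h6 : s ∈ Icc p r := hS s hs h
    rw [indicator_of_mem h, indicator_of_mem h6]
  · rw [indicator_of_notMem h]
    exact zero_le

theorem AA_le_one {L : ℝ} (hL : 1 ≤ L) {x : EE 4} (hx : x ∈ AA L) : ‖x‖ ≤ 1 :=
  hx.2.trans (by
    rw [Real.exp_le_one_iff]
    linarith)

theorem est_one {L : ℝ} (hL : 1 ≤ L) {M : ℝ} {v : EE 4 → ℝ≥0∞} (hv : Measurable v)
    (hvS : ∀ y, y ∉ Metric.closedBall (0 : EE 4) 1 → v y = 0) :
    ∫⁻ x in AA L, (∫⁻ s in Ioc 1 M, ENNReal.ofReal s * v (s • x)) ^ 2 ≤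
      ENNReal.ofReal (2 * L + 1) * ENNReal.ofReal (L + 1) * ∫⁻ y, v y ^ 2 := by
  refine schur measurableSet_Ioc (fun s hs => zero_lt_one.trans hs.1) (measurableSet_AA L)
    measurableSet_closedBall hv hvS ?_ ?_
  · intro x hx
    have hxp := AA_pos hx
    have hx1 := AA_le_one hL hx
    refine (alpha_ann (p := 1) (r := 1 / ‖x‖) one_pos ?_ ?_).trans ?_
    · rwa [le_div_iff₀ hxp, one_mul]
    · intro s hs h
      rw [mem_closedBall_zero_iff, norm_smul, Real.norm_of_nonneg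
        (zero_lt_one.trans hs.1).le] at h
      exact ⟨hs.1.le, by rwa [le_div_iff₀ hxp]⟩
    · refine ENNReal.ofReal_le_ofReal ?_
      rw [div_one, one_div, Real.log_inv]
      have h8 : -(2 * L + 1) ≤ Real.log ‖x‖ := by
        rw [← Real.log_exp (-(2 * L + 1))]
        exact Real.log_le_log (Real.exp_pos _) hx.1
      linarith
  · intro y _
    exact beta_AA hL measurableSet_Ioc (fun s hs => zero_lt_one.trans hs.1) y

theorem est_two {L : ℝ} (hL : 1 ≤ L) {M : ℝ} {v : EE 4 → ℝ≥0∞} (hv : Measurable v) {j : ℝ}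
    (hj : 0 ≤ j) (hvS : ∀ y, y ∉ {y : EE 4 | Real.exp (-j) ≤ ‖y‖ ∧ ‖y‖ ≤ 1} → v y = 0) :
    ∫⁻ x in AA L, (∫⁻ s in Ioc 1 M, ENNReal.ofReal s * v (s • x)) ^ 2 ≤
      ENNReal.ofReal j * ENNReal.ofReal (L + 1) * ∫⁻ y, v y ^ 2 := by
  have hSm : MeasurableSet {y : EE 4 | Real.exp (-j) ≤ ‖y‖ ∧ ‖y‖ ≤ 1} :=
    ((isClosed_le continuous_const continuous_norm).inter
    (isClosed_le continuous_norm continuous_const)).measurableSet
  refine schur measurableSet_Ioc (fun s hs => zero_lt_one.trans hs.1) (measurableSet_AA L)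
    hSm hv hvS ?_ ?_
  · intro x hx
    have hxp := AA_pos hx
    have hx1 := AA_le_one hL hx
    refine (alpha_ann (p := Real.exp (-j) / ‖x‖) (r := 1 / ‖x‖) (by positivity) ?_ ?_).trans ?_
    · refine div_le_div_of_nonneg_right ?_ hxp.le
      rw [Real.exp_le_one_iff]
      linarith
    · intro s hs h
      have h1 := h.1
      have h2 := h.2
      rw [norm_smul, Real.norm_of_nonneg (zero_lt_one.trans hs.1).le] at h1 h2
      exact ⟨by rwa [div_le_iff₀ hxp], by rwa [le_div_iff₀ hxp]⟩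
    · refine ENNReal.ofReal_le_ofReal ?_
      rw [div_div_div_cancel_right₀ hxp.ne', one_div, ← Real.exp_neg, neg_neg, Real.log_exp]
  · intro y _
    exact beta_AA hL measurableSet_Ioc (fun s hs => zero_lt_one.trans hs.1) y

theorem estB {G : Type*} [NormedAddCommGroup G] {u : EE 4 → G} (hu : StronglyMeasurable u)
    (hu0 : ∀ y, 1 < ‖y‖ → u y = 0) {L : ℝ} (hL : 1 ≤ L) (M : ℝ) (j : ℕ) :
    ∫⁻ x in AA L, (∫⁻ s in Ioc 1 M, ENNReal.ofReal s * ‖u (s • x)‖ₑ) ^ 2 ≤
      4 * (ENNReal.ofReal (2 * L + 1) * ENNReal.ofReal (L + 1) * tail u j) +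
      4 * (ENNReal.ofReal ((j : ℝ) + 1) * ENNReal.ofReal (L + 1) * ∫⁻ y, ‖u y‖ₑ ^ 2) := by
  set B := Metric.closedBall (0 : EE 4) (Real.exp (-((j : ℝ) + 1))) with hB
  have hBm : MeasurableSet B := measurableSet_closedBall
  set v1 : EE 4 → ℝ≥0∞ := B.indicator (fun y => ‖u y‖ₑ) with hv1
  set v2 : EE 4 → ℝ≥0∞ := Bᶜ.indicator (fun y => ‖u y‖ₑ) with hv2
  have hv1m : Measurable v1 := hu.enorm.indicator hBm
  have hv2m : Measurable v2 := hu.enorm.indicator hBm.compl
  have hadd : ∀ y, ‖u y‖ₑ = v1 y + v2 y := by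
    intro y
    rw [hv1, hv2]
    by_cases h : y ∈ B
    · rw [indicator_of_mem h, indicator_of_notMem (by simpa using h), add_zero]
    · rw [indicator_of_notMem h, indicator_of_mem (by simpa using h), zero_add]
  have hm1 : Measurable (fun p : EE 4 × ℝ => ENNReal.ofReal p.2 * v1 (p.2 • p.1)) :=
    Measurable.mul (by fun_prop) (hv1m.comp (by fun_prop))
  have hj0 : (0 : ℝ) ≤ (j : ℝ) + 1 := by positivity
  have e1 : ∀ x, (∫⁻ s in Ioc 1 M, ENNReal.ofReal s * ‖u (s • x)‖ₑ) ^ 2 ≤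
      4 * (∫⁻ s in Ioc 1 M, ENNReal.ofReal s * v1 (s • x)) ^ 2 +
      4 * (∫⁻ s in Ioc 1 M, ENNReal.ofReal s * v2 (s • x)) ^ 2 := by
    intro x
    have e2 : ∫⁻ s in Ioc 1 M, ENNReal.ofReal s * ‖u (s • x)‖ₑ =
        (∫⁻ s in Ioc 1 M, ENNReal.ofReal s * v1 (s • x)) +
        ∫⁻ s in Ioc 1 M, ENNReal.ofReal s * v2 (s • x) := by
      rw [← lintegral_add_left]
      · refine lintegral_congr fun s => ?_
        rw [hadd, mul_add]
      · exact Measurable.mul (by fun_prop) (hv1m.comp (by fun_prop))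
    rw [e2]
    exact sq_add_le' _ _
  refine (lintegral_mono e1).trans ?_
  rw [lintegral_add_left, lintegral_const_mul' _ _ (by simp), lintegral_const_mul' _ _ (by simp)]
  swap
  · refine Measurable.const_mul ?_ _
    exact (hm1.lintegral_prod_right').pow_const 2
  refine add_le_add (mul_le_mul' le_rfl ?_) (mul_le_mul' le_rfl ?_)
  · refine (est_one hL hv1m ?_).trans ?_
    · intro y hy
      rw [hv1]
      by_cases h : y ∈ B
      · exfalso
        rw [hB, mem_closedBall_zero_iff] at h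
        rw [mem_closedBall_zero_iff] at hy
        refine hy (h.trans ?_)
        rw [Real.exp_le_one_iff]
        linarith
      · rw [indicator_of_notMem h]
    · refine mul_le_mul' le_rfl ?_
      unfold tail
      rw [← lintegral_indicator hBm]
      refine lintegral_mono fun y => ?_
      rw [hv1]
      by_cases h : y ∈ B
      · rw [indicator_of_mem h, indicator_of_mem h]
      · rw [indicator_of_notMem h]
        simp
  · refine (est_two hL hv2m hj0 ?_).trans ?_
    · intro y hy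
      rw [hv2]
      by_cases h : y ∈ Bᶜ
      · rw [indicator_of_mem h]
        rw [mem_compl_iff, hB, mem_closedBall_zero_iff, not_le] at h
        rw [mem_ofPred_eq, not_and, not_le] at hy
        rw [hu0 y (hy h.le), enorm0]
      · rw [indicator_of_notMem h]
    · refine mul_le_mul' le_rfl (lintegral_mono fun y => ?_)
      rw [hv2]
      by_cases h : y ∈ Bᶜ
      · rw [indicator_of_mem h]
      · rw [indicator_of_notMem h]
        simp

theorem wdg_KK_pt (hq : q ≤ 1) {u : EE 4 → VV 4 (q + 1) F} {C : ℝ} (hC0 : 0 ≤ C)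
    (hC : ∀ t, |deriv Real.smoothTransition t| ≤ C) {L : ℝ} (hL : 1 ≤ L) (M : ℝ)
    {x : EE 4} (hx : x ∈ AA L) :
    ‖wdgL 4 q F (fderiv ℝ (chi L) x) (- KK 1 M u x)‖ₑ ≤
      ENNReal.ofReal ((q + 1) * C / L) * ∫⁻ s in Ioc 1 M, ENNReal.ofReal s * ‖u (s • x)‖ₑ := by
  have hxp := AA_pos hx
  have h1 : ‖KK 1 M u x‖ₑ ≤ ENNReal.ofReal ‖x‖ *
      ∫⁻ s in Ioc 1 M, ENNReal.ofReal s * ‖u (s • x)‖ₑ := by
    unfold KK
    refine (enorm_integral_le_lintegral_enorm _).trans ?_
    rw [← lintegral_const_mul' _ _ ENNReal.ofReal_ne_top]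
    refine setLIntegral_mono' measurableSet_Ioc fun s hs => ?_
    have hs0 : 0 < s := zero_lt_one.trans hs.1
    rw [← ofReal_norm, ← ofReal_norm, ← ENNReal.ofReal_mul hs0.le,
      ← ENNReal.ofReal_mul (norm_nonneg _)]
    refine ENNReal.ofReal_le_ofReal ?_
    rw [norm_smul, Real.norm_of_nonneg (by positivity)]
    have h2 := norm_ctr_le x (u (s • x))
    have h3 : s ^ q ≤ s := by
      calc s ^ q ≤ s ^ 1 := pow_le_pow_right₀ hs.1.le hq
        _ = s := pow_one s
    calc s ^ q * ‖ctr 4 q F x (u (s • x))‖ ≤ s * (‖x‖ * ‖u (s • x)‖) :=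
          mul_le_mul h3 h2 (norm_nonneg _) hs0.le
      _ = ‖x‖ * (s * ‖u (s • x)‖) := by ring
  have h4 : ‖wdgL 4 q F (fderiv ℝ (chi L) x) (- KK 1 M u x)‖ₑ ≤
      ENNReal.ofReal ((q + 1) * (C / (L * ‖x‖))) * ‖KK 1 M u x‖ₑ := by
    rw [← ofReal_norm, ← ofReal_norm, ← ENNReal.ofReal_mul (by positivity)]
    refine ENNReal.ofReal_le_ofReal ?_
    refine (norm_wdgL_le _ _).trans ?_
    rw [norm_neg, mul_assoc]
    refine mul_le_mul_of_nonneg_left ?_ (by positivity)
    refine mul_le_mul_of_nonneg_right ?_ (norm_nonneg _)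
    exact norm_fderiv_chi_le hL hC0 hC x (norm_pos_iff.1 hxp)
  refine h4.trans ((mul_le_mul' le_rfl h1).trans ?_)
  rw [← mul_assoc, ← ENNReal.ofReal_mul (by positivity)]
  refine mul_le_mul' (ENNReal.ofReal_le_ofReal (le_of_eq ?_)) le_rfl
  field_simp

end Pool.Agent.H92
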