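import Pool.Agent.H92.Hartogs.StepB

set_option autoImplicit false
set_option linter.unusedSectionVars false

open MeasureTheory Set Filter Topology
open scoped ContDiff ENNReal

namespace Pool.Agent.H92

variable {q : ℕ} {F : Type*} [NormedAddCommGroup F] [NormedSpace ℝ F] [CompleteSpace F]

theorem wdg_KK_est (hq : q ≤ 1) {u : EE 4 → VV 4 (q + 1) F} (hum : StronglyMeasurable u)
    (hu0 : ∀ y, 1 < ‖y‖ → u y = 0) {C : ℝ} (hC0 : 0 ≤ C)
    (hC : ∀ t, |deriv Real.smoothTransition t| ≤ C) {L : ℝ} (hL : 1 ≤ L) (M : ℝ) (j : ℕ) :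
    ∫⁻ x in TT, ‖wdgL 4 q F (fderiv ℝ (chi L) x) (- KK 1 M u x)‖ₑ ^ 2 ≤
      ENNReal.ofReal (24 * ((q + 1) * C) ^ 2) * tail u j +
      ENNReal.ofReal (8 * ((q + 1) * C) ^ 2 * ((j : ℝ) + 1) * (1 / L)) * ∫⁻ y, ‖u y‖ₑ ^ 2 := by
  have hL0 : 0 < L := by linarith
  have h1 : ∫⁻ x in TT, ‖wdgL 4 q F (fderiv ℝ (chi L) x) (- KK 1 M u x)‖ₑ ^ 2 ≤
      ∫⁻ x in AA L, ENNReal.ofReal ((q + 1) * C / L) ^ 2 *
        (∫⁻ s in Ioc 1 M, ENNReal.ofReal s * ‖u (s • x)‖ₑ) ^ 2 := by
    refine (setLIntegral_le_lintegral _ _).trans ?_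
    rw [← lintegral_indicator (measurableSet_AA L)]
    refine lintegral_mono fun x => ?_
    by_cases hx : x ∈ AA L
    · rw [indicator_of_mem hx, ← mul_pow]
      exact pow_le_pow_left' (wdg_KK_pt hq hC0 hC hL M hx) 2
    · rw [fderiv_chi_zero hL hx, map_zero, zero_apply, enorm0]
      simp
  refine h1.trans ?_
  rw [lintegral_const_mul' _ _ (ENNReal.pow_ne_top ENNReal.ofReal_ne_top)]
  refine (mul_le_mul' le_rfl (estB hum hu0 hL M j)).trans ?_
  rw [mul_add]
  have e4 : (4 : ℝ≥0∞) = ENNReal.ofReal 4 := by simp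
  have hj : (0 : ℝ) ≤ (j : ℝ) + 1 := by positivity
  refine add_le_add ?_ ?_
  · rw [← mul_assoc, ← mul_assoc]
    refine mul_le_mul' ?_ le_rfl
    rw [e4, ← ENNReal.ofReal_pow (by positivity), ← ENNReal.ofReal_mul (by positivity),
      ← ENNReal.ofReal_mul (by positivity), ← ENNReal.ofReal_mul (by positivity)]
    refine ENNReal.ofReal_le_ofReal ?_
    have h4 : ((q + 1) * C / L) ^ 2 * 4 * ((2 * L + 1) * (L + 1)) =
        ((q + 1) * C) ^ 2 * (4 * (((2 * L + 1) / L) * ((L + 1) / L))) := by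
      field_simp
    rw [h4, mul_comm (24 : ℝ)]
    refine mul_le_mul_of_nonneg_left ?_ (by positivity)
    have h5 : (L + 1) / L ≤ 2 := by
      rw [div_le_iff₀ hL0]
      linarith
    have h6 : (2 * L + 1) / L ≤ 3 := by
      rw [div_le_iff₀ hL0]
      linarith
    have h7 : 0 ≤ (L + 1) / L := by positivity
    have h8 : 0 ≤ (2 * L + 1) / L := by positivity
    nlinarith
  · rw [← mul_assoc, ← mul_assoc]
    refine mul_le_mul' ?_ le_rfl
    rw [e4, ← ENNReal.ofReal_pow (by positivity), ← ENNReal.ofReal_mul (by positivity),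
      ← ENNReal.ofReal_mul (by positivity), ← ENNReal.ofReal_mul (by positivity)]
    refine ENNReal.ofReal_le_ofReal ?_
    have h4 : ((q + 1) * C / L) ^ 2 * 4 * (((j : ℝ) + 1) * (L + 1)) =
        (((q + 1) * C) ^ 2 * ((j : ℝ) + 1) * (1 / L)) * (4 * ((L + 1) / L)) := by
      field_simp
    have h5 : (L + 1) / L ≤ 2 := by
      rw [div_le_iff₀ hL0]
      linarith
    rw [h4]
    have h9 : 0 ≤ ((q + 1) * C) ^ 2 * ((j : ℝ) + 1) * (1 / L) := by positivity
    nlinarith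

theorem wdg_KK_small (hq : q ≤ 1) {u : EE 4 → VV 4 (q + 1) F} (hum : StronglyMeasurable u)
    (huL : MemLp u 2 volume)
    (hu0 : ∀ y, 1 < ‖y‖ → u y = 0) {C : ℝ} (hC0 : 0 ≤ C)
    (hC : ∀ t, |deriv Real.smoothTransition t| ≤ C) {ε : ℝ} (hε : 0 < ε) :
    ∀ᶠ n : ℕ in atTop, ∀ M : ℝ,
      ∫⁻ x in TT, ‖wdgL 4 q F (fderiv ℝ (chi ((n : ℝ) + 1)) x) (- KK 1 M u x)‖ₑ ^ 2 ≤
        ENNReal.ofReal ε := by
  obtain ⟨j, hj⟩ := (tail_mul_tendsto huL (24 * ((q + 1) * C) ^ 2) (half_pos hε)).exists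
  have hfin : ∫⁻ y, ‖u y‖ₑ ^ 2 ≠ ⊤ := by
    rw [← eL2]
    exact ENNReal.pow_ne_top huL.2.ne
  have h1 : Tendsto (fun n : ℕ => ENNReal.ofReal (8 * ((q + 1) * C) ^ 2 * ((j : ℝ) + 1) *
      (1 / ((n : ℝ) + 1))) * ∫⁻ y, ‖u y‖ₑ ^ 2) atTop (𝓝 0) := by
    have h2 : Tendsto (fun n : ℕ => 8 * ((q + 1) * C) ^ 2 * ((j : ℝ) + 1) *
        (1 / ((n : ℝ) + 1))) atTop (𝓝 0) := by
      have := (tendsto_one_div_add_atTop_nhds_zero_nat (𝕜 := ℝ)).const_mul
        (8 * ((q + 1) * C) ^ 2 * ((j : ℝ) + 1))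
      simpa using this
    have h3 := ENNReal.tendsto_ofReal h2
    rw [ENNReal.ofReal_zero] at h3
    have h4 := ENNReal.Tendsto.mul_const h3 (Or.inr hfin)
    simpa using h4
  have h5 := (ENNReal.tendsto_nhds_zero.1 h1) _ (ENNReal.ofReal_pos.2 (half_pos hε))
  filter_upwards [h5] with n hn M
  have hL : (1 : ℝ) ≤ (n : ℝ) + 1 := by linarith [Nat.cast_nonneg (α := ℝ) n]
  refine (wdg_KK_est hq hum hu0 hC0 hC hL M j).trans ((add_le_add hj hn).trans ?_)
  rw [← ENNReal.ofReal_add (by positivity) (by positivity), add_halves]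

/-- the case of degree one on the truncated cone -/
theorem Apx.cone_one (hq : q = 0) {f : EE 4 → VV 4 (q + 1) F} {h : EE 4 → VV 4 (q + 2) F}
    (hfm : StronglyMeasurable f) (hhm : StronglyMeasurable h)
    (hf : MemLp f 2 volume) (hh : MemLp h 2 volume) (hw : WD CC f h)
    (hf0 : ∀ y, 1 / 2 ≤ ‖y‖ → f y = 0) (hh0 : ∀ y, 1 / 2 ≤ ‖y‖ → h y = 0) : Apx f h := by
  obtain ⟨C, hC0, hC⟩ := exists_deriv_bound
  refine Apx.of_corr hfm hhm hf hh fun ε hε => ?_
  filter_upwards [wdg_KK_small (u := f) (by omega) hfm hf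
      (fun y hy => hf0 y (by linarith)) hC0 hC hε,
    wdg_KK_small (u := h) (by omega) hhm hh (fun y hy => hh0 y (by linarith)) hC0 hC hε]
    with n hn1 hn2
  set L : ℝ := (n : ℝ) + 1 with hLdef
  have hL : 1 ≤ L := by
    rw [hLdef]
    linarith [Nat.cast_nonneg (α := ℝ) n]
  set M : ℝ := Real.exp (2 * L + 1) with hM
  have hM1 : 1 ≤ M := by
    rw [hM]
    exact Real.one_le_exp (by linarith)
  have hM0 : 0 < M := by linarith
  set ρ : ℝ := Real.exp (-(2 * L + 1)) with hρ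
  have hρ0 : 0 < ρ := Real.exp_pos _
  have hMρ : M * ρ = 1 := by
    rw [hM, hρ, ← Real.exp_add]
    simp
  set W : Set (EE 4) := CC ∩ {x | ρ / 2 < ‖x‖} with hWdef
  have hWo : IsOpen W := isOpen_CC.inter (isOpen_lt continuous_const continuous_norm)
  have hχ := chi_smooth L
  have hfl := hf.locallyIntegrable (by norm_num)
  have hhl := hh.locallyIntegrable (by norm_num)
  have hKfl : LocallyIntegrable (KK 1 M f) := LI_KK one_pos hfm hfl
  have hKhl : LocallyIntegrable (KK 1 M h) := LI_KK one_pos hhm hhl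
  have W7 := hw.homot (W := W) one_pos hM1
    (fun s hs x hx => smul_mem_CC hx.1 (zero_lt_one.trans_le hs.1)) hfm hhm hfl hhl
  set w : EE 4 → VV 4 (q + 1) F := fun x => f x - (- KK 1 M h x) with hwdef
  have hwl : LocallyIntegrable w := LI_sub hfl (LI_neg hKhl)
  have hkl : LocallyIntegrable (fun x => - KK 1 M f x) := LI_neg hKfl
  have h0l : LocallyIntegrable (fun _ : EE 4 => (0 : VV 4 (q + 1 + 1) F)) := LI_zero
  have W8 : WD W (fun x => - KK 1 M f x) w := by
    refine W7.neg.congr (Eventually.of_forall fun x _ => rfl) (Eventually.of_forall fun x hx => ?_)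
    have e1 : pbs 1 f x = f x := by
      unfold pbs
      rw [one_pow, one_smul, one_smul]
    have e2 : pbs M f x = 0 := by
      unfold pbs
      rw [hf0, smul_zero]
      have hx2 : ρ / 2 < ‖x‖ := hx.2
      rw [norm_smul, Real.norm_of_nonneg hM0.le]
      nlinarith
    rw [e1, e2, hwdef]
    beta_reduce
    abel
  have W9 := W8.dd
  have W10 := W9.smul hwl h0l hχ
  have W11 := W8.smul hkl hwl hχ
  have W12 := W11.dd
  have d1 : LocallyIntegrable (fun x => wdgL 4 q F (fderiv ℝ (chi L) x) (- KK 1 M f x)) :=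
    LI_wdg hχ hkl
  have d2 : LocallyIntegrable (fun x => wdgL 4 (q + 1) F (fderiv ℝ (chi L) x) (w x)) :=
    LI_wdg hχ hwl
  have d3 : LocallyIntegrable (fun x => chi L x • w x) := LI_smul hχ.continuous hwl
  have d4 : LocallyIntegrable (fun x => chi L x • f x) := LI_smul hχ.continuous hfl
  have d5 : LocallyIntegrable (fun x => chi L x • h x) := LI_smul hχ.continuous hhl
  have d6 : LocallyIntegrable (fun x => chi L x • (0 : VV 4 (q + 1 + 1) F)) :=
    LI_smul hχ.continuous h0l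
  have d7 : LocallyIntegrable (fun x => wdgL 4 (q + 1) F (fderiv ℝ (chi L) x) (f x)) :=
    LI_wdg hχ hfl
  have W13 := W12.sub W10 (LI_add d1 d3) d3 h0l (LI_add d2 d6)
  have W14 := (hw.mono (W := W) inter_subset_left).smul hfl hhl hχ
  have W15 := W14.add W13 d4 (LI_sub (LI_add d1 d3) d3) (LI_add d7 d5)
    (LI_sub h0l (LI_add d2 d6))
  have d8 : LocallyIntegrable (fun x => wdgL 4 (q + 1) F (fderiv ℝ (chi L) x)
      (- KK 1 M h x)) := LI_wdg hχ (LI_neg hKhl)
  have W16 : WD W (fun x => chi L x • f x + wdgL 4 q F (fderiv ℝ (chi L) x) (- KK 1 M f x))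
      (fun x => chi L x • h x + wdgL 4 (q + 1) F (fderiv ℝ (chi L) x) (- KK 1 M h x)) := by
    refine W15.congr (Eventually.of_forall fun x _ => ?_) (Eventually.of_forall fun x _ => ?_)
    · beta_reduce
      abel
    · beta_reduce
      rw [hwdef]
      beta_reduce
      rw [smul_zero, map_sub]
      abel
  have W17 : WD (Metric.ball (0 : EE 4) ρ)
      (fun x => chi L x • f x + wdgL 4 q F (fderiv ℝ (chi L) x) (- KK 1 M f x))
      (fun x => chi L x • h x + wdgL 4 (q + 1) F (fderiv ℝ (chi L) x) (- KK 1 M h x)) := by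
    refine WD.of_zero (fun x hx => ?_) (fun x hx => ?_)
    · rw [mem_ball_zero_iff] at hx
      rw [chi_zero hL hx.le, fderiv_chi_zero_of_lt hL hx, map_zero, zero_apply, zero_smul,
        add_zero]
    · rw [mem_ball_zero_iff] at hx
      rw [chi_zero hL hx.le, fderiv_chi_zero_of_lt hL hx, map_zero, zero_apply, zero_smul,
        add_zero]
  have W18 := (W16.union hWo Metric.isOpen_ball W17 (LI_add d4 d1) (LI_add d5 d8)).mono
    (W := TT) (by
      intro x hx
      by_cases hxρ : ‖x‖ < ρ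
      · right
        rwa [mem_ball_zero_iff]
      · left
        refine ⟨TT_subset_CC hx, ?_⟩
        change ρ / 2 < ‖x‖
        linarith)
  refine ⟨fun x => wdgL 4 q F (fderiv ℝ (chi L) x) (- KK 1 M f x),
    fun x => wdgL 4 (q + 1) F (fderiv ℝ (chi L) x) (- KK 1 M h x),
    sm_wdg hχ (sm_KK 1 M hfm).neg, sm_wdg hχ (sm_KK 1 M hhm).neg, W18, ?_, ?_, hn1 M, hn2 M⟩
  · intro x _ hx
    beta_reduce
    rw [fderiv_chi_zero_of_lt hL hx, map_zero, zero_apply]
  · intro x _ hx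
    beta_reduce
    rw [fderiv_chi_zero_of_lt hL hx, map_zero, zero_apply]

end Pool.Agent.H92
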