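import Pool.Agent.H92.Hartogs.StepB2

set_option autoImplicit false
set_option linter.unusedSectionVars false

open MeasureTheory Set Filter Topology
open scoped ContDiff ENNReal

namespace Pool.Agent.H92

variable {q : ℕ} {F : Type*} [NormedAddCommGroup F] [NormedSpace ℝ F] [CompleteSpace F]

theorem memLp_smul_bdd {G : Type*} [NormedAddCommGroup G] [NormedSpace ℝ G] {c : EE 4 → ℝ}
    (hc : Continuous c) {B : ℝ} (hB : ∀ x, ‖c x‖ ≤ B) {u : EE 4 → G} (hu : MemLp u 2 volume) :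
    MemLp (fun x => c x • u x) 2 volume := by
  refine hu.of_le_mul (c := B) (hc.aestronglyMeasurable.smul hu.1) ?_
  refine Eventually.of_forall fun x => ?_
  rw [norm_smul]
  exact mul_le_mul_of_nonneg_right (hB x) (norm_nonneg _)

theorem memLp_wdg_bdd {θ : EE 4 → ℝ} (hθ : ContDiff ℝ ∞ θ) {B : ℝ}
    (hB : ∀ x, ‖fderiv ℝ θ x‖ ≤ B) {u : EE 4 → VV 4 q F} (hum : StronglyMeasurable u)
    (hu : MemLp u 2 volume) :
    MemLp (fun x => wdgL 4 q F (fderiv ℝ θ x) (u x)) 2 volume := by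
  refine hu.of_le_mul (c := (q + 1) * B) (sm_wdg hθ hum).aestronglyMeasurable ?_
  refine Eventually.of_forall fun x => ?_
  refine (norm_wdgL_le _ _).trans ?_
  rw [mul_assoc]
  refine mul_le_mul_of_nonneg_left ?_ (by positivity)
  exact mul_le_mul_of_nonneg_right (hB x) (norm_nonneg _)

theorem MemLp_add {G : Type*} [NormedAddCommGroup G] {u v : EE 4 → G}
    (hu : MemLp u 2 volume) (hv : MemLp v 2 volume) : MemLp (fun x => u x + v x) 2 volume :=
  hu.add hv

theorem MemLp_TT {G : Type*} [NormedAddCommGroup G] {u : EE 4 → G}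
    (hu : MemLp u 2 volume) : MemLp (TT.indicator u) 2 volume :=
  hu.indicator measurableSet_TT

theorem SM_TT {G : Type*} [NormedAddCommGroup G] {u : EE 4 → G}
    (hu : StronglyMeasurable u) : StronglyMeasurable (TT.indicator u) :=
  hu.indicator measurableSet_TT

theorem fd_const_sub (θ : EE 4 → ℝ) (x : EE 4) :
    fderiv ℝ (fun x => 1 - θ x) x = - fderiv ℝ θ x := by
  have := fderiv_const_sub (𝕜 := ℝ) (f := θ) (x := x) (1 : ℝ)
  exact this

/-- the part away from the singular point -/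
theorem Apx.far {θ : EE 4 → ℝ} (hθ : ContDiff ℝ ∞ θ)
    (ho : ∀ x : EE 4, ‖x‖ ≤ 1 / 4 → θ x = 1 ∧ fderiv ℝ θ x = 0)
    {B B' : ℝ} (hB : ∀ x, ‖θ x‖ ≤ B) (hB' : ∀ x, ‖fderiv ℝ θ x‖ ≤ B')
    {f : EE 4 → VV 4 q F} {h : EE 4 → VV 4 (q + 1) F}
    (hfm : StronglyMeasurable f)
    (hf : MemLp f 2 volume) (hh : MemLp h 2 volume) (hw : WD TT f h) :
    MemLp (fun x => (1 - θ x) • f x) 2 volume ∧
    MemLp (fun x => wdgL 4 q F (fderiv ℝ (fun x => 1 - θ x) x) (f x) + (1 - θ x) • h x) 2 volume ∧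
    Apx (fun x => (1 - θ x) • f x)
      (fun x => wdgL 4 q F (fderiv ℝ (fun x => 1 - θ x) x) (f x) + (1 - θ x) • h x) := by
  have hθ' : ContDiff ℝ ∞ (fun x => 1 - θ x) := contDiff_const.sub hθ
  have hB1 : ∀ x, ‖1 - θ x‖ ≤ 1 + B := by
    intro x
    refine (norm_sub_le _ _).trans ?_
    rw [norm_one]
    linarith [hB x]
  have hB1' : ∀ x, ‖fderiv ℝ (fun x => 1 - θ x) x‖ ≤ B' := by
    intro x
    rw [fd_const_sub, norm_neg]
    exact hB' x
  have W1 := hw.smul (hf.locallyIntegrable (by norm_num)) (hh.locallyIntegrable (by norm_num)) hθ'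
  have M1 : MemLp (fun x => (1 - θ x) • f x) 2 volume :=
    memLp_smul_bdd hθ'.continuous hB1 hf
  have M2 : MemLp (fun x => wdgL 4 q F (fderiv ℝ (fun x => 1 - θ x) x) (f x) +
      (1 - θ x) • h x) 2 volume :=
    MemLp_add (memLp_wdg_bdd hθ' hB1' hfm hf) (memLp_smul_bdd hθ'.continuous hB1 hh)
  refine ⟨M1, M2, ?_⟩
  refine Apx.of_vanish M1 M2 W1 (ρ := 1 / 4) (by norm_num) ?_ ?_
  · intro x hx
    rw [mem_ball_zero_iff] at hx
    rw [(ho x hx.le).1, sub_self, zero_smul]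
  · intro x hx
    rw [mem_ball_zero_iff] at hx
    rw [fd_const_sub, (ho x hx.le).1, (ho x hx.le).2, sub_self, zero_smul, neg_zero, map_zero,
      zero_apply, add_zero]

theorem ind_zero {G : Type*} [NormedAddCommGroup G] {u : EE 4 → G}
    (hu : ∀ x, 3 / 8 ≤ ‖x‖ → u x = 0) :
    ∀ x, 3 / 8 ≤ ‖x‖ → TT.indicator u x = 0 := by
  intro x hx
  by_cases hT : x ∈ TT
  · rw [indicator_of_mem hT, hu x hx]
  · rw [indicator_of_notMem hT]

theorem Apx.near_aux (hq : q = 0) {f : EE 4 → VV 4 (q + 1) F} {h : EE 4 → VV 4 (q + 2) F}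
    (hfm : StronglyMeasurable f) (hhm : StronglyMeasurable h)
    (hf : MemLp f 2 volume) (hh : MemLp h 2 volume) (hw : WD TT f h)
    (hf0 : ∀ y, 3 / 8 ≤ ‖y‖ → f y = 0) (hh0 : ∀ y, 3 / 8 ≤ ‖y‖ → h y = 0) : Apx f h := by
  have hif := ind_zero hf0
  have hih := ind_zero hh0
  have M5 := MemLp_TT hf
  have M6 := MemLp_TT hh
  have W3 : WD TT (TT.indicator f) (TT.indicator h) := by
    refine hw.congr (Eventually.of_forall fun x hx => ?_) (Eventually.of_forall fun x hx => ?_)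
    · rw [indicator_of_mem hx]
    · rw [indicator_of_mem hx]
  have hVo : IsOpen {x : EE 4 | 3 / 8 < ‖x‖} := isOpen_lt continuous_const continuous_norm
  have W4 : WD {x : EE 4 | 3 / 8 < ‖x‖} (TT.indicator f) (TT.indicator h) := by
    refine WD.of_zero (fun x hx => hif x ?_) (fun x hx => hih x ?_)
    · have : 3 / 8 < ‖x‖ := hx
      exact this.le
    · have : 3 / 8 < ‖x‖ := hx
      exact this.le
  have W5 : WD CC (TT.indicator f) (TT.indicator h) := by
    refine (W3.union isOpen_TT hVo W4 (M5.locallyIntegrable (by norm_num))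
      (M6.locallyIntegrable (by norm_num))).mono ?_
    intro x hx
    by_cases hxρ : ‖x‖ < 1
    · left
      exact CC_inter_ball ⟨hx, by rwa [mem_ball_zero_iff]⟩
    · right
      change 3 / 8 < ‖x‖
      linarith
  have A2 := Apx.cone_one hq (SM_TT hfm) (SM_TT hhm) M5 M6 W5 (fun y hy => hif y (by linarith)) (fun y hy => hih y (by linarith))
  exact A2.congr (fun x hx => by rw [indicator_of_mem hx])
    (fun x hx => by rw [indicator_of_mem hx])

theorem Apx.near (hq : q = 0) {θ : EE 4 → ℝ} (hθ : ContDiff ℝ ∞ θ)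
    (hz : ∀ x : EE 4, 3 / 8 ≤ ‖x‖ → θ x = 0 ∧ fderiv ℝ θ x = 0)
    {B B' : ℝ} (hB : ∀ x, ‖θ x‖ ≤ B) (hB' : ∀ x, ‖fderiv ℝ θ x‖ ≤ B')
    {f : EE 4 → VV 4 (q + 1) F} {h : EE 4 → VV 4 (q + 2) F}
    (hfm : StronglyMeasurable f) (hhm : StronglyMeasurable h)
    (hf : MemLp f 2 volume) (hh : MemLp h 2 volume) (hw : WD TT f h) :
    MemLp (fun x => θ x • f x) 2 volume ∧
    MemLp (fun x => wdgL 4 (q + 1) F (fderiv ℝ θ x) (f x) + θ x • h x) 2 volume ∧
    Apx (fun x => θ x • f x)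
      (fun x => wdgL 4 (q + 1) F (fderiv ℝ θ x) (f x) + θ x • h x) := by
  have W2 := hw.smul (hf.locallyIntegrable (by norm_num)) (hh.locallyIntegrable (by norm_num)) hθ
  have M3 : MemLp (fun x => θ x • f x) 2 volume := memLp_smul_bdd hθ.continuous hB hf
  have M4 : MemLp (fun x => wdgL 4 (q + 1) F (fderiv ℝ θ x) (f x) + θ x • h x) 2 volume :=
    MemLp_add (memLp_wdg_bdd hθ hB' hfm hf) (memLp_smul_bdd hθ.continuous hB hh)
  refine ⟨M3, M4, ?_⟩
  refine Apx.near_aux hq (hθ.continuous.stronglyMeasurable.smul hfm)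
    ((sm_wdg hθ hfm).add (hθ.continuous.stronglyMeasurable.smul hhm)) M3 M4 W2 ?_ ?_
  · intro x hx
    rw [(hz x hx).1, zero_smul]
  · intro x hx
    rw [(hz x hx).1, (hz x hx).2, zero_smul, map_zero, zero_apply, add_zero]

end Pool.Agent.H92
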