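import Pool.Agent.H92.Hartogs.StepB3

set_option autoImplicit false
set_option linter.unusedSectionVars false

open MeasureTheory Set Filter Topology
open scoped ContDiff ENNReal

namespace Pool.Agent.H92

variable {q : ℕ} {F : Type*} [NormedAddCommGroup F] [NormedSpace ℝ F] [CompleteSpace F]

theorem Apx.comb {θ : EE 4 → ℝ} {f : EE 4 → VV 4 q F} {h : EE 4 → VV 4 (q + 1) F}
    (h1 : MemLp (fun x => (1 - θ x) • f x) 2 volume)
    (h2 : MemLp (fun x => wdgL 4 q F (fderiv ℝ (fun x => 1 - θ x) x) (f x) +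
      (1 - θ x) • h x) 2 volume)
    (h3 : Apx (fun x => (1 - θ x) • f x)
      (fun x => wdgL 4 q F (fderiv ℝ (fun x => 1 - θ x) x) (f x) + (1 - θ x) • h x))
    (h4 : MemLp (fun x => θ x • f x) 2 volume)
    (h5 : MemLp (fun x => wdgL 4 q F (fderiv ℝ θ x) (f x) + θ x • h x) 2 volume)
    (h6 : Apx (fun x => θ x • f x)
      (fun x => wdgL 4 q F (fderiv ℝ θ x) (f x) + θ x • h x)) : Apx f h := by
  refine (Apx.add h1.1.restrict h2.1.restrict h4.1.restrict h5.1.restrict h3 h6).congr ?_ ?_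
  · intro x _
    rw [sub_smul, one_smul]
    abel
  · intro x _
    rw [fd_const_sub, map_neg, neg_apply, sub_smul, one_smul]
    abel

/-- the case of degree one -/
theorem Apx.deg_one (hq : q = 0) {f : EE 4 → VV 4 (q + 1) F} {h : EE 4 → VV 4 (q + 2) F}
    (hfm : StronglyMeasurable f) (hhm : StronglyMeasurable h)
    (hf : MemLp f 2 volume) (hh : MemLp h 2 volume) (hw : WD TT f h) : Apx f h := by
  obtain ⟨θ, hθ, h0, h1⟩ := exists_cutoff (N := 4) (s := {x | 3 / 8 ≤ ‖x‖})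
    (t := Metric.closedBall 0 (1 / 4)) (isClosed_le continuous_const continuous_norm)
    Metric.isClosed_closedBall (by
      rw [Set.disjoint_left]
      intro x hx hx2
      rw [mem_closedBall_zero_iff] at hx2
      have : 3 / 8 ≤ ‖x‖ := hx
      linarith)
  have hz : ∀ x : EE 4, 3 / 8 ≤ ‖x‖ → θ x = 0 ∧ fderiv ℝ θ x = 0 := by
    intro x hx
    have hx' : x ∈ {x : EE 4 | 3 / 8 ≤ ‖x‖} := hx
    have e : θ =ᶠ[𝓝 x] fun _ => 0 := h0.filter_mono (nhds_le_nhdsSet hx')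
    refine ⟨e.self_of_nhds, ?_⟩
    rw [e.fderiv_eq]
    simp
  have ho : ∀ x : EE 4, ‖x‖ ≤ 1 / 4 → θ x = 1 ∧ fderiv ℝ θ x = 0 := by
    intro x hx
    have hx' : x ∈ Metric.closedBall (0 : EE 4) (1 / 4) := by rwa [mem_closedBall_zero_iff]
    have e : θ =ᶠ[𝓝 x] fun _ => 1 := h1.filter_mono (nhds_le_nhdsSet hx')
    refine ⟨e.self_of_nhds, ?_⟩
    rw [e.fderiv_eq]
    simp
  have hcpt : HasCompactSupport θ := by
    refine HasCompactSupport.intro (isCompact_closedBall (0 : EE 4) (3 / 8)) ?_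
    intro x hx
    rw [mem_closedBall_zero_iff, not_le] at hx
    exact (hz x hx.le).1
  obtain ⟨B, hB⟩ := hθ.continuous.bounded_above_of_compact_support hcpt
  obtain ⟨B', hB'⟩ := (hθ.continuous_fderiv (by simp)).bounded_above_of_compact_support
    (hcpt.fderiv (𝕜 := ℝ))
  obtain ⟨a1, a2, a3⟩ := Apx.far hθ ho hB hB' hfm hf hh hw
  obtain ⟨a4, a5, a6⟩ := Apx.near hq hθ hz hB hB' hfm hhm hf hh hw
  exact Apx.comb a1 a2 a3 a4 a5 a6

end Pool.Agent.H92
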