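import Pool.Agent.H92.Hartogs.Alg

set_option autoImplicit false
set_option linter.unusedSectionVars false

open MeasureTheory Set Filter Topology
open scoped ContDiff ENNReal

namespace Pool.Agent.H92

variable {N q : ℕ} {F : Type*} [NormedAddCommGroup F] [NormedSpace ℝ F] [CompleteSpace F]

/-- test functions supported in `U` -/
structure Tst (U : Set (EE N)) (η : EE N → ℝ) : Prop where
  smooth : ContDiff ℝ ∞ η
  cpt : HasCompactSupport η
  sub : tsupport η ⊆ U

/-- partial derivative -/
noncomputable def pd (l : Fin N) (η : EE N → ℝ) (x : EE N) : ℝ := fderiv ℝ η x (ev l)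

theorem contDiff_pd {η : EE N → ℝ} (h : ContDiff ℝ ∞ η) (l : Fin N) : ContDiff ℝ ∞ (pd l η) := by
  unfold pd
  exact (h.fderiv_right (m := ∞) (by simp)).clm_apply contDiff_const

theorem Tst.pd {U : Set (EE N)} {η : EE N → ℝ} (h : Tst U η) (l : Fin N) :
    Tst U (pd l η) where
  smooth := contDiff_pd h.smooth l
  cpt := by
    have := h.cpt.fderiv_apply (𝕜 := ℝ) (ev l)
    exact this
  sub := by
    refine Subset.trans ?_ h.sub
    have : tsupport (fun x => fderiv ℝ η x (ev l)) ⊆ tsupport η := by
      refine (closure_mono ?_).trans (tsupport_fderiv_subset (𝕜 := ℝ) (f := η))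
      intro x hx
      simp only [Function.mem_support] at hx ⊢
      intro h0
      apply hx
      rw [h0]
      rfl
    exact this

theorem Tst.mul {U : Set (EE N)} {η χ : EE N → ℝ} (h : Tst U η) (hχ : ContDiff ℝ ∞ χ) :
    Tst U (fun x => χ x * η x) where
  smooth := hχ.mul h.smooth
  cpt := h.cpt.mul_left
  sub := (tsupport_mul_subset_right).trans h.sub

theorem Tst.mono {U W : Set (EE N)} {η : EE N → ℝ} (h : Tst U η) (hUW : U ⊆ W) : Tst W η :=
  ⟨h.smooth, h.cpt, h.sub.trans hUW⟩

theorem Tst.add {U : Set (EE N)} {η χ : EE N → ℝ} (h : Tst U η) (hχ : Tst U χ) :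
    Tst U (fun x => η x + χ x) where
  smooth := h.smooth.add hχ.smooth
  cpt := h.cpt.add hχ.cpt
  sub := (tsupport_add η χ).trans (union_subset h.sub hχ.sub)

theorem pd_mul {η χ : EE N → ℝ} (h : ContDiff ℝ ∞ η) (hχ : ContDiff ℝ ∞ χ) (l : Fin N)
    (x : EE N) : pd l (fun x => χ x * η x) x = χ x * pd l η x + pd l χ x * η x := by
  unfold pd
  rw [fderiv_fun_mul (hχ.differentiable (by simp) x) (h.differentiable (by simp) x)]
  simp [mul_comm]

theorem pd_comm {η : EE N → ℝ} (h : ContDiff ℝ ∞ η) (k l : Fin N) (x : EE N) :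
    pd k (pd l η) x = pd l (pd k η) x := by
  have h2 : ∀ u v : EE N, fderiv ℝ (fun y => fderiv ℝ η y u) x v =
      fderiv ℝ (fderiv ℝ η) x v u := by
    intro u v
    have hd : DifferentiableAt ℝ (fderiv ℝ η) x :=
      (h.fderiv_right (m := ∞) (by simp)).differentiable (by simp) x
    rw [fderiv_clm_apply hd (differentiableAt_const u)]
    simp
  unfold pd
  rw [h2, h2]
  have := (h.contDiffAt (x := x)).isSymmSndFDerivAt
    (by simp only [minSmoothness_of_isRCLikeNormedField]; exact WithTop.coe_le_coe.2 le_top)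
  exact this _ _

theorem Tst.integrable {U : Set (EE N)} {η : EE N → ℝ} (h : Tst U η)
    {f : EE N → F}
    (hf : LocallyIntegrable f) : Integrable (fun x => η x • f x) :=
  hf.integrable_smul_left_of_hasCompactSupport h.smooth.continuous h.cpt

/-- pairing -/
noncomputable def II (c : EE N → ℝ) (f : EE N → VV N q F) : VV N q F := ∫ x, c x • f x

/-- `h` is the weak exterior derivative of `f` on `U` -/
def WD (U : Set (EE N)) (f : EE N → VV N q F) (h : EE N → VV N (q + 1) F) : Prop :=
  ∀ η, Tst U η → II η h = - ∑ l, wdgL N q F (ec l) (II (pd l η) f)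

theorem WD.mono {U W : Set (EE N)} {f : EE N → VV N q F} {h : EE N → VV N (q + 1) F}
    (hw : WD U f h) (hUW : W ⊆ U) : WD W f h := fun η hη => hw η (hη.mono hUW)

/-- locally integrable functions are stable under continuous scalar multiplication -/
theorem LI_smul {c : EE N → ℝ} (hc : Continuous c)
    {f : EE N → F}
    (hf : LocallyIntegrable f) : LocallyIntegrable (fun x => c x • f x) := by
  exact LocallyIntegrable.continuous_smul hc hf

theorem LI_clm {G : Type*} [NormedAddCommGroup G] [NormedSpace ℝ G] (L : F →L[ℝ] G) {f : EE N → F}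
    (hf : LocallyIntegrable f) : LocallyIntegrable (fun x => L (f x)) := by
  intro x
  obtain ⟨s, hs, hf⟩ := hf x
  exact ⟨s, hs, L.integrable_comp hf⟩

theorem II_add {c : EE N → ℝ} {U : Set (EE N)} (hc : Tst U c) {f g : EE N → VV N q F}
    (hf : LocallyIntegrable f) (hg : LocallyIntegrable g) :
    II c (fun x => f x + g x) = II c f + II c g := by
  unfold II
  simp only [smul_add]
  exact integral_add (hc.integrable hf) (hc.integrable hg)

theorem II_neg {c : EE N → ℝ} {f : EE N → VV N q F} :
    II c (fun x => - f x) = - II c f := by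
  unfold II
  simp only [smul_neg]
  exact integral_neg _

theorem II_sub {c : EE N → ℝ} {U : Set (EE N)} (hc : Tst U c) {f g : EE N → VV N q F}
    (hf : LocallyIntegrable f) (hg : LocallyIntegrable g) :
    II c (fun x => f x - g x) = II c f - II c g := by
  unfold II
  simp only [smul_sub]
  exact integral_sub (hc.integrable hf) (hc.integrable hg)

theorem II_clm {p : ℕ} {c : EE N → ℝ} {U : Set (EE N)} (hc : Tst U c) {f : EE N → VV N q F}
    (hf : LocallyIntegrable f) (L : VV N q F →L[ℝ] VV N p F) :
    II c (fun x => L (f x)) = L (II c f) := by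
  unfold II
  rw [← L.integral_comp_comm (hc.integrable hf)]
  simp

theorem II_smul {c χ : EE N → ℝ} {f : EE N → VV N q F} :
    II c (fun x => χ x • f x) = II (fun x => χ x * c x) f := by
  unfold II
  congr 1
  ext1 x
  rw [smul_smul, mul_comm]

theorem II_add_left {c d : EE N → ℝ} {U : Set (EE N)} (hc : Tst U c) (hd : Tst U d)
    {f : EE N → VV N q F} (hf : LocallyIntegrable f) :
    II (fun x => c x + d x) f = II c f + II d f := by
  unfold II
  simp only [add_smul]
  exact integral_add (hc.integrable hf) (hd.integrable hf)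

/-- product rule for the weak exterior derivative -/
theorem WD.smul {U : Set (EE N)} {g : EE N → VV N q F} {h : EE N → VV N (q + 1) F}
    (hw : WD U g h) (hg : LocallyIntegrable g) (hh : LocallyIntegrable h)
    {χ : EE N → ℝ} (hχ : ContDiff ℝ ∞ χ) :
    WD U (fun x => χ x • g x) (fun x => wdgL N q F (fderiv ℝ χ x) (g x) + χ x • h x) := by
  intro η hη
  have e1 : ∀ x, wdgL N q F (fderiv ℝ χ x) (g x) = ∑ l, pd l χ x • wdgL N q F (ec l) (g x) := by
    intro x
    rw [wdgL_sum]
    rfl
  have i1 : ∀ l, Integrable (fun x => (pd l χ x * η x) • wdgL N q F (ec l) (g x)) := by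
    intro l
    exact (hη.mul (contDiff_pd hχ l)).integrable (LI_clm _ hg)
  have hmul : Tst U (fun x => χ x * η x) := hη.mul hχ
  have i2 : Integrable (fun x => (χ x * η x) • h x) := hmul.integrable hh
  have s1 : II η (fun x => wdgL N q F (fderiv ℝ χ x) (g x) + χ x • h x) =
      ∑ l, wdgL N q F (ec l) (II (fun x => pd l χ x * η x) g) + II (fun x => χ x * η x) h := by
    have : II η (fun x => wdgL N q F (fderiv ℝ χ x) (g x) + χ x • h x) =
        ∫ x, (∑ l, (pd l χ x * η x) • wdgL N q F (ec l) (g x) + (χ x * η x) • h x) := by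
      unfold II
      congr 1
      ext1 x
      beta_reduce
      rw [e1, smul_add, Finset.smul_sum, smul_smul]
      congr 1
      · refine Finset.sum_congr rfl fun l _ => ?_
        rw [smul_smul, mul_comm]
      · rw [mul_comm]
    rw [this, integral_add (integrable_finsetSum _ fun l _ => i1 l) i2,
      integral_finsetSum _ fun l _ => i1 l]
    congr 1
    refine Finset.sum_congr rfl fun l _ => ?_
    exact II_clm (hη.mul (contDiff_pd hχ l)) hg _
  rw [s1, hw _ hmul, ← sub_eq_add_neg, ← Finset.sum_sub_distrib, ← Finset.sum_neg_distrib]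
  refine Finset.sum_congr rfl fun l _ => ?_
  have : II (pd l fun x => χ x * η x) g =
      II (fun x => χ x * pd l η x) g + II (fun x => pd l χ x * η x) g := by
    rw [← II_add_left ((hη.pd l).mul hχ) (hη.mul (contDiff_pd hχ l)) hg]
    congr 1
    ext1 x
    exact pd_mul hη.smooth hχ l x
  rw [this, II_smul, map_add]
  abel

/-- `d ∘ d = 0`, weakly -/
theorem WD.dd {U : Set (EE N)} {g : EE N → VV N q F} {h : EE N → VV N (q + 1) F}
    (hw : WD U g h) : WD U h (fun _ => 0) := by
  intro η hη
  have h0 : II η (fun _ => (0 : VV N (q + 2) F)) = 0 := by simp [II]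
  rw [h0]
  have : ∀ l, II (pd l η) h = - ∑ k, wdgL N q F (ec k) (II (pd k (pd l η)) g) :=
    fun l => hw _ (hη.pd l)
  simp only [this, map_neg, map_sum, Finset.sum_neg_distrib, neg_neg]
  have hs : ∀ k l, II (pd k (pd l η)) g = II (pd l (pd k η)) g := by
    intro k l
    congr 1
    ext1 x
    exact pd_comm hη.smooth k l x
  have key : (∑ l, ∑ k, wdgL N (q + 1) F (ec l) (wdgL N q F (ec k) (II (pd k (pd l η)) g))) =
      - ∑ l, ∑ k, wdgL N (q + 1) F (ec l) (wdgL N q F (ec k) (II (pd k (pd l η)) g)) := by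
    conv_lhs => rw [Finset.sum_comm]
    rw [← Finset.sum_neg_distrib]
    refine Finset.sum_congr rfl fun l _ => ?_
    rw [← Finset.sum_neg_distrib]
    refine Finset.sum_congr rfl fun k _ => ?_
    rw [wdgL_anticomm, hs]
  have h2 := add_eq_zero_iff_eq_neg.2 key
  have h3 : (2 : ℝ) • (∑ l, ∑ k, wdgL N (q + 1) F (ec l)
      (wdgL N q F (ec k) (II (pd k (pd l η)) g))) = 0 := by
    rw [two_smul]
    exact h2
  exact ((smul_eq_zero.1 h3).resolve_left two_ne_zero).symm

theorem WD.add {U : Set (EE N)} {g g' : EE N → VV N q F} {h h' : EE N → VV N (q + 1) F}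
    (hw : WD U g h) (hw' : WD U g' h') (hg : LocallyIntegrable g) (hg' : LocallyIntegrable g')
    (hh : LocallyIntegrable h) (hh' : LocallyIntegrable h') :
    WD U (fun x => g x + g' x) (fun x => h x + h' x) := by
  intro η hη
  rw [II_add hη hh hh', hw η hη, hw' η hη, ← neg_add, ← Finset.sum_add_distrib]
  congr 1
  refine Finset.sum_congr rfl fun l _ => ?_
  rw [II_add (hη.pd l) hg hg', map_add]

theorem WD.sub {U : Set (EE N)} {g g' : EE N → VV N q F} {h h' : EE N → VV N (q + 1) F}
    (hw : WD U g h) (hw' : WD U g' h') (hg : LocallyIntegrable g) (hg' : LocallyIntegrable g')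
    (hh : LocallyIntegrable h) (hh' : LocallyIntegrable h') :
    WD U (fun x => g x - g' x) (fun x => h x - h' x) := by
  intro η hη
  rw [II_sub hη hh hh', hw η hη, hw' η hη, neg_sub_neg, ← neg_sub, ← Finset.sum_sub_distrib]
  congr 1
  refine Finset.sum_congr rfl fun l _ => ?_
  rw [II_sub (hη.pd l) hg hg', map_sub]

/-- congruence on `U` -/
theorem II_congr {U : Set (EE N)} {c : EE N → ℝ} (hc : Tst U c) {f g : EE N → VV N q F}
    (hfg : ∀ᵐ x, x ∈ U → f x = g x) : II c f = II c g := by
  unfold II
  refine integral_congr_ae ?_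
  filter_upwards [hfg] with x hx
  by_cases h : x ∈ U
  · simp only [hx h]
  · have : c x = 0 := by
      by_contra h0
      exact h (hc.sub (subset_tsupport _ h0))
    simp [this]

theorem WD.congr {U : Set (EE N)} {g g' : EE N → VV N q F} {h h' : EE N → VV N (q + 1) F}
    (hw : WD U g h) (hg : ∀ᵐ x, x ∈ U → g x = g' x) (hh : ∀ᵐ x, x ∈ U → h x = h' x) :
    WD U g' h' := by
  intro η hη
  rw [← II_congr hη hh, hw η hη]
  congr 1
  refine Finset.sum_congr rfl fun l _ => ?_
  rw [← II_congr (hη.pd l) hg]

end Pool.Agent.H92
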